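import Pool.Agent.Work.MP_659252_gt.Z.Defs

/-!
# Nested families of quadratic cones: the objects of the theorem

The notions of Zoll metric, tangent vector to the space of Zoll metrics (`InT`), trivial direction and invariant tensor
are those of `Pool.Agent.Work.MP_659252_gt.Z.Defs`.  Here: a path `A_s` of symmetric matrices, its quadratic forms
`Q_s(x, x) = ⟨x, A_s x⟩`, the level function and the tensor `conf`.
-/

namespace Pool.Agent.Work.MP_659252_gt.Y

open scoped ContDiff
open Pool.Agent.Work.MP_659252_gt.Z (V Ten)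

/-- Paths of `(d + 1) × (d + 1)` matrices. -/
abbrev Path (d : ℕ) : Type := ℝ → Fin (d + 1) → Fin (d + 1) → ℝ

/-- The derivative of a path of matrices. -/
noncomputable def dot {d : ℕ} (A : Path d) : Path d := fun s i j => deriv (fun u => A u i j) s

/-- The bilinear form `Q_s(x, y) = ∑ (A_s)_ij x_i y_j`. -/
def Q {d : ℕ} (A : Path d) (s : ℝ) (x y : V d) : ℝ := ∑ i, ∑ j, A s i j * (x i * y j)

/-- The vector `A_s x`. -/
def AX {d : ℕ} (A : Path d) (s : ℝ) (x : V d) : V d := fun i => ∑ j, A s i j * x j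

/-- `A_s`, `0 < s < T`, is a nested family: smooth, symmetric, `Q_s` is positive on the hyperplane `x_0 = 0` and the
derivative of `Q_s` in `s` is positive definite.  So for `0 < s < s' < T` the cone `Q_{s'} ≤ 0` (minus `0`) is contained
in the cone `Q_s < 0`, and these cones do not meet the hyperplane `x_0 = 0`. -/
structure Nested {d : ℕ} (A : Path d) (T : ℝ) : Prop where
  smooth : ∀ i j, ContDiffOn ℝ ∞ (fun s => A s i j) (Set.Ioo 0 T)
  symm : ∀ s i j, A s i j = A s j i
  pos : ∀ s ∈ Set.Ioo 0 T, ∀ z : V d, z ≠ 0 → z 0 = 0 → 0 < Q A s z z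
  mono : ∀ s ∈ Set.Ioo 0 T, ∀ x : V d, x ≠ 0 → 0 < Q (dot A) s x x

/-- The level of `x`: the largest `s` with `0 < s < T` and `Q_s(x, x) ≤ 0`. -/
noncomputable def lev {d : ℕ} (A : Path d) (T : ℝ) (x : V d) : ℝ := sSup {s | s ∈ Set.Ioo 0 T ∧ Q A s x x ≤ 0}

/-- The tensor `2 sign (x_0) B(s) (A_s x) ⊗ (A_s x) / ⟨x, A'_s x⟩`, `s = lev x`.  The vector `A_s x` is normal to the
level set of `lev` through `x`. -/
noncomputable def conf {d : ℕ} (A : Path d) (T : ℝ) (B : ℝ → ℝ) : Ten d := fun x i j =>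
  2 * (Real.sign (x 0) * B (lev A T x)) *
    (AX A (lev A T x) x i * AX A (lev A T x) x j / Q (dot A) (lev A T x) x x)

end Pool.Agent.Work.MP_659252_gt.Y
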