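import Pool.Agent.Work.MP_659252_gt.Y.Bas

/-!
# The form `P'` is proportional to `P`.  Size: M.  (Linear algebra.)

Write `q = Q P s`, `q' = Q P' s`.
PROOF.  (1) There are `e₁ = a₁ f₁ + b₁ f₂`, `e₂ = a₂ f₁ + b₂ f₂` (coefficients not both zero) with `q(e_i, e_j) = δ_ij` and `q'(e₁, e₂) = 0`: first a `q`-orthonormal pair `g₁`, `g₂`
(`g₁ = f₁/√q(f₁,f₁)`, `g₂ ∝ q(f₁,f₁) f₂ - q(f₁,f₂) f₁`), then `e₁ = cos θ g₁ + sin θ g₂`, `e₂ = -sin θ g₁ + cos θ g₂` with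
`q'(e₁, e₂) = cos 2θ q'(g₁,g₂) + (1/2) sin 2θ (q'(g₂,g₂) - q'(g₁,g₁)) = 0`: at `θ = 0` the value is `q'(g₁,g₂)`, at `θ = π/2` it is `-q'(g₁,g₂)` (intermediate value theorem).
Let `α₁ = q'(e₁,e₁) > 0`, `α₂ = q'(e₂,e₂) > 0` (`hpos`).
(2) `H` for `x = e₁` with constant `c₁`: as both sides are quadratic in `v`, polarisation (`v ↦ v + w`) gives
`q'(e₁,v) q'(e₁,w) - α₁ q'(v,w) = c₁ (q(e₁,v) q(e₁,w) - q(v,w))` for all `v`, `w`.  With `v = w = e₂`: `-α₁ α₂ = -c₁`, so `c₁ = α₁ α₂`; the same for `x = e₂`: `c₂ = α₁ α₂`.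
With `w = v`: `α₁ q'(v,v) = q'(e₁,v)² - α₁ α₂ (q(e₁,v)² - q(v,v))`.  From `x = e₂`, `w = e₁`: `-α₂ q'(v,e₁) = -c₂ q(v,e₁)`, so `q'(e₁,v) = α₁ q(e₁,v)`; similarly `q'(e₂,v) = α₂ q(e₂,v)`.  Hence
`q'(v,v) = (α₁ - α₂) q(e₁,v)² + α₂ q(v,v)` and symmetrically `q'(v,v) = (α₂ - α₁) q(e₂,v)² + α₁ q(v,v)`.
(3) Subtract: `(α₁ - α₂) (q(e₁,v)² + q(e₂,v)² - q(v,v)) = 0`; for `v = y` the second factor is `> 0`, so `α₁ = α₂ =: a`, `q'(v,v) = a q(v,v)` for all `v`; polarise.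
-/

namespace Pool.Agent.Work.MP_659252_gt.Y

open Pool.Agent.Work.MP_659252_gt.Z (V)

variable {d : ℕ} {P P' : Path d}

/-- symmetric bilinear functions -/
private structure SB {E : Type*} [AddCommGroup E] [Module ℝ E] (q : E → E → ℝ) : Prop where
  c : ∀ x y, q x y = q y x
  a : ∀ x y z, q (x + y) z = q x z + q y z
  s : ∀ (t : ℝ) x z, q (t • x) z = t * q x z

private theorem SB.ar {E : Type*} [AddCommGroup E] [Module ℝ E] {q : E → E → ℝ} (h : SB q)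
    (x y z : E) : q z (x + y) = q z x + q z y := by
  rw [h.c, h.a, h.c x, h.c y]

private theorem SB.sr {E : Type*} [AddCommGroup E] [Module ℝ E] {q : E → E → ℝ} (h : SB q)
    (t : ℝ) (x z : E) : q z (t • x) = t * q z x := by
  rw [h.c, h.s, h.c x]

private theorem SB.exp {E : Type*} [AddCommGroup E] [Module ℝ E] {q : E → E → ℝ} (h : SB q)
    (a b a' b' : ℝ) (x y : E) : q (a • x + b • y) (a' • x + b' • y) =
      a * a' * q x x + (a * b' + b * a') * q x y + b * b' * q y y := by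
  rw [h.a, h.ar, h.ar, h.s, h.s, h.s, h.s, h.sr, h.sr, h.sr, h.sr, h.c y x]
  ring

private theorem diag {E : Type*} [AddCommGroup E] [Module ℝ E] {q q' : E → E → ℝ} (h : SB q)
    (h' : SB q') (f₁ f₂ : E)
    (hpos : ∀ a b : ℝ, a ≠ 0 ∨ b ≠ 0 → 0 < q (a • f₁ + b • f₂) (a • f₁ + b • f₂)) :
    ∃ e₁ e₂ : E, (∃ a b : ℝ, e₁ = a • f₁ + b • f₂) ∧ (∃ a b : ℝ, e₂ = a • f₁ + b • f₂) ∧
      q e₁ e₁ = 1 ∧ q e₂ e₂ = 1 ∧ q e₁ e₂ = 0 ∧ q' e₁ e₂ = 0 := by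
  -- first vector
  have h1 : 0 < q f₁ f₁ := by
    have := hpos 1 0 (Or.inl one_ne_zero)
    simpa using this
  set g' : E := (-q f₁ f₂) • f₁ + (q f₁ f₁) • f₂ with hg'
  have h2 : 0 < q g' g' := hpos _ _ (Or.inr h1.ne')
  have h3 : q f₁ g' = 0 := by
    rw [hg', h.ar, h.sr, h.sr]
    ring
  set r₁ : ℝ := (Real.sqrt (q f₁ f₁))⁻¹ with hr₁
  set r₂ : ℝ := (Real.sqrt (q g' g'))⁻¹ with hr₂
  have hr₁' : r₁ * r₁ * q f₁ f₁ = 1 := by
    have e := Real.mul_self_sqrt h1.le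
    have e0 : Real.sqrt (q f₁ f₁) ≠ 0 := (Real.sqrt_pos.2 h1).ne'
    rw [hr₁]
    rw [show (√(q f₁ f₁))⁻¹ * (√(q f₁ f₁))⁻¹ * q f₁ f₁ =
      (√(q f₁ f₁))⁻¹ * (√(q f₁ f₁))⁻¹ * (√(q f₁ f₁) * √(q f₁ f₁)) by rw [e]]
    field_simp
  have hr₂' : r₂ * r₂ * q g' g' = 1 := by
    have e := Real.mul_self_sqrt h2.le
    have e0 : Real.sqrt (q g' g') ≠ 0 := (Real.sqrt_pos.2 h2).ne'
    rw [hr₂]
    rw [show (√(q g' g'))⁻¹ * (√(q g' g'))⁻¹ * q g' g' =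
      (√(q g' g'))⁻¹ * (√(q g' g'))⁻¹ * (√(q g' g') * √(q g' g')) by rw [e]]
    field_simp
  set g₁ : E := r₁ • f₁ with hg₁
  set g₂ : E := r₂ • g' with hg₂
  have k11 : q g₁ g₁ = 1 := by
    rw [hg₁, h.s, h.sr]
    linarith
  have k22 : q g₂ g₂ = 1 := by
    rw [hg₂, h.s, h.sr]
    linarith
  have k12 : q g₁ g₂ = 0 := by
    rw [hg₁, hg₂, h.s, h.sr, h3]
    ring
  -- rotation
  set F : ℝ → ℝ := fun θ => (Real.cos θ ^ 2 - Real.sin θ ^ 2) * q' g₁ g₂ +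
    Real.cos θ * Real.sin θ * (q' g₂ g₂ - q' g₁ g₁) with hF
  have hFc : Continuous F := by
    rw [hF]
    fun_prop
  have hF0 : F 0 = q' g₁ g₂ := by
    rw [hF]
    simp
  have hF1 : F (Real.pi / 2) = -q' g₁ g₂ := by
    rw [hF]
    simp
  obtain ⟨θ, hθ⟩ : ∃ θ, F θ = 0 := by
    have hm : (0 : ℝ) ∈ Set.uIcc (F 0) (F (Real.pi / 2)) := by
      rw [hF0, hF1, Set.mem_uIcc]
      rcases le_total 0 (q' g₁ g₂) with hc | hc
      · right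
        constructor <;> linarith
      · left
        constructor <;> linarith
    obtain ⟨θ, -, hθ⟩ := intermediate_value_uIcc (a := 0) (b := Real.pi / 2) hFc.continuousOn hm
    exact ⟨θ, hθ⟩
  have hcs := Real.cos_sq_add_sin_sq θ
  set c := Real.cos θ with hc
  set s := Real.sin θ with hs
  have hspan : ∀ a b : ℝ, ∃ a' b' : ℝ, a • g₁ + b • g₂ = a' • f₁ + b' • f₂ := by
    intro a b
    refine ⟨a * r₁ + b * r₂ * (-q f₁ f₂), b * r₂ * q f₁ f₁, ?_⟩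
    rw [hg₁, hg₂, hg']
    module
  refine ⟨c • g₁ + s • g₂, (-s) • g₁ + c • g₂, hspan _ _, hspan _ _, ?_, ?_, ?_, ?_⟩
  · rw [h.exp, k11, k22, k12]
    linarith
  · rw [h.exp, k11, k22, k12]
    linarith
  · rw [h.exp, k11, k22, k12]
    ring
  · rw [h'.exp]
    have e : (c ^ 2 - s ^ 2) * q' g₁ g₂ + c * s * (q' g₂ g₂ - q' g₁ g₁) = 0 := hθ
    linarith

private theorem prop {E : Type*} [AddCommGroup E] [Module ℝ E] {q q' : E → E → ℝ} (h : SB q)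
    (h' : SB q') (f₁ f₂ : E)
    (hpos : ∀ a b : ℝ, a ≠ 0 ∨ b ≠ 0 → 0 < q (a • f₁ + b • f₂) (a • f₁ + b • f₂) ∧
      0 < q' (a • f₁ + b • f₂) (a • f₁ + b • f₂))
    (H : ∀ a b : ℝ, a ≠ 0 ∨ b ≠ 0 → ∃ c : ℝ, ∀ v,
      q' (a • f₁ + b • f₂) v ^ 2 - q' (a • f₁ + b • f₂) (a • f₁ + b • f₂) * q' v v =
      c * (q (a • f₁ + b • f₂) v ^ 2 - q (a • f₁ + b • f₂) (a • f₁ + b • f₂) * q v v))
    (y : E) (hy : q y y < 0) : ∃ a : ℝ, 0 < a ∧ ∀ v w, q' v w = a * q v w := by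
  obtain ⟨e₁, e₂, ⟨a₁, b₁, he₁⟩, ⟨a₂, b₂, he₂⟩, k11, k22, k12, k12'⟩ :=
    diag h h' f₁ f₂ (fun a b hab => (hpos a b hab).1)
  have h00 : q 0 0 = 0 := by
    have := h.s 0 0 0
    simpa using this
  have hn₁ : a₁ ≠ 0 ∨ b₁ ≠ 0 := by
    by_contra hc
    push Not at hc
    rw [hc.1, hc.2, zero_smul, zero_smul, add_zero] at he₁
    rw [he₁, h00] at k11
    exact zero_ne_one k11
  have hn₂ : a₂ ≠ 0 ∨ b₂ ≠ 0 := by
    by_contra hc
    push Not at hc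
    rw [hc.1, hc.2, zero_smul, zero_smul, add_zero] at he₂
    rw [he₂, h00] at k22
    exact zero_ne_one k22
  obtain ⟨c₁, H₁⟩ := H a₁ b₁ hn₁
  obtain ⟨c₂, H₂⟩ := H a₂ b₂ hn₂
  have p₁ := (hpos a₁ b₁ hn₁).2
  have p₂ := (hpos a₂ b₂ hn₂).2
  rw [← he₁] at H₁ p₁
  rw [← he₂] at H₂ p₂
  rw [k11] at H₁
  rw [k22] at H₂
  set α := q' e₁ e₁ with hα
  set β := q' e₂ e₂ with hβ
  have k21 : q e₂ e₁ = 0 := by rw [h.c, k12]
  have k21' : q' e₂ e₁ = 0 := by rw [h'.c, k12']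
  have hc₁ : c₁ = α * β := by
    have e := H₁ e₂
    rw [k12, k12', k22, ← hβ] at e
    linarith
  have hc₂ : c₂ = α * β := by
    have e := H₂ e₁
    rw [k21, k21', k11, ← hα] at e
    linarith
  have hv₁ : ∀ v, q' e₁ v = α * q e₁ v := by
    intro v
    have e1 := H₂ (v + e₁)
    have e2 := H₂ v
    have e3 := H₂ e₁
    rw [h'.ar, h'.ar, h'.a, h'.a, h.ar, h.ar, h.a, h.a, k21, k21', h'.c v e₁, h.c v e₁, hc₂] at e1
    rw [hc₂] at e2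
    rw [k21, k21', hc₂] at e3
    have e4 : β * (q' e₁ v - α * q e₁ v) = 0 := by linarith
    rcases mul_eq_zero.1 e4 with e5 | e5
    · exact absurd e5 p₂.ne'
    · linarith
  have hv₂ : ∀ v, q' e₂ v = β * q e₂ v := by
    intro v
    have e1 := H₁ (v + e₂)
    have e2 := H₁ v
    have e3 := H₁ e₂
    rw [h'.ar, h'.ar, h'.a, h'.a, h.ar, h.ar, h.a, h.a, k12, k12', h'.c v e₂, h.c v e₂, hc₁] at e1
    rw [hc₁] at e2
    rw [k12, k12', hc₁] at e3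
    have e4 : α * (q' e₂ v - β * q e₂ v) = 0 := by linarith
    rcases mul_eq_zero.1 e4 with e5 | e5
    · exact absurd e5 p₁.ne'
    · linarith
  have hw₁ : ∀ v, q' v v = (α - β) * q e₁ v ^ 2 + β * q v v := by
    intro v
    have e1 := H₁ v
    rw [hv₁ v, hc₁] at e1
    have e2 : α * (q' v v - ((α - β) * q e₁ v ^ 2 + β * q v v)) = 0 := by linarith
    rcases mul_eq_zero.1 e2 with e5 | e5
    · exact absurd e5 p₁.ne'
    · linarith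
  have hw₂ : ∀ v, q' v v = (β - α) * q e₂ v ^ 2 + α * q v v := by
    intro v
    have e1 := H₂ v
    rw [hv₂ v, hc₂] at e1
    have e2 : β * (q' v v - ((β - α) * q e₂ v ^ 2 + α * q v v)) = 0 := by linarith
    rcases mul_eq_zero.1 e2 with e5 | e5
    · exact absurd e5 p₂.ne'
    · linarith
  have hab : α = β := by
    have e1 := hw₁ y
    have e2 := hw₂ y
    have e3 : (α - β) * (q e₁ y ^ 2 + q e₂ y ^ 2 - q y y) = 0 := by linarith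
    have e4 : 0 < q e₁ y ^ 2 + q e₂ y ^ 2 - q y y := by
      have := sq_nonneg (q e₁ y)
      have := sq_nonneg (q e₂ y)
      linarith
    rcases mul_eq_zero.1 e3 with e5 | e5
    · linarith
    · exact absurd e5 e4.ne'
  refine ⟨α, p₁, ?_⟩
  have hd : ∀ v, q' v v = α * q v v := by
    intro v
    rw [hw₁ v, ← hab]
    ring
  intro v w
  have e1 := hd (v + w)
  rw [h'.a, h'.ar, h'.ar, h.a, h.ar, h.ar, hd v, hd w, h'.c w v, h.c w v] at e1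
  linarith

theorem alg (hP : ∀ s i j, P s i j = P s j i) (hP' : ∀ s i j, P' s i j = P' s j i) (s : ℝ) (f₁ f₂ : V d)
    (hpos : ∀ a b : ℝ, a ≠ 0 ∨ b ≠ 0 →
      0 < Q P s (a • f₁ + b • f₂) (a • f₁ + b • f₂) ∧ 0 < Q P' s (a • f₁ + b • f₂) (a • f₁ + b • f₂))
    (H : ∀ a b : ℝ, a ≠ 0 ∨ b ≠ 0 → ∃ c : ℝ, ∀ v, RR P' s (a • f₁ + b • f₂) v = c * RR P s (a • f₁ + b • f₂) v)
    (y : V d) (hy : Q P s y y < 0) : ∃ a : ℝ, 0 < a ∧ ∀ v w, Q P' s v w = a * Q P s v w := by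
  have h : SB (fun x y : V d => Q P s x y) :=
    ⟨fun x y => Q_comm hP s x y, fun x y z => Q_add P s x y z, fun t x z => Q_smul P s t x z⟩
  have h' : SB (fun x y : V d => Q P' s x y) :=
    ⟨fun x y => Q_comm hP' s x y, fun x y z => Q_add P' s x y z, fun t x z => Q_smul P' s t x z⟩
  exact prop h h' f₁ f₂ hpos H y hy

end Pool.Agent.Work.MP_659252_gt.Y
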