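import Pool.Agent.Work.MP_659252_gt.Y.Qm

/-!
# The sign of `RR`.  Size: S-M.  (Adapt the proofs of `Z/RFact.lean`.)

`x`, `v` orthonormal; `RR = Q(x,v)² - Q(x,x) Q(v,v)` is minus the discriminant of the quadratic form `Q_s` on their plane.
PROOF.  `RR_pos`: let `z = v_0 x - x_0 v`: `z_0 = 0` and `z ≠ 0` (`z ⬝ z = v_0² + x_0²`, and if `x_0 = v_0 = 0` then `Q x x > 0` by `hA.pos`, contradiction).
So `0 < Q z z = v_0² Q x x - 2 x_0 v_0 Q x v + x_0² Q v v`.  With `a = Q x x < 0`, `c = Q v v`, `m = Q x v`: if `m² ≤ a c` then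
`a (v_0² a - 2 x_0 v_0 m + x_0² c) = (v_0 a - x_0 m)² + x_0² (a c - m²) ≥ 0` but the left side is `< 0`.
`RR_neg_pt`: `0 < RR` gives `θ` with `Q y y < 0`: if `Q x x < 0` take `θ = 0`; if `Q x x = 0` then `Q x v ≠ 0`, small `θ`; if `Q x x > 0` the normalised
`Q(x,x) v - Q(x,v) x` has `Q = -Q(x,x) RR · (positive) < 0`.
`RR_nonpos`: contraposition of `RR_neg_pt`.   `Q_nonneg_of_RR`: contraposition of `RR_pos` for the rotated orthonormal pair (same `RR`).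
`RR_neg_left`: `Q (-x) v = -Q x v`, `Q (-x) (-x) = Q x x`.   `RR_smul`, `RR_smul_right`, `RR_shear`: expand.
`RR_lt_zero`: `z = Q(x,x) v - Q(x,v) x`, `z_0 = 0`, `z ≠ 0` (`Q(x,x) > 0`, `v ≠ 0`, `x ⬝ v = 0`), so `0 < Q z z = Q(x,x) (Q(x,x) Q(v,v) - Q(x,v)²) = -Q(x,x) RR`.
`vv_pos`: `z = v_0 x - x_0 v`, `z_0 = 0`, `z ≠ 0` (`z ⬝ z = v_0² + x_0²`), `0 < Q z z = x_0² Q v v` as `Q x x = Q x v = 0`.
-/

namespace Pool.Agent.Work.MP_659252_gt.Y

open Pool.Agent.Work.MP_659252_gt.Z (V)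

variable {d : ℕ} {A : Path d} {T s : ℝ}

private theorem rf_comb2 (hA : ∀ s i j, A s i j = A s j i) (a b a' b' : ℝ) (x v : V d) :
    Q A s (a • x + b • v) (a' • x + b' • v) =
      a * a' * Q A s x x + (a * b' + b * a') * Q A s x v + b * b' * Q A s v v := by
  rw [Q_add, Q_smul, Q_smul, Q_add_right, Q_add_right, Q_smul_right, Q_smul_right, Q_smul_right,
    Q_smul_right, Q_comm hA s v x]
  ring

private theorem rf_comb (hA : ∀ s i j, A s i j = A s j i) (a b : ℝ) (x v : V d) :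
    Q A s (a • x + b • v) (a • x + b • v) =
      a ^ 2 * Q A s x x + 2 * a * b * Q A s x v + b ^ 2 * Q A s v v := by
  rw [rf_comb2 hA]
  ring

private theorem rf_dot (a b a' b' : ℝ) (x v : V d) (hxx : x ⬝ᵥ x = 1) (hxv : x ⬝ᵥ v = 0)
    (hvv : v ⬝ᵥ v = 1) : (a • x + b • v) ⬝ᵥ (a' • x + b' • v) = a * a' + b * b' := by
  have hvx : v ⬝ᵥ x = 0 := by rw [dotProduct_comm]; exact hxv
  simp only [add_dotProduct, dotProduct_add, smul_dotProduct, dotProduct_smul, smul_eq_mul, hxx,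
    hxv, hvv, hvx]
  ring

private theorem rf_rot (hA : ∀ s i j, A s i j = A s j i) (θ : ℝ) (x v : V d) :
    RR A s (Real.cos θ • x + Real.sin θ • v) ((-Real.sin θ) • x + Real.cos θ • v) = RR A s x v := by
  have h1 : RR A s (Real.cos θ • x + Real.sin θ • v) ((-Real.sin θ) • x + Real.cos θ • v) =
      (Real.sin θ ^ 2 + Real.cos θ ^ 2) ^ 2 * RR A s x v := by
    unfold RR
    rw [rf_comb2 hA, rf_comb2 hA, rf_comb2 hA]
    ring
  rw [h1, Real.sin_sq_add_cos_sq]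
  ring

private theorem rf_ne {x : V d} (h : x ⬝ᵥ x = 1) : x ≠ 0 := by
  rintro rfl
  simp at h

private theorem rf_arg (hA : ∀ s i j, A s i j = A s j i) (X Y : ℝ) (h : X ≠ 0 ∨ Y ≠ 0) (x v : V d) :
    ∃ θ : ℝ, ∃ r : ℝ, 0 < r ∧ Q A s (Real.cos θ • x + Real.sin θ • v)
      (Real.cos θ • x + Real.sin θ • v) =
      r * (X ^ 2 * Q A s x x + 2 * X * Y * Q A s x v + Y ^ 2 * Q A s v v) := by
  have hz : (⟨X, Y⟩ : ℂ) ≠ 0 := by
    intro h0
    have h1 := congrArg Complex.re h0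
    have h2 := congrArg Complex.im h0
    simp only [Complex.zero_re, Complex.zero_im] at h1 h2
    rcases h with h | h
    · exact h h1
    · exact h h2
  have hn : 0 < ‖(⟨X, Y⟩ : ℂ)‖ := norm_pos_iff.2 hz
  refine ⟨Complex.arg ⟨X, Y⟩, (‖(⟨X, Y⟩ : ℂ)‖ ^ 2)⁻¹, by positivity, ?_⟩
  rw [rf_comb hA, Complex.cos_arg hz, Complex.sin_arg]
  have : ‖(⟨X, Y⟩ : ℂ)‖ ≠ 0 := hn.ne'
  field_simp

theorem RR_pos (hA : Nested A T) (hs : s ∈ Set.Ioo 0 T) (x v : V d) (hxx : x ⬝ᵥ x = 1) (hxv : x ⬝ᵥ v = 0)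
    (hvv : v ⬝ᵥ v = 1) (h : Q A s x x < 0) : 0 < RR A s x v := by
  by_contra hcon
  rw [not_lt] at hcon
  have hz0 : (v 0 • x + (-x 0) • v) 0 = 0 := by
    simp only [Pi.add_apply, Pi.smul_apply, smul_eq_mul]
    ring
  have hdot := rf_dot (v 0) (-x 0) (v 0) (-x 0) x v hxx hxv hvv
  have hzne : v 0 • x + (-x 0) • v ≠ 0 := by
    intro h0
    rw [h0, zero_dotProduct] at hdot
    have h1 : x 0 = 0 := by nlinarith [sq_nonneg (v 0), sq_nonneg (x 0)]
    exact absurd (hA.pos s hs x (rf_ne hxx) h1) (not_lt.2 h.le)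
  have hpos := hA.pos s hs _ hzne hz0
  rw [rf_comb hA.symm] at hpos
  unfold RR at hcon
  set a := Q A s x x with ha
  set m := Q A s x v with hm
  set c := Q A s v v with hc
  have h1 : a * ((v 0) ^ 2 * a + 2 * (v 0) * (-x 0) * m + (-x 0) ^ 2 * c) < 0 :=
    mul_neg_of_neg_of_pos h hpos
  have h2 : a * ((v 0) ^ 2 * a + 2 * (v 0) * (-x 0) * m + (-x 0) ^ 2 * c) =
      (v 0 * a - x 0 * m) ^ 2 + (x 0) ^ 2 * (a * c - m ^ 2) := by ring
  have h3 : 0 ≤ (x 0) ^ 2 * (a * c - m ^ 2) := by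
    apply mul_nonneg (sq_nonneg _)
    linarith
  have h4 := sq_nonneg (v 0 * a - x 0 * m)
  linarith

theorem RR_neg_pt (hA : Nested A T) (x v : V d) (h : 0 < RR A s x v) :
    ∃ θ : ℝ, Q A s (Real.cos θ • x + Real.sin θ • v) (Real.cos θ • x + Real.sin θ • v) < 0 := by
  unfold RR at h
  by_cases ha : Q A s x x < 0
  · refine ⟨0, ?_⟩
    rw [rf_comb hA.symm, Real.cos_zero, Real.sin_zero]
    linarith
  rw [not_lt] at ha
  by_cases hc : Q A s v v < 0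
  · refine ⟨Real.pi / 2, ?_⟩
    rw [rf_comb hA.symm, Real.cos_pi_div_two, Real.sin_pi_div_two]
    linarith
  rw [not_lt] at hc
  set a := Q A s x x with haa
  set m := Q A s x v with hmm
  set c := Q A s v v with hcc
  have hm : m ≠ 0 := by
    rintro hm0
    rw [hm0] at h
    have := mul_nonneg ha hc
    linarith
  set δ := m ^ 2 - a * c with hδ
  set ε := δ / (a + 1) with hε
  have ha1 : 0 < a + 1 := by linarith
  have hε0 : 0 < ε := by positivity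
  have hεa : ε * (a + 1) = δ := by
    rw [hε]
    field_simp
  obtain ⟨θ, r, hr, he⟩ := rf_arg (A := A) (s := s) hA.symm (-(c + ε)) m (Or.inr hm) x v
  refine ⟨θ, ?_⟩
  rw [he]
  apply mul_neg_of_pos_of_neg hr
  rw [← haa, ← hmm, ← hcc]
  have h1 : (-(c + ε)) ^ 2 * a + 2 * (-(c + ε)) * m * m + m ^ 2 * c =
      a * ε ^ 2 - δ * (c + 2 * ε) := by
    rw [hδ]
    ring
  rw [h1]
  have h2 : a * ε ^ 2 = ε * δ - ε ^ 2 := by
    rw [← hεa]
    ring
  rw [h2]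
  have h3 : 0 ≤ δ * c := mul_nonneg h.le hc
  have h4 : 0 < ε * δ := mul_pos hε0 h
  have h5 : 0 < ε ^ 2 := by positivity
  nlinarith

theorem RR_nonpos (hA : Nested A T) (x v : V d)
    (h : ∀ θ : ℝ, 0 ≤ Q A s (Real.cos θ • x + Real.sin θ • v) (Real.cos θ • x + Real.sin θ • v)) :
    RR A s x v ≤ 0 := by
  by_contra hcon
  rw [not_le] at hcon
  obtain ⟨θ, hθ⟩ := RR_neg_pt hA x v hcon
  exact absurd (h θ) (not_le.2 hθ)

/-- if `RR ≤ 0` then `Q ≥ 0` on the whole circle -/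
theorem Q_nonneg_of_RR (hA : Nested A T) (hs : s ∈ Set.Ioo 0 T) (x v : V d) (hxx : x ⬝ᵥ x = 1)
    (hxv : x ⬝ᵥ v = 0) (hvv : v ⬝ᵥ v = 1) (h : RR A s x v ≤ 0) (θ : ℝ) :
    0 ≤ Q A s (Real.cos θ • x + Real.sin θ • v) (Real.cos θ • x + Real.sin θ • v) := by
  by_contra hcon
  rw [not_le] at hcon
  have hyy := rf_dot (Real.cos θ) (Real.sin θ) (Real.cos θ) (Real.sin θ) x v hxx hxv hvv
  have hyz := rf_dot (Real.cos θ) (Real.sin θ) (-Real.sin θ) (Real.cos θ) x v hxx hxv hvv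
  have hzz := rf_dot (-Real.sin θ) (Real.cos θ) (-Real.sin θ) (Real.cos θ) x v hxx hxv hvv
  have hsc := Real.sin_sq_add_cos_sq θ
  rw [show Real.cos θ * Real.cos θ + Real.sin θ * Real.sin θ = 1 by nlinarith] at hyy
  rw [show Real.cos θ * -Real.sin θ + Real.sin θ * Real.cos θ = 0 by ring] at hyz
  rw [show -Real.sin θ * -Real.sin θ + Real.cos θ * Real.cos θ = 1 by nlinarith] at hzz
  have h2 := RR_pos hA hs _ _ hyy hyz hzz hcon
  rw [rf_rot hA.symm] at h2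
  exact absurd h (not_le.2 h2)

theorem RR_neg_left (A : Path d) (s : ℝ) (x v : V d) : RR A s (-x) v = RR A s x v := by
  unfold RR
  rw [Q_neg, Q_neg, Q_neg_right]
  ring

theorem RR_smul (A : Path d) (s c : ℝ) (x v : V d) : RR A s (c • x) v = c ^ 2 * RR A s x v := by
  unfold RR
  rw [Q_smul, Q_smul, Q_smul_right]
  ring

theorem RR_smul_right (A : Path d) (s c : ℝ) (x v : V d) : RR A s x (c • v) = c ^ 2 * RR A s x v := by
  unfold RR
  rw [Q_smul, Q_smul_right, Q_smul_right]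
  ring

theorem RR_shear (hA : ∀ s i j, A s i j = A s j i) (s c : ℝ) (x v : V d) :
    RR A s x (v + c • x) = RR A s x v := by
  unfold RR
  rw [Q_add, Q_smul, Q_add_right, Q_add_right, Q_smul_right, Q_smul_right, Q_comm hA s v x]
  ring

private theorem rf_gram (hA : Nested A T) (hs : s ∈ Set.Ioo 0 T) (a b : ℝ) (x v : V d)
    (hz0 : (a • x + b • v) 0 = 0) (hz : a • x + b • v ≠ 0) :
    0 < a ^ 2 * Q A s x x + 2 * a * b * Q A s x v + b ^ 2 * Q A s v v := by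
  have h := hA.pos s hs _ hz hz0
  rwa [rf_comb hA.symm] at h

theorem RR_lt_zero (hA : Nested A T) (hs : s ∈ Set.Ioo 0 T) (x v : V d) (hxx : x ⬝ᵥ x = 1) (hxv : x ⬝ᵥ v = 0)
    (hv : v ≠ 0) (hx0 : x 0 = 0) (hv0 : v 0 = 0) : RR A s x v < 0 := by
  have ha : 0 < Q A s x x := hA.pos s hs x (rf_ne hxx) hx0
  have h1 := rf_gram hA hs (-(Q A s x v)) (Q A s x x) x v
    (by simp only [Pi.add_apply, Pi.smul_apply, smul_eq_mul, hx0, hv0]; ring) (by
      intro h0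
      have h2 : v ⬝ᵥ (-(Q A s x v) • x + Q A s x x • v) = Q A s x x * (v ⬝ᵥ v) := by
        rw [dotProduct_add, dotProduct_smul, dotProduct_smul, dotProduct_comm v x, hxv]
        simp
      rw [h0, dotProduct_zero] at h2
      have h3 : v ⬝ᵥ v ≠ 0 := fun h => hv (dotProduct_self_eq_zero.1 h)
      exact mul_ne_zero ha.ne' h3 h2.symm)
  unfold RR
  have h2 : (-(Q A s x v)) ^ 2 * Q A s x x + 2 * -(Q A s x v) * Q A s x x * Q A s x v +
      Q A s x x ^ 2 * Q A s v v = Q A s x x * (Q A s x x * Q A s v v - Q A s x v ^ 2) := by ring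
  rw [h2] at h1
  have h3 := (mul_pos_iff_of_pos_left ha).1 h1
  linarith

theorem vv_pos (hA : Nested A T) (hs : s ∈ Set.Ioo 0 T) (x v : V d) (hxx : x ⬝ᵥ x = 1) (hxv : x ⬝ᵥ v = 0)
    (hvv : v ⬝ᵥ v = 1) (hx0 : x 0 ≠ 0) (h1 : Q A s x x = 0) (h2 : Q A s x v = 0) : 0 < Q A s v v := by
  have h3 := rf_gram hA hs (v 0) (-x 0) x v
    (by simp only [Pi.add_apply, Pi.smul_apply, smul_eq_mul]; ring) (by
      intro h0
      have hdot := rf_dot (v 0) (-x 0) (v 0) (-x 0) x v hxx hxv hvv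
      rw [h0, zero_dotProduct] at hdot
      apply hx0
      nlinarith [sq_nonneg (v 0), sq_nonneg (x 0)])
  rw [h1, h2] at h3
  have h4 : 0 < (x 0) ^ 2 * Q A s v v := by linarith
  exact (mul_pos_iff_of_pos_left (by positivity)).1 h4

end Pool.Agent.Work.MP_659252_gt.Y
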