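import Pool.Agent.Work.MP_659252_gt.Y.HTwo
import Pool.Agent.Work.MP_659252_gt.Y.RFact

/-!
# A linear function which vanishes on good directions vanishes.  Size: M.  (Similar to `Z/HLin.lean`.)

PROOF.  Let `n` be the vector of `third_vec`: `n ≠ 0`, `x ⬝ n = 0`, `n 0 = 0`, `(R n) 0 = 0`.  `RR A s x n < 0` and `RR A s (R x) (R n) < 0` (`RR_lt_zero`; `R x ⬝ R x = 1`,
`R x ⬝ R n = 0` and `R n ≠ 0` because `R` is orthogonal).
Let `x ⬝ w = 0`.  For small `e > 0` also `RR A s x (n + e w) < 0` and `RR A s (R x) (R (n + e w)) < 0` (polynomials in `e`), and `n + e w ≠ 0`.  With `r = √((n + e w)⬝(n + e w))`,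
`v = r⁻¹ (n + e w)` is a unit vector orthogonal to `x`, and `RR` is multiplied by `r⁻²` (`RR_smul_right`): so `l ⬝ v = 0`, `l ⬝ (n + e w) = 0`; the same for `e = 0`: `l ⬝ n = 0`.
Hence `l ⬝ w = 0`.
-/

namespace Pool.Agent.Work.MP_659252_gt.Y

open Pool.Agent.Work.MP_659252_gt.Z (V)

variable {d : ℕ} {A : Path d} {T s : ℝ}

private theorem hone_RR_zero (A : Path d) (s : ℝ) (y : V d) : RR A s y 0 = 0 := by
  have h := RR_smul_right A s 0 y 0
  rw [smul_zero] at h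
  rw [h]
  ring

private theorem hone_cont (A : Path d) (s : ℝ) (y u w : V d) :
    Continuous (fun e : ℝ => RR A s y (u + e • w)) := by
  unfold RR Q
  simp only [Pi.add_apply, Pi.smul_apply, smul_eq_mul]
  fun_prop

private theorem hone_pos (n : V d) (hn : n ≠ 0) : 0 < n ⬝ᵥ n := by
  have h3 : 0 ≤ n ⬝ᵥ n := Finset.sum_nonneg fun i _ => mul_self_nonneg (n i)
  rcases h3.eq_or_lt with h4 | h4
  · exact absurd (dotProduct_self_eq_zero.1 h4.symm) hn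
  · exact h4

private theorem hone_orth (R : Matrix (Fin (d + 1)) (Fin (d + 1)) ℝ)
    (hR : R ∈ Matrix.orthogonalGroup (Fin (d + 1)) ℝ) (y z : V d) :
    R.mulVec y ⬝ᵥ R.mulVec z = y ⬝ᵥ z := by
  have h1 : R.transpose * R = 1 := by
    have h2 := (Matrix.mem_orthogonalGroup_iff' (Fin (d + 1)) ℝ).1 hR
    exact h2
  rw [Matrix.dotProduct_mulVec, ← Matrix.mulVec_transpose, Matrix.mulVec_mulVec, h1,
    Matrix.one_mulVec]

private theorem hone_scale (R : Matrix (Fin (d + 1)) (Fin (d + 1)) ℝ) (x l : V d)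
    (h : ∀ v, x ⬝ᵥ v = 0 → v ⬝ᵥ v = 1 → RR A s x v ≤ 0 →
        RR A s (R.mulVec x) (R.mulVec v) ≤ 0 → l ⬝ᵥ v = 0)
    (u : V d) (hu : x ⬝ᵥ u = 0) (h1 : RR A s x u < 0)
    (h2 : RR A s (R.mulVec x) (R.mulVec u) < 0) : l ⬝ᵥ u = 0 := by
  have hu0 : u ≠ 0 := by
    rintro rfl
    rw [hone_RR_zero] at h1
    exact lt_irrefl _ h1
  have hpos : 0 < u ⬝ᵥ u := hone_pos u hu0
  have hs : 0 < Real.sqrt (u ⬝ᵥ u) := Real.sqrt_pos.2 hpos
  have hss : Real.sqrt (u ⬝ᵥ u) ^ 2 = u ⬝ᵥ u := Real.sq_sqrt hpos.le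
  have hc : (1 / Real.sqrt (u ⬝ᵥ u)) ≠ 0 := by positivity
  have key := h ((1 / Real.sqrt (u ⬝ᵥ u)) • u) (by rw [dotProduct_smul, hu, smul_zero])
    (by
      rw [dotProduct_smul, smul_dotProduct, smul_eq_mul, smul_eq_mul]
      field_simp
      exact hss.symm)
    (by
      rw [RR_smul_right]
      exact mul_nonpos_of_nonneg_of_nonpos (sq_nonneg _) h1.le)
    (by
      rw [Matrix.mulVec_smul, RR_smul_right]
      exact mul_nonpos_of_nonneg_of_nonpos (sq_nonneg _) h2.le)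
  rw [dotProduct_smul, smul_eq_mul] at key
  exact (mul_eq_zero.1 key).resolve_left hc

theorem lin_zero (hd : 3 ≤ d) (hA : Nested A T) (hs : s ∈ Set.Ioo 0 T)
    (R : Matrix (Fin (d + 1)) (Fin (d + 1)) ℝ) (hR : R ∈ Matrix.orthogonalGroup (Fin (d + 1)) ℝ)
    (x : V d) (hxx : x ⬝ᵥ x = 1) (hx0 : x 0 = 0) (hRx : (R.mulVec x) 0 = 0) (l : V d)
    (hl : ∀ v, x ⬝ᵥ v = 0 → v ⬝ᵥ v = 1 → RR A s x v ≤ 0 → RR A s (R.mulVec x) (R.mulVec v) ≤ 0 → l ⬝ᵥ v = 0) :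
    ∀ w, x ⬝ᵥ w = 0 → l ⬝ᵥ w = 0 := by
  obtain ⟨n, hn, hxn, hn0, hRn⟩ := third_vec hd R x
  intro w hw
  have hRn' : R.mulVec n ≠ 0 := by
    intro h0
    have h1 := hone_orth R hR n n
    rw [h0, zero_dotProduct] at h1
    exact (hone_pos n hn).ne h1
  have hR1 : RR A s x n < 0 := RR_lt_zero hA hs x n hxx hxn hn hx0 hn0
  have hR2 : RR A s (R.mulVec x) (R.mulVec n) < 0 :=
    RR_lt_zero hA hs _ _ (by rw [hone_orth R hR, hxx]) (by rw [hone_orth R hR, hxn]) hRn' hRx hRn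
  have c1 := (hone_cont A s x n w).continuousAt (x := 0)
  have c2 := (hone_cont A s (R.mulVec x) (R.mulVec n) (R.mulVec w)).continuousAt (x := 0)
  have e1 : ∀ᶠ e in nhds (0 : ℝ), RR A s x (n + e • w) < 0 :=
    c1.eventually (gt_mem_nhds (by simpa using hR1))
  have e2 : ∀ᶠ e in nhds (0 : ℝ),
      RR A s (R.mulVec x) (R.mulVec n + e • R.mulVec w) < 0 :=
    c2.eventually (gt_mem_nhds (by simpa using hR2))
  have e3 : ∀ᶠ e in nhdsWithin (0 : ℝ) (Set.Ioi 0), (RR A s x (n + e • w) < 0 ∧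
      RR A s (R.mulVec x) (R.mulVec n + e • R.mulVec w) < 0) ∧ 0 < e :=
    ((e1.and e2).filter_mono nhdsWithin_le_nhds).and self_mem_nhdsWithin
  obtain ⟨e, ⟨he1, he2⟩, he0⟩ := e3.exists
  have k1 := hone_scale R x l hl n hxn hR1 hR2
  have k2 := hone_scale R x l hl (n + e • w)
    (by rw [dotProduct_add, dotProduct_smul, hxn, hw, smul_zero, add_zero]) he1
    (by rw [Matrix.mulVec_add, Matrix.mulVec_smul]; exact he2)
  rw [dotProduct_add, dotProduct_smul, k1, zero_add, smul_eq_mul] at k2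
  exact (mul_eq_zero.1 k2).resolve_left he0.ne'

end Pool.Agent.Work.MP_659252_gt.Y
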