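import Pool.Agent.Work.MP_659252_gt.Y.RFact

/-!
# Two indefinite quadratic forms with the same positive cone are proportional.  Size: M.  (Linear algebra.)

Fix `s`, `x` and write `F(v) = RR P s x v`, `F'(v) = RR P' s x v`: quadratic forms in `v`; `F(v + t u) = F(v) + 2 t Φ(v, u) + t² F(u)` with
`Φ(v, u) = Q(x,v) Q(x,u) - Q(x,x) Q(v,u)` bilinear (expand with `Q_add`, `Q_smul`, `Q_comm`), same for `F'`, `Φ'`.
PROOF.  `F(u) > 0`, so `F'(u) > 0`; `c = F'(u)/F(u) > 0`.
(1) Let `F(w) < 0`.  `g(t) = F(w + t u)` is a quadratic polynomial with leading coefficient `F(u) > 0` and `g(0) < 0`: it has two roots `r₁ < 0 < r₂` and `g > 0` exactly outside of `[r₁, r₂]`.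
`g'(t) := F'(w + t u)` is a quadratic polynomial with leading coefficient `F'(u) > 0` which is positive exactly where `g` is: so it is `≤ 0` at `r₁`, `r₂` and by continuity `≥ 0` there: `r₁`, `r₂` are
its roots, `g' = c g`.  At `t = 0`: `F'(w) = c F(w)`.
(2) Let `G = F' - c F`, a quadratic form vanishing on the open set `{F < 0}`.  For any `z` and `n` with `F(n) < 0`: `F(n + e z) < 0` for all small `e`, so `G(n + e z) = G(n) + 2 e Γ(n, z) + e² G(z) = 0`
for all small `e`: all coefficients vanish, `G(z) = 0`.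
(For (1) without roots: for every `t`, `0 < g(t) ↔ 0 < g'(t)`; use the explicit roots `(-β ± √(β² - a γ))/a`.)
-/

namespace Pool.Agent.Work.MP_659252_gt.Y

open Pool.Agent.Work.MP_659252_gt.Z (V)

variable {d : ℕ} {P P' : Path d}

/-- two quadratic polynomials with positive leading coefficients which are positive at the same
points, the first being negative at `0` -/
private theorem quad_prop {a b c a' b' c' : ℝ} (ha : 0 < a) (hc : c < 0)
    (h : ∀ t : ℝ, 0 < c + 2 * t * b + t ^ 2 * a ↔ 0 < c' + 2 * t * b' + t ^ 2 * a') :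
    a * c' = a' * c := by
  have hD : 0 < b ^ 2 - a * c := by nlinarith [sq_nonneg b, mul_neg_of_pos_of_neg ha hc]
  set q := Real.sqrt (b ^ 2 - a * c) with hq
  have hq2 : q ^ 2 = b ^ 2 - a * c := Real.sq_sqrt hD.le
  have hq0 : 0 < q := Real.sqrt_pos.2 hD
  -- the factorisation of the first polynomial
  have hfac : ∀ t : ℝ, a * (c + 2 * t * b + t ^ 2 * a) = (a * t + b - q) * (a * t + b + q) := by
    intro t
    have : (a * t + b - q) * (a * t + b + q) = (a * t + b) ^ 2 - q ^ 2 := by ring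
    rw [this, hq2]
    ring
  have hcont : Continuous fun t : ℝ => c' + 2 * t * b' + t ^ 2 * a' := by fun_prop
  have hr : ∀ t : ℝ, (a * t + b - q) * (a * t + b + q) = 0 →
      ¬ 0 < c' + 2 * t * b' + t ^ 2 * a' := by
    intro t ht h2
    have h3 := (h t).2 h2
    have h4 := mul_pos ha h3
    rw [hfac, ht] at h4
    exact lt_irrefl _ h4
  have e1 : a * ((-b + q) / a) = -b + q := by field_simp
  have e2 : a * ((-b - q) / a) = -b - q := by field_simp
  -- the upper root
  have h1 : c' + 2 * ((-b + q) / a) * b' + ((-b + q) / a) ^ 2 * a' = 0 := by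
    refine le_antisymm (not_lt.1 (hr _ (by rw [e1]; ring))) ?_
    have hsub : Set.Ioi ((-b + q) / a) ⊆
        (fun t : ℝ => c' + 2 * t * b' + t ^ 2 * a') ⁻¹' Set.Ici 0 := by
      intro t ht
      have h2 : -b + q < a * t := by
        have := mul_lt_mul_of_pos_left (Set.mem_Ioi.1 ht) ha
        rwa [e1] at this
      have h3 : 0 < c + 2 * t * b + t ^ 2 * a := by
        have h4 : 0 < a * (c + 2 * t * b + t ^ 2 * a) := by
          rw [hfac]
          exact mul_pos (by linarith) (by linarith)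
        exact (mul_pos_iff_of_pos_left ha).1 h4
      exact ((h t).1 h3).le
    have h5 := closure_minimal hsub (isClosed_Ici.preimage hcont)
    rw [closure_Ioi] at h5
    exact h5 (Set.self_mem_Ici)
  have h2 : c' + 2 * ((-b - q) / a) * b' + ((-b - q) / a) ^ 2 * a' = 0 := by
    refine le_antisymm (not_lt.1 (hr _ (by rw [e2]; ring))) ?_
    have hsub : Set.Iio ((-b - q) / a) ⊆
        (fun t : ℝ => c' + 2 * t * b' + t ^ 2 * a') ⁻¹' Set.Ici 0 := by
      intro t ht
      have h2 : a * t < -b - q := by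
        have := mul_lt_mul_of_pos_left (Set.mem_Iio.1 ht) ha
        rwa [e2] at this
      have h3 : 0 < c + 2 * t * b + t ^ 2 * a := by
        have h4 : 0 < a * (c + 2 * t * b + t ^ 2 * a) := by
          rw [hfac]
          exact mul_pos_of_neg_of_neg (by linarith) (by linarith)
        exact (mul_pos_iff_of_pos_left ha).1 h4
      exact ((h t).1 h3).le
    have h5 := closure_minimal hsub (isClosed_Ici.preimage hcont)
    rw [closure_Iio] at h5
    exact h5 (Set.self_mem_Iic)
  -- elimination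
  have h3 : a ^ 2 * c' + 2 * (a * (-b + q)) * b' + (-b + q) ^ 2 * a' = 0 := by
    have : a ^ 2 * (c' + 2 * ((-b + q) / a) * b' + ((-b + q) / a) ^ 2 * a') =
        a ^ 2 * c' + 2 * (a * (-b + q)) * b' + (-b + q) ^ 2 * a' := by
      field_simp
    rw [← this, h1, mul_zero]
  have h4 : a ^ 2 * c' + 2 * (a * (-b - q)) * b' + (-b - q) ^ 2 * a' = 0 := by
    have : a ^ 2 * (c' + 2 * ((-b - q) / a) * b' + ((-b - q) / a) ^ 2 * a') =
        a ^ 2 * c' + 2 * (a * (-b - q)) * b' + (-b - q) ^ 2 * a' := by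
      field_simp
    rw [← this, h2, mul_zero]
  have h5 : q * (a * b' - b * a') = 0 := by linarith
  have h6 : a * b' = b * a' := by
    rcases mul_eq_zero.1 h5 with h | h
    · exact absurd h hq0.ne'
    · linarith
  have h7 : a * (a * c' - a' * c) = 0 := by
    have h8 : a ^ 2 * c' + 2 * (-b + q) * (b * a') + (-b + q) ^ 2 * a' = 0 := by
      rw [← h6]
      linarith
    have h9 : a ^ 2 * c' + (q ^ 2 - b ^ 2) * a' = 0 := by linarith
    rw [hq2] at h9
    linarith
  rcases mul_eq_zero.1 h7 with h | h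
  · exact absurd h ha.ne'
  · linarith

/-- the abstract statement -/
private theorem forms_aux {E : Type*} [AddCommGroup E] [Module ℝ E] {F F' : E → ℝ}
    {Φ Φ' : E → E → ℝ} (hF : ∀ v u t, F (v + t • u) = F v + 2 * t * Φ v u + t ^ 2 * F u)
    (hF' : ∀ v u t, F' (v + t • u) = F' v + 2 * t * Φ' v u + t ^ 2 * F' u) {u n : E}
    (hu : 0 < F u) (hn : F n < 0) (h : ∀ v, 0 < F v ↔ 0 < F' v) :
    ∃ c : ℝ, ∀ v, F' v = c * F v := by
  have key : ∀ w, F w < 0 → F' w = F' u / F u * F w := by
    intro w hw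
    have h1 := quad_prop (a := F u) (b := Φ w u) (c := F w) (a' := F' u) (b' := Φ' w u)
      (c' := F' w) hu hw (fun t => by rw [← hF, ← hF']; exact h _)
    rw [div_mul_eq_mul_div, eq_div_iff hu.ne', mul_comm]
    exact h1
  refine ⟨F' u / F u, fun z => ?_⟩
  set c := F' u / F u with hc
  -- a small parameter
  set M := 2 * |Φ n z| + |F z| with hM
  have hM0 : 0 ≤ M := by positivity
  set δ := -F n with hδ
  have hδ0 : 0 < δ := by
    rw [hδ]
    linarith
  have hMδ : 0 < M + δ := by linarith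
  set e := δ / (M + δ) with he
  have he0 : 0 < e := div_pos hδ0 hMδ
  have he1 : e ≤ 1 := by
    rw [he, div_le_one hMδ]
    linarith
  have heM : e * M < δ := by
    rw [he, div_mul_eq_mul_div, div_lt_iff₀ hMδ]
    nlinarith
  have hee : e ^ 2 ≤ e := by nlinarith
  have hΦ1 : Φ n z ≤ |Φ n z| := le_abs_self _
  have hΦ2 : -|Φ n z| ≤ Φ n z := neg_abs_le _
  have hz1 : F z ≤ |F z| := le_abs_self _
  have h0 : 0 ≤ |Φ n z| := abs_nonneg _
  have h0' : 0 ≤ |F z| := abs_nonneg _
  have hb : e ^ 2 * F z ≤ e * |F z| := by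
    calc e ^ 2 * F z ≤ e ^ 2 * |F z| := mul_le_mul_of_nonneg_left hz1 (sq_nonneg e)
      _ ≤ e * |F z| := mul_le_mul_of_nonneg_right hee h0'
  have hA : e * Φ n z ≤ e * |Φ n z| := mul_le_mul_of_nonneg_left hΦ1 he0.le
  have hB : e * (-|Φ n z|) ≤ e * Φ n z := mul_le_mul_of_nonneg_left hΦ2 he0.le
  have hsum : e * M = 2 * (e * |Φ n z|) + e * |F z| := by
    rw [hM]
    ring
  have hp : F (n + e • z) < 0 := by
    rw [hF]
    have : 2 * e * Φ n z = 2 * (e * Φ n z) := by ring
    rw [this]
    linarith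
  have hm : F (n + (-e) • z) < 0 := by
    rw [hF]
    have h1 : 2 * (-e) * Φ n z = -2 * (e * Φ n z) := by ring
    have h2 : (-e) ^ 2 * F z = e ^ 2 * F z := by ring
    rw [h1, h2]
    linarith
  have k0 := key n hn
  have k1 := key _ hp
  have k2 := key _ hm
  rw [hF, hF'] at k1 k2
  have hfin : e ^ 2 * (F' z - c * F z) = 0 := by
    have k3 : (-e) ^ 2 = e ^ 2 := neg_sq e
    rw [k3] at k2
    linear_combination (k1 + k2) / 2 - k0
  rcases mul_eq_zero.1 hfin with h | h
  · exact absurd h (pow_pos he0 2).ne'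
  · linarith

private theorem RR_expand {P : Path d} (hP : ∀ s i j, P s i j = P s j i) (s : ℝ) (x v u : V d)
    (t : ℝ) : RR P s x (v + t • u) =
      RR P s x v + 2 * t * (Q P s x v * Q P s x u - Q P s x x * Q P s v u) +
        t ^ 2 * RR P s x u := by
  unfold RR
  simp only [Q_add_right, Q_add, Q_smul, Q_smul_right]
  rw [Q_comm hP s u v]
  ring

theorem prop_forms (hP : ∀ s i j, P s i j = P s j i) (hP' : ∀ s i j, P' s i j = P' s j i) (s : ℝ) (x u n : V d)
    (hu : 0 < RR P s x u) (hn : RR P s x n < 0) (h : ∀ v, 0 < RR P s x v ↔ 0 < RR P' s x v) :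
    ∃ c : ℝ, ∀ v, RR P' s x v = c * RR P s x v :=
  forms_aux (F := fun v => RR P s x v) (F' := fun v => RR P' s x v)
    (fun v u t => RR_expand hP s x v u t) (fun v u t => RR_expand hP' s x v u t) hu hn h

end Pool.Agent.Work.MP_659252_gt.Y
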