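import Pool.Agent.Work.MP_659252_gt.Y.Bas

/-!
# The trace argument.  Size: S-M.

`conj A R` is the path of the matrices `Rᵀ A_s R`.
PROOF.  `Q_conj`: expand the sums.   `conj_symm`: `∑_kl R_ki A_kl R_lj`, exchange `k` and `l`.
`commute`: let `P = Matrix.of (A s)`.  The hypothesis with basis vectors `v = e_i`, `w = e_j` says `Rᵀ P R = a P`.  As `R Rᵀ = 1`:
`trace ((Rᵀ P R) (Rᵀ P R)) = trace (Rᵀ P P R) = trace (P P)`, so `a² trace (P P) = trace (P P)`, and `trace (P P) = ∑_ij (A s i j)² > 0` (symmetry, `hy`: some entry is not `0`).  So `a² = 1`,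
`a = 1`, `Rᵀ P R = P`, and multiplying by `R` from the left `P R = R P`.
-/

namespace Pool.Agent.Work.MP_659252_gt.Y

open Pool.Agent.Work.MP_659252_gt.Z (V)

variable {d : ℕ} {A : Path d}

/-- the path `Rᵀ A_s R` -/
def conj (A : Path d) (R : Matrix (Fin (d + 1)) (Fin (d + 1)) ℝ) : Path d := fun s i j =>
  ∑ k, ∑ l, R k i * A s k l * R l j

private theorem Q_eq (A : Path d) (s : ℝ) (x y : V d) :
    Q A s x y = x ⬝ᵥ (Matrix.of (A s)).mulVec y := by
  unfold Q
  simp only [dotProduct, Matrix.mulVec, Matrix.of_apply, Finset.mul_sum]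
  refine Finset.sum_congr rfl fun i _ => Finset.sum_congr rfl fun j _ => ?_
  ring

private theorem conj_eq (A : Path d) (R : Matrix (Fin (d + 1)) (Fin (d + 1)) ℝ) (s : ℝ) :
    Matrix.of (conj A R s) = R.transpose * Matrix.of (A s) * R := by
  ext i j
  rw [Matrix.of_apply, Matrix.mul_apply]
  simp only [Matrix.mul_apply, Matrix.transpose_apply, Matrix.of_apply, Finset.sum_mul]
  unfold conj
  exact Finset.sum_comm

theorem Q_conj (A : Path d) (R : Matrix (Fin (d + 1)) (Fin (d + 1)) ℝ) (s : ℝ) (x y : V d) :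
    Q (conj A R) s x y = Q A s (R.mulVec x) (R.mulVec y) := by
  rw [Q_eq, Q_eq, conj_eq, Matrix.mul_assoc, ← Matrix.mulVec_mulVec, ← Matrix.mulVec_mulVec,
    Matrix.dotProduct_mulVec, Matrix.vecMul_transpose]

theorem conj_symm (hA : ∀ s i j, A s i j = A s j i) (R : Matrix (Fin (d + 1)) (Fin (d + 1)) ℝ) (s : ℝ)
    (i j : Fin (d + 1)) : conj A R s i j = conj A R s j i := by
  unfold conj
  rw [Finset.sum_comm]
  refine Finset.sum_congr rfl fun k _ => Finset.sum_congr rfl fun l _ => ?_
  rw [hA s l k]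
  ring

theorem commute (hA : ∀ s i j, A s i j = A s j i) (R : Matrix (Fin (d + 1)) (Fin (d + 1)) ℝ)
    (hR : R ∈ Matrix.orthogonalGroup (Fin (d + 1)) ℝ) (s a : ℝ) (ha : 0 < a)
    (h : ∀ v w : V d, Q A s (R.mulVec v) (R.mulVec w) = a * Q A s v w) (y : V d) (hy : Q A s y y < 0) :
    R * Matrix.of (A s) = Matrix.of (A s) * R := by
  set P : Matrix (Fin (d + 1)) (Fin (d + 1)) ℝ := Matrix.of (A s) with hP
  have hRR : R * R.transpose = 1 := (Matrix.mem_orthogonalGroup_iff _ _).1 hR
  have h1 : R.transpose * P * R = a • P := by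
    ext i j
    have h2 := h (Pi.single i 1) (Pi.single j 1)
    rw [← Q_conj, Q_eq, Q_eq, conj_eq, ← hP] at h2
    rw [Matrix.mulVec_single_one, Matrix.mulVec_single_one, single_one_dotProduct,
      single_one_dotProduct] at h2
    simpa using h2
  have h3 : (P * P).trace = a ^ 2 * (P * P).trace := by
    have e1 : (R.transpose * P * R) * (R.transpose * P * R) = R.transpose * (P * P) * R := by
      calc (R.transpose * P * R) * (R.transpose * P * R)
          = R.transpose * P * (R * R.transpose) * P * R := by simp only [Matrix.mul_assoc]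
        _ = _ := by rw [hRR]; simp only [Matrix.mul_assoc, Matrix.one_mul]
    have e2 : (R.transpose * (P * P) * R).trace = (P * P).trace := by
      rw [Matrix.trace_mul_cycle, hRR, Matrix.one_mul]
    have e3 : ((a • P) * (a • P)).trace = a ^ 2 * (P * P).trace := by
      rw [Matrix.smul_mul, Matrix.mul_smul, smul_smul, Matrix.trace_smul, smul_eq_mul]
      ring
    calc (P * P).trace = ((a • P) * (a • P)).trace := by rw [← h1, e1, e2]
      _ = _ := e3
  have h4 : 0 < (P * P).trace := by
    have e : (P * P).trace = ∑ i, ∑ j, (A s i j) ^ 2 := by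
      rw [Matrix.trace]
      refine Finset.sum_congr rfl fun i _ => ?_
      rw [Matrix.diag_apply, Matrix.mul_apply]
      refine Finset.sum_congr rfl fun j _ => ?_
      rw [hP, Matrix.of_apply, Matrix.of_apply, hA s j i]
      ring
    rw [e]
    by_contra hn
    have hz : ∑ i, ∑ j, (A s i j) ^ 2 = 0 :=
      le_antisymm (not_lt.1 hn) (Finset.sum_nonneg fun i _ => Finset.sum_nonneg fun j _ => sq_nonneg _)
    have hz2 : ∀ i j, A s i j = 0 := by
      intro i j
      have e1 := (Finset.sum_eq_zero_iff_of_nonneg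
        (fun i _ => Finset.sum_nonneg fun j _ => sq_nonneg (A s i j))).1 hz i (Finset.mem_univ i)
      have e2 := (Finset.sum_eq_zero_iff_of_nonneg (fun j _ => sq_nonneg (A s i j))).1 e1 j
        (Finset.mem_univ j)
      exact pow_eq_zero_iff (two_ne_zero) |>.1 e2
    have : Q A s y y = 0 := by
      unfold Q
      refine Finset.sum_eq_zero fun i _ => Finset.sum_eq_zero fun j _ => ?_
      rw [hz2, zero_mul]
    rw [this] at hy
    exact lt_irrefl _ hy
  have h5 : a ^ 2 = 1 := by
    have : (a ^ 2 - 1) * (P * P).trace = 0 := by linarith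
    rcases mul_eq_zero.1 this with h6 | h6
    · linarith
    · exact absurd h6 h4.ne'
  have h6 : a = 1 := by nlinarith
  rw [h6, one_smul] at h1
  calc R * P = R * (R.transpose * P * R) := by rw [h1]
    _ = (R * R.transpose) * P * R := by simp only [Matrix.mul_assoc]
    _ = P * R := by rw [hRR, Matrix.one_mul]

end Pool.Agent.Work.MP_659252_gt.Y
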