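import Pool.Agent.Work.MP_659252_gt.Y.HNe
import Pool.Agent.Work.MP_659252_gt.Y.HOne
import Pool.Agent.Work.MP_659252_gt.Y.HProp
import Pool.Agent.Work.MP_659252_gt.Y.HAlg
import Pool.Agent.Work.MP_659252_gt.Y.HTr
import Pool.Agent.Work.MP_659252_gt.Z.HLie

/-!
# Assembly, second part: the symmetries of the class of `conf A T B` commute with `A_m`
-/

namespace Pool.Agent.Work.MP_659252_gt.Y

open scoped ContDiff
open Pool.Agent.Work.MP_659252_gt.Z (V Ten val Tan IsTrivial IsInvariant half half_diff)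

variable {d : ℕ} {A : Path d} {T : ℝ} {B : ℝ → ℝ} {m hi : ℝ}

private theorem orth_preserve (R : Matrix (Fin (d + 1)) (Fin (d + 1)) ℝ)
    (hR : R ∈ Matrix.orthogonalGroup (Fin (d + 1)) ℝ) (x y : V d) : R.mulVec x ⬝ᵥ R.mulVec y = x ⬝ᵥ y := by
  rw [Matrix.dotProduct_mulVec, Matrix.vecMul_mulVec]
  have h := (Matrix.mem_orthogonalGroup_iff' (Fin (d + 1)) ℝ).mp hR
  rw [h, Matrix.vecMul_one]

private theorem unit_ne {x : V d} (h : x ⬝ᵥ x = 1) : x ≠ 0 := by
  rintro rfl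
  simp at h

/-- For a unit vector `x` with `x_0 = (R x)_0 = 0` the positive directions of `RR (x, ·)` and `RR (R x, R ·)` agree. -/
private theorem same_cone (hd : 3 ≤ d) (D : Dat A T B m hi) (hB0 : ∀ s, 0 ≤ B s)
    (hBlo : ∀ s, m < s → ∃ u, m < u ∧ u < s ∧ B u ≠ 0)
    (R : Matrix (Fin (d + 1)) (Fin (d + 1)) ℝ) (hR : R ∈ Matrix.orthogonalGroup (Fin (d + 1)) ℝ)
    (h₀ k : Ten d) (h₀t : IsTrivial h₀) (hk : IsInvariant R k)
    (hdec : ∀ x v w, Tan x v → Tan x w → val (conf A T B) x v w = val h₀ x v w + val k x v w)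
    (x : V d) (hxx : x ⬝ᵥ x = 1) (hx0 : x 0 = 0) (hRx : (R.mulVec x) 0 = 0) (v : V d) :
    0 < RR A m x v ↔ 0 < RR A m (R.mulVec x) (R.mulVec v) := by
  have hRxx : R.mulVec x ⬝ᵥ R.mulVec x = 1 := by rw [orth_preserve R hR]; exact hxx
  have hQ : 0 < Q A m x x := D.nested.pos m D.lo_mem x (unit_ne hxx) hx0
  have hQR : 0 < Q A m (R.mulVec x) (R.mulVec x) := D.nested.pos m D.lo_mem _ (unit_ne hRxx) hRx
  obtain ⟨l, hl⟩ := half_diff (conf A T B) h₀ k (conf_smooth D) h₀t hdec R hR hk x hxx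
  have hl0 : ∀ w, x ⬝ᵥ w = 0 → l ⬝ᵥ w = 0 := by
    refine lin_zero hd D.nested D.lo_mem R hR x hxx hx0 hRx l fun u hxu huu hu1 hu2 => ?_
    rw [← hl u hxu huu, half_zero D x u hxx hxu huu hu1,
      half_zero D _ _ hRxx (by rw [orth_preserve R hR]; exact hxu)
        (by rw [orth_preserve R hR]; exact huu) hu2, sub_zero]
  -- unit vectors orthogonal to `x`
  have key : ∀ u, x ⬝ᵥ u = 0 → u ⬝ᵥ u = 1 → (0 < RR A m x u ↔ 0 < RR A m (R.mulVec x) (R.mulVec u)) := by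
    intro u hxu huu
    have hRxu : R.mulVec x ⬝ᵥ R.mulVec u = 0 := by rw [orth_preserve R hR]; exact hxu
    have hRuu : R.mulVec u ⬝ᵥ R.mulVec u = 1 := by rw [orth_preserve R hR]; exact huu
    have h2 := hl u hxu huu
    rw [hl0 u hxu, sub_eq_zero] at h2
    constructor
    · intro h
      by_contra hcon
      rw [half_zero D _ _ hRxx hRxu hRuu (not_lt.mp hcon)] at h2
      exact half_ne D hB0 hBlo x u hxx hxu huu hQ h h2.symm
    · intro h
      by_contra hcon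
      rw [half_zero D x u hxx hxu huu (not_lt.mp hcon)] at h2
      exact half_ne D hB0 hBlo _ _ hRxx hRxu hRuu hQR h h2
  -- reduction of the general case
  set c := x ⬝ᵥ v with hc
  set w := v + (-c) • x with hw
  have e1 : RR A m x w = RR A m x v := RR_shear D.nested.symm m (-c) x v
  have e2 : RR A m (R.mulVec x) (R.mulVec w) = RR A m (R.mulVec x) (R.mulVec v) := by
    rw [hw, Matrix.mulVec_add, Matrix.mulVec_smul]
    exact RR_shear D.nested.symm m (-c) _ _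
  rw [← e1, ← e2]
  have hxw : x ⬝ᵥ w = 0 := by
    rw [hw, dotProduct_add, dotProduct_smul, hxx, ← hc, smul_eq_mul]
    ring
  by_cases hw0 : w ⬝ᵥ w = 0
  · have hwz : w = 0 := dotProduct_self_eq_zero.mp hw0
    rw [hwz, Matrix.mulVec_zero]
    have z1 : ∀ y : V d, RR A m y 0 = 0 := fun y => by
      have h := RR_smul_right A m 0 y 0
      rw [zero_smul] at h
      rw [h]
      ring
    rw [z1, z1]
  · have hwpos : 0 < w ⬝ᵥ w := lt_of_le_of_ne (by
      rw [dotProduct]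
      exact Finset.sum_nonneg fun i _ => mul_self_nonneg _) (Ne.symm hw0)
    set r := Real.sqrt (w ⬝ᵥ w) with hr
    have hr0 : 0 < r := Real.sqrt_pos.mpr hwpos
    have hrr : r * r = w ⬝ᵥ w := Real.mul_self_sqrt hwpos.le
    have hu1 : x ⬝ᵥ (r⁻¹ • w) = 0 := by rw [dotProduct_smul, hxw, smul_zero]
    have hu2 : (r⁻¹ • w) ⬝ᵥ (r⁻¹ • w) = 1 := by
      rw [smul_dotProduct, dotProduct_smul, ← hrr, smul_eq_mul, smul_eq_mul]
      field_simp
    have h := key (r⁻¹ • w) hu1 hu2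
    rw [Matrix.mulVec_smul, RR_smul_right, RR_smul_right] at h
    have hp : 0 < r⁻¹ ^ 2 := by positivity
    constructor
    · intro h3
      exact (mul_pos_iff_of_pos_left hp).mp (h.mp (mul_pos hp h3))
    · intro h3
      exact (mul_pos_iff_of_pos_left hp).mp (h.mpr (mul_pos hp h3))

theorem no_inv (hd : 3 ≤ d) (D : Dat A T B m hi) (hB0 : ∀ s, 0 ≤ B s)
    (hBlo : ∀ s, m < s → ∃ u, m < u ∧ u < s ∧ B u ≠ 0) (y : V d) (hy : Q A m y y < 0)
    (R : Matrix (Fin (d + 1)) (Fin (d + 1)) ℝ) (hR : R ∈ Matrix.orthogonalGroup (Fin (d + 1)) ℝ)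
    (h₀ k : Ten d) (h₀t : IsTrivial h₀) (hk : IsInvariant R k)
    (hdec : ∀ x v w, Tan x v → Tan x w → val (conf A T B) x v w = val h₀ x v w + val k x v w) :
    R * Matrix.of (A m) = Matrix.of (A m) * R := by
  have hs := D.nested.symm
  obtain ⟨f₁, f₂, h11, h22, h12, h10, h20, hR1, hR2⟩ := two_vec hd R
  -- facts on the plane of `f₁`, `f₂`
  have hnorm : ∀ a b : ℝ, (a • f₁ + b • f₂) ⬝ᵥ (a • f₁ + b • f₂) = a ^ 2 + b ^ 2 := by
    intro a b
    have h21 : f₂ ⬝ᵥ f₁ = 0 := by rw [dotProduct_comm]; exact h12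
    simp only [add_dotProduct, dotProduct_add, smul_dotProduct, dotProduct_smul, smul_eq_mul, h11, h12, h21, h22]
    ring
  have hsq : ∀ a b : ℝ, a ≠ 0 ∨ b ≠ 0 → 0 < a ^ 2 + b ^ 2 := by
    rintro a b (h | h)
    · have := sq_nonneg b
      positivity
    · have := sq_nonneg a
      positivity
  have hne : ∀ a b : ℝ, a ≠ 0 ∨ b ≠ 0 → a • f₁ + b • f₂ ≠ 0 := by
    intro a b hab h0
    have h := hnorm a b
    rw [h0, zero_dotProduct] at h
    exact (hsq a b hab).ne h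
  have hz : ∀ a b : ℝ, (a • f₁ + b • f₂) 0 = 0 := by
    intro a b
    simp only [Pi.add_apply, Pi.smul_apply, smul_eq_mul, h10, h20]
    ring
  have hRz : ∀ a b : ℝ, (R.mulVec (a • f₁ + b • f₂)) 0 = 0 := by
    intro a b
    rw [Matrix.mulVec_add, Matrix.mulVec_smul, Matrix.mulVec_smul]
    simp only [Pi.add_apply, Pi.smul_apply, smul_eq_mul, hR1, hR2]
    ring
  have hRne : ∀ a b : ℝ, a ≠ 0 ∨ b ≠ 0 → R.mulVec (a • f₁ + b • f₂) ≠ 0 := by
    intro a b hab h0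
    have h := orth_preserve R hR (a • f₁ + b • f₂) (a • f₁ + b • f₂)
    rw [h0, zero_dotProduct, hnorm] at h
    exact (hsq a b hab).ne h
  have hpos : ∀ a b : ℝ, a ≠ 0 ∨ b ≠ 0 → 0 < Q A m (a • f₁ + b • f₂) (a • f₁ + b • f₂) ∧
      0 < Q (conj A R) m (a • f₁ + b • f₂) (a • f₁ + b • f₂) := by
    intro a b hab
    refine ⟨D.nested.pos m D.lo_mem _ (hne a b hab) (hz a b), ?_⟩
    rw [Q_conj]
    exact D.nested.pos m D.lo_mem _ (hRne a b hab) (hRz a b)
  have hRRc : ∀ x v : V d, RR (conj A R) m x v = RR A m (R.mulVec x) (R.mulVec v) := by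
    intro x v
    unfold RR
    rw [Q_conj, Q_conj, Q_conj]
  have H : ∀ a b : ℝ, a ≠ 0 ∨ b ≠ 0 → ∃ c : ℝ, ∀ v,
      RR (conj A R) m (a • f₁ + b • f₂) v = c * RR A m (a • f₁ + b • f₂) v := by
    intro a b hab
    set r := Real.sqrt (a ^ 2 + b ^ 2) with hr
    have hr0 : 0 < r := Real.sqrt_pos.mpr (hsq a b hab)
    have hrr : r * r = a ^ 2 + b ^ 2 := Real.mul_self_sqrt (hsq a b hab).le
    set x := (r⁻¹ * a) • f₁ + (r⁻¹ * b) • f₂ with hx
    have hab' : r⁻¹ * a ≠ 0 ∨ r⁻¹ * b ≠ 0 := by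
      rcases hab with h | h
      · exact Or.inl (mul_ne_zero (inv_ne_zero hr0.ne') h)
      · exact Or.inr (mul_ne_zero (inv_ne_zero hr0.ne') h)
    have hxx : x ⬝ᵥ x = 1 := by
      rw [hx, hnorm]
      have : (r⁻¹ * a) ^ 2 + (r⁻¹ * b) ^ 2 = r⁻¹ ^ 2 * (r * r) := by rw [hrr]; ring
      rw [this]
      field_simp
    have hxr : a • f₁ + b • f₂ = r • x := by
      rw [hx, smul_add, smul_smul, smul_smul, ← mul_assoc, ← mul_assoc, mul_inv_cancel₀ hr0.ne', one_mul, one_mul]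
    have hcone := same_cone hd D hB0 hBlo R hR h₀ k h₀t hk hdec x hxx (hz _ _) (hRz _ _)
    obtain ⟨n, hn, hxn, hn0, -⟩ := third_vec hd R x
    have hn' : RR A m x n < 0 := RR_lt_zero D.nested D.lo_mem x n hxx hxn hn (hz _ _) hn0
    have hu : 0 < RR A m x y := by
      unfold RR
      have h1 := D.nested.pos m D.lo_mem x (unit_ne hxx) (hz _ _)
      have h2 := mul_pos_of_neg_of_neg (neg_neg_of_pos h1) hy
      have h3 := sq_nonneg (Q A m x y)
      linarith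
    obtain ⟨c, hc⟩ := prop_forms (P := A) (P' := conj A R) hs (fun s i j => conj_symm hs R s i j) m x y n hu hn'
      (fun v => by rw [hRRc]; exact hcone v)
    refine ⟨c, fun v => ?_⟩
    rw [hxr, RR_smul, RR_smul, hc v]
    ring
  obtain ⟨a, ha, h⟩ := alg (P := A) (P' := conj A R) hs (fun s i j => conj_symm hs R s i j) m f₁ f₂ hpos H y hy
  exact commute hs R hR m a ha (fun v w => by rw [← Q_conj]; exact h v w) y hy

end Pool.Agent.Work.MP_659252_gt.Y
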