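import Pool.Agent.Work.MP_659252_gt.Y.FinA
import Pool.Agent.Work.MP_659252_gt.Y.FinB

/-!
# Final assembly
-/

namespace Pool.Agent.Work.MP_659252_gt.Y

open scoped ContDiff
open Pool.Agent.Work.MP_659252_gt.Z (V Ten val Tan InT IsTrivial IsInvariant)

variable {d : ℕ}

/-- The theorem: the direction of a nested family of quadratic cones is tangent to the space of Zoll metrics, and the
symmetries of its class commute with the matrix of the outermost cone of its support. -/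
theorem main (d : ℕ) (hd : 3 ≤ d) (A : Path d) (T : ℝ) (hA : Nested A T) (B : ℝ → ℝ) (hB : ContDiff ℝ ∞ B)
    (lo hi : ℝ) (hlo : 0 < lo) (hle : lo ≤ hi) (hhi : hi < T) (hsupp : ∀ s, s ∉ Set.Icc lo hi → B s = 0) :
    InT (conf A T B) ∧
    ((∀ s, 0 ≤ B s) → ∀ m ∈ Set.Ioo 0 T, (∀ s, s ≤ m → B s = 0) →
      (∀ s, m < s → ∃ u ∈ Set.Ioo m s, B u ≠ 0) → (∃ y, Q A m y y < 0) →
      ∀ R ∈ Matrix.orthogonalGroup (Fin (d + 1)) ℝ,
        (∃ h₀ k : Ten d, IsTrivial h₀ ∧ IsInvariant R k ∧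
          ∀ x v w, Tan x v → Tan x w → val (conf A T B) x v w = val h₀ x v w + val k x v w) →
        R * Matrix.of (A m) = Matrix.of (A m) * R) := by
  have hD : ∀ l, 0 < l → l < T → (∀ s, s ≤ l → B s = 0) → ∃ h, Dat A T B l h := by
    intro l hl hlT hl0
    refine ⟨max ((l + T) / 2) ((hi + T) / 2), hA, hl, ?_, ?_, hB, fun s hs => ?_⟩
    · exact lt_max_of_lt_left (by linarith)
    · exact max_lt (by linarith) (by linarith)
    · by_cases h1 : s ≤ l
      · exact hl0 s h1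
      · refine hsupp s fun h2 => hs ⟨not_le.mp h1, ?_⟩
        exact lt_max_of_lt_right (by linarith [h2.2])
  refine ⟨?_, fun hB0 m hm hm0 hm1 hy R hR hdec => ?_⟩
  · obtain ⟨h, D⟩ := hD (lo / 2) (half_pos hlo) (by linarith) fun s hs => hsupp s fun h2 => by
      linarith [h2.1]
    exact conf_inT_aux D
  · obtain ⟨h, D⟩ := hD m hm.1 hm.2 hm0
    obtain ⟨y, hy⟩ := hy
    obtain ⟨h₀, k, h₀t, hk, hdec⟩ := hdec
    refine no_inv hd D hB0 (fun s hs => ?_) y hy R hR h₀ k h₀t hk hdec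
    obtain ⟨u, hu, hu1⟩ := hm1 s hs
    exact ⟨u, hu.1, hu.2, hu1⟩

end Pool.Agent.Work.MP_659252_gt.Y
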