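import Pool.Agent.Work.MP_659252_gt.Y.Qm

/-!
# The level function.  Size: M.  (Adapt the proofs of `Z/Lev.lean`.)

`lev A T x = sSup S`, `S = {s | s ∈ (0, T) ∧ Q A s x x ≤ 0}`.  For `x ≠ 0` the function `s ↦ Q A s x x` is continuous and strictly increasing on `(0, T)`
(`Q_lt`, `Q_deriv`).
PROOF.  `lev_eq`: if `Q A s x x = 0` then `S = {m ∈ (0, T) | m ≤ s}`, whose greatest element is `s` (`IsGreatest.csSup_eq`).
`lev_lt`: if `Q A s x x > 0` then there is `m < s` in `(0, T)` with still `Q A m x x > 0` (continuity), all elements of `S` are `< m`, so `sSup S ≤ m < s`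
(`Real.sSup_le`; if `S` is empty then `sSup ∅ = 0 < s`).
`lt_lev`: if `Q A s x x < 0` then `Q A m x x < 0` for some `m > s` in `(0, T)`, `m ∈ S`, and `S` is bounded above by `T`.  So `s < m ≤ sSup S`.
`lev_root`: intermediate value theorem on `[s, s']` gives `m` with `Q A m x x = 0`, then `lev_eq`.
`lev_neg`, `lev_smul`: `Q A s (c x) (c x) = c² Q A s x x`, so the sets `S` agree.
`bb_eq_zero`: if `Q A lo x x > 0` then `lev < lo`, if `= 0` then `lev = lo`, similarly `lev ≥ hi`; `B = 0` there (`D.supp`).  `bb_neg`: `Real.sign` is odd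
(`Real.sign_neg`).
`one_add_pos`: if `bb = 0` then `bN = 0`.  Otherwise (`bb_eq_zero` contraposed, `lev_root`) `s = lev A T x ∈ [lo, hi]`, `M = Q (dot A) s x x > 0`,
`|bN| = |bb| N/M ≤ |B s| N/M < 1` (`|Real.sign| ≤ 1`, `hB`).
-/

namespace Pool.Agent.Work.MP_659252_gt.Y

open Pool.Agent.Work.MP_659252_gt.Z (V)

variable {d : ℕ} {A : Path d} {T s s' : ℝ}

private theorem Qc (hA : Nested A T) (hs : s ∈ Set.Ioo 0 T) (x : V d) : ContinuousAt (fun m => Q A m x x) s :=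
  (Q_deriv hA hs x x).continuousAt

theorem lev_eq (hA : Nested A T) (hs : s ∈ Set.Ioo 0 T) (x : V d) (hx : x ≠ 0) (h : Q A s x x = 0) :
    lev A T x = s := by
  unfold lev
  apply IsGreatest.csSup_eq
  refine ⟨⟨hs, h.le⟩, ?_⟩
  rintro m ⟨hm, hmQ⟩
  by_contra hcon
  rw [not_le] at hcon
  have := Q_lt hA hs hm hcon x hx
  linarith

theorem lev_lt (hA : Nested A T) (hs : s ∈ Set.Ioo 0 T) (x : V d) (hx : x ≠ 0) (h : 0 < Q A s x x) :
    lev A T x < s := by
  have h1 : ∀ᶠ m in nhds s, 0 < Q A m x x := (Qc hA hs x).eventually (lt_mem_nhds h)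
  have h2 : ∀ᶠ m in nhds s, m ∈ Set.Ioo 0 T := isOpen_Ioo.mem_nhds hs
  have h3 : ∀ᶠ m in nhdsWithin s (Set.Iio s), (0 < Q A m x x ∧ m ∈ Set.Ioo 0 T) ∧ m < s :=
    ((h1.and h2).filter_mono nhdsWithin_le_nhds).and self_mem_nhdsWithin
  obtain ⟨m, ⟨hmQ, hm⟩, hmμ⟩ := h3.exists
  refine lt_of_le_of_lt ?_ hmμ
  unfold lev
  apply Real.sSup_le _ hm.1.le
  rintro n ⟨hn, hnQ⟩
  by_contra hcon
  rw [not_le] at hcon
  have := Q_lt hA hm hn hcon x hx
  linarith

theorem lt_lev (hA : Nested A T) (hs : s ∈ Set.Ioo 0 T) (x : V d) (hx : x ≠ 0) (h : Q A s x x < 0) :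
    s < lev A T x := by
  have h1 : ∀ᶠ m in nhds s, Q A m x x < 0 := (Qc hA hs x).eventually (gt_mem_nhds h)
  have h2 : ∀ᶠ m in nhds s, m ∈ Set.Ioo 0 T := isOpen_Ioo.mem_nhds hs
  have h3 : ∀ᶠ m in nhdsWithin s (Set.Ioi s), (Q A m x x < 0 ∧ m ∈ Set.Ioo 0 T) ∧ s < m :=
    ((h1.and h2).filter_mono nhdsWithin_le_nhds).and self_mem_nhdsWithin
  obtain ⟨m, ⟨hmQ, hm⟩, hmμ⟩ := h3.exists
  refine lt_of_lt_of_le hmμ ?_
  unfold lev
  apply le_csSup _ (show m ∈ {s | s ∈ Set.Ioo 0 T ∧ Q A s x x ≤ 0} from ⟨hm, hmQ.le⟩)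
  refine ⟨T, ?_⟩
  rintro n ⟨hn, -⟩
  exact hn.2.le

theorem lev_root (hA : Nested A T) (hs : s ∈ Set.Ioo 0 T) (hs' : s' ∈ Set.Ioo 0 T) (hle : s ≤ s') (x : V d)
    (hx : x ≠ 0) (h1 : Q A s x x ≤ 0) (h2 : 0 ≤ Q A s' x x) :
    s ≤ lev A T x ∧ lev A T x ≤ s' ∧ Q A (lev A T x) x x = 0 := by
  have hm' : ∀ m ∈ Set.Icc s s', m ∈ Set.Ioo 0 T := fun m hm =>
    ⟨hs.1.trans_le hm.1, hm.2.trans_lt hs'.2⟩
  have hc : ContinuousOn (fun m => Q A m x x) (Set.Icc s s') := by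
    intro m hm
    exact (Qc hA (hm' m hm) x).continuousWithinAt
  obtain ⟨m, hm, hmQ⟩ := intermediate_value_Icc hle hc ⟨h1, h2⟩
  have h3 := lev_eq hA (hm' m hm) x hx hmQ
  rw [h3]
  exact ⟨hm.1, hm.2, hmQ⟩

theorem lev_neg (A : Path d) (T : ℝ) (x : V d) : lev A T (-x) = lev A T x := by
  unfold lev
  have h : ∀ m, Q A m (-x) (-x) = Q A m x x := by
    intro m
    rw [Q_neg, Q_neg_right, neg_neg]
  simp only [h]

theorem lev_smul (A : Path d) (T c : ℝ) (hc : c ≠ 0) (x : V d) : lev A T (c • x) = lev A T x := by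
  unfold lev
  have h : ∀ m, Q A m (c • x) (c • x) ≤ 0 ↔ Q A m x x ≤ 0 := by
    intro m
    rw [Q_smul, Q_smul_right, ← mul_assoc]
    have hc2 : 0 < c * c := mul_self_pos.2 hc
    constructor
    · intro h
      by_contra hcon
      rw [not_le] at hcon
      have := mul_pos hc2 hcon
      linarith
    · intro h
      exact mul_nonpos_of_nonneg_of_nonpos hc2.le h
  simp only [h]

/-- `b` vanishes below and above the ring -/
theorem bb_eq_zero {B : ℝ → ℝ} {lo hi : ℝ} (D : Dat A T B lo hi) (x : V d) (hx : x ≠ 0)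
    (h : 0 ≤ Q A lo x x ∨ Q A hi x x ≤ 0) : bb A T B x = 0 := by
  unfold bb
  rw [D.supp, mul_zero]
  rintro ⟨h1, h2⟩
  rcases h with h | h
  · rcases h.eq_or_lt with h3 | h3
    · have := lev_eq D.nested D.lo_mem x hx h3.symm
      linarith
    · have := lev_lt D.nested D.lo_mem x hx h3
      linarith
  · rcases h.eq_or_lt with h3 | h3
    · have := lev_eq D.nested D.hi_mem x hx h3
      linarith
    · have := lt_lev D.nested D.hi_mem x hx h3
      linarith

theorem bb_neg (A : Path d) (T : ℝ) (B : ℝ → ℝ) (x : V d) : bb A T B (-x) = -bb A T B x := by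
  unfold bb
  rw [lev_neg, Pi.neg_apply, Real.sign_neg, neg_mul]

theorem one_add_pos {B : ℝ → ℝ} {lo hi : ℝ} (D : Dat A T B lo hi) (hB : Small A B lo hi) (x : V d) (hx : x ≠ 0) :
    0 < 1 + bN A T B x := by
  by_cases hb : bb A T B x = 0
  · have h0 : bN A T B x = 0 := by
      unfold bN b1
      rw [hb, zero_div, zero_mul]
    rw [h0, add_zero]
    exact one_pos
  · have hn : ¬(0 ≤ Q A lo x x ∨ Q A hi x x ≤ 0) := fun h => hb (bb_eq_zero D x hx h)
    rw [not_or, not_le, not_le] at hn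
    obtain ⟨h1, h2, -⟩ := lev_root D.nested D.lo_mem D.hi_mem D.lo_hi.le x hx hn.1.le hn.2.le
    have hM : 0 < Q (dot A) (lev A T x) x x := D.nested.mono _ (D.mem h1 h2) x hx
    have hS := hB (lev A T x) ⟨h1, h2⟩ x hx
    have hN := NN_nonneg A (lev A T x) x
    have hbb : |bb A T B x| ≤ |B (lev A T x)| := by
      unfold bb
      rw [abs_mul]
      have hsg : |Real.sign (x 0)| ≤ 1 := by
        rcases Real.sign_apply_eq (x 0) with h | h | h <;> rw [h] <;> norm_num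
      calc |Real.sign (x 0)| * |B (lev A T x)| ≤ 1 * |B (lev A T x)| :=
            mul_le_mul_of_nonneg_right hsg (abs_nonneg _)
        _ = |B (lev A T x)| := one_mul _
    have hlt : |bb A T B x| * NN A (lev A T x) x < Q (dot A) (lev A T x) x x :=
      lt_of_le_of_lt (mul_le_mul_of_nonneg_right hbb hN) hS
    have hbN : |bN A T B x| < 1 := by
      unfold bN b1
      rw [abs_mul, abs_div, abs_of_pos hM, abs_of_nonneg hN, div_mul_eq_mul_div, div_lt_one hM]
      exact hlt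
    have := (abs_lt.1 hbN).1
    linarith

end Pool.Agent.Work.MP_659252_gt.Y
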