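import Pool.Agent.Work.MP_659252_gt.Y.Lev

/-!
# The level function is smooth.  Size: M.  (Adapt the proofs of `Z/LevD.lean`.)

PROOF.  Let `Q A s x x = 0`, `s ∈ (0, T)`, `x ≠ 0`.  The function `ff (y, m) = Q A m y y` is smooth near `(x, s)` (`Q_smooth₂`), with derivative
`(w, r) ↦ 2 Q A s x w + r Q (dot A) s x x` at `(x, s)`, and `Q (dot A) s x x > 0` (`hA.mono`).  Implicit function theorem
(`ContDiffAt.implicitFunction` as in `Z/LevD.lean`): near `x` there is a smooth `ψ` with `ff (y, ψ y) = 0`, `ψ x = s`, `ψ y ∈ (0, T)`, so `lev A T y = ψ y` by `lev_eq`.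
Derivative: differentiate `Q A (lev y) y y = 0` at `x` in the direction `w`: `2 Q A s x w + (D lev w) Q (dot A) s x x = 0`.
-/

namespace Pool.Agent.Work.MP_659252_gt.Y

open scoped ContDiff Topology
open Pool.Agent.Work.MP_659252_gt.Z (V)

variable {d : ℕ} {A : Path d} {T s : ℝ}

/-- the quadratic form as a function of the point and of the parameter -/
private noncomputable def ff (A : Path d) (p : V d × ℝ) : ℝ := Q A p.2 p.1 p.1

private theorem ff_contDiffAt (hA : Nested A T) (hs : s ∈ Set.Ioo 0 T) (x : V d) :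
    ContDiffAt ℝ ∞ (ff A) (x, s) := by
  have ho : IsOpen {p : V d × ℝ | p.2 ∈ Set.Ioo 0 T} := isOpen_Ioo.preimage continuous_snd
  exact (Q_smooth₂ hA).contDiffAt (ho.mem_nhds hs)

private theorem ff_fderiv_right (hA : Nested A T) (hs : s ∈ Set.Ioo 0 T) (x : V d) (r : ℝ) :
    fderiv ℝ (ff A) (x, s) (0, r) = r * Q (dot A) s x x := by
  have hd : HasFDerivAt (ff A) (fderiv ℝ (ff A) (x, s)) (x, s) :=
    ((ff_contDiffAt hA hs x).differentiableAt (by simp)).hasFDerivAt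
  have hc : HasDerivAt (fun m : ℝ => ((x, m) : V d × ℝ)) ((0 : V d), (1 : ℝ)) s :=
    (hasDerivAt_const s x).prodMk (hasDerivAt_id s)
  have h1 : HasDerivAt (fun m : ℝ => Q A m x x) (fderiv ℝ (ff A) (x, s) ((0 : V d), (1 : ℝ))) s :=
    HasFDerivAt.comp_hasDerivAt s hd hc
  have h2 := h1.unique (Q_deriv hA hs x x)
  have h3 : ((0 : V d), r) = r • ((0 : V d), (1 : ℝ)) := by simp
  rw [h3, map_smul, h2, smul_eq_mul]

private theorem ff_fderiv_left (hA : Nested A T) (hs : s ∈ Set.Ioo 0 T) (x w : V d) :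
    fderiv ℝ (ff A) (x, s) (w, 0) = 2 * Q A s x w := by
  have hd : HasFDerivAt (ff A) (fderiv ℝ (ff A) (x, s)) (x, s) :=
    ((ff_contDiffAt hA hs x).differentiableAt (by simp)).hasFDerivAt
  have hl : HasDerivAt (fun t : ℝ => x + t • w) w 0 := by
    simpa using ((hasDerivAt_id (0 : ℝ)).smul_const w).const_add x
  have hc : HasDerivAt (fun t : ℝ => ((x + t • w, s) : V d × ℝ)) (w, (0 : ℝ)) 0 :=
    hl.prodMk (hasDerivAt_const 0 s)
  have hd' : HasFDerivAt (ff A) (fderiv ℝ (ff A) (x, s)) ((x + (0 : ℝ) • w, s) : V d × ℝ) := by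
    simpa using hd
  have h1 : HasDerivAt (fun t : ℝ => Q A s (x + t • w) (x + t • w))
      (fderiv ℝ (ff A) (x, s) (w, (0 : ℝ))) 0 := by
    have h1' := HasFDerivAt.comp_hasDerivAt (f := fun t : ℝ => ((x + t • w, s) : V d × ℝ))
      (0 : ℝ) hd' hc
    exact h1'
  have h2 : (fun t : ℝ => Q A s (x + t • w) (x + t • w)) =
      fun t : ℝ => Q A s x x + t * (2 * Q A s x w) + t ^ 2 * Q A s w w := by
    funext t
    rw [Q_add, Q_smul, Q_add_right, Q_add_right, Q_smul_right, Q_smul_right, Q_comm hA.symm s w x]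
    ring
  rw [h2] at h1
  have h3 : HasDerivAt (fun t : ℝ => Q A s x x + t * (2 * Q A s x w) + t ^ 2 * Q A s w w)
      (2 * Q A s x w) 0 := by
    have ha : HasDerivAt (fun t : ℝ => t * (2 * Q A s x w)) (1 * (2 * Q A s x w)) 0 :=
      (hasDerivAt_id (0 : ℝ)).mul_const _
    have hb : HasDerivAt (fun t : ℝ => t ^ 2 * Q A s w w)
        (((2 : ℕ) * (0 : ℝ) ^ (2 - 1)) * Q A s w w) 0 :=
      (hasDerivAt_pow 2 (0 : ℝ)).mul_const _
    have hs := (ha.const_add (Q A s x x)).add hb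
    have e : 1 * (2 * Q A s x w) + (((2 : ℕ) * (0 : ℝ) ^ (2 - 1)) * Q A s w w) =
        2 * Q A s x w := by norm_num
    rw [e] at hs
    exact hs
  exact h1.unique h3

private theorem ff_inv (hA : Nested A T) (hs : s ∈ Set.Ioo 0 T) (x : V d) (hx : x ≠ 0) :
    (fderiv ℝ (ff A) (x, s) ∘L ContinuousLinearMap.inr ℝ (V d) ℝ).IsInvertible := by
  have hpos := hA.mono s hs x hx
  refine ⟨ContinuousLinearEquiv.unitsEquivAut ℝ (Units.mk0 (Q (dot A) s x x) hpos.ne'), ?_⟩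
  ext
  simp [ff_fderiv_right hA hs x]

private theorem lev_eventually (hA : Nested A T) (hs : s ∈ Set.Ioo 0 T) (x : V d) (hx : x ≠ 0)
    (h : Q A s x x = 0) :
    ∃ ψ : V d → ℝ, ContDiffAt ℝ ∞ ψ x ∧ ψ x = s ∧ ∀ᶠ y in 𝓝 x, ff A (y, ψ y) = 0 ∧ lev A T y = ψ y := by
  have cdf := ff_contDiffAt hA hs x
  have pn : (∞ : WithTop ℕ∞) ≠ 0 := by simp
  have hi := ff_inv hA hs x hx
  have hc := cdf.contDiffAt_implicitFunction pn hi
  have he := cdf.eventually_apply_implicitFunction pn hi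
  have hse := cdf.implicitFunction_apply_self pn hi
  refine ⟨cdf.implicitFunction pn hi, hc, hse, ?_⟩
  have hcont : ContinuousAt (cdf.implicitFunction pn hi) x := hc.continuousAt
  have hadm : ∀ᶠ y in 𝓝 x, cdf.implicitFunction pn hi y ∈ Set.Ioo 0 T := by
    have hmem : Set.Ioo 0 T ∈ 𝓝 (cdf.implicitFunction pn hi x) := by
      rw [hse]
      exact isOpen_Ioo.mem_nhds hs
    exact hcont.eventually_mem hmem
  have hne : ∀ᶠ y in 𝓝 x, y ≠ 0 := isOpen_ne.mem_nhds hx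
  filter_upwards [he, hadm, hne] with y h1 h2 h3
  have h4 : ff A (y, cdf.implicitFunction pn hi y) = 0 := by
    rw [h1]
    exact h
  exact ⟨h4, lev_eq hA h2 y h3 h4⟩

theorem lev_contDiffAt (hA : Nested A T) (hs : s ∈ Set.Ioo 0 T) (x : V d) (hx : x ≠ 0) (h : Q A s x x = 0) :
    ContDiffAt ℝ ∞ (lev A T) x := by
  obtain ⟨ψ, hψ, -, he⟩ := lev_eventually hA hs x hx h
  exact hψ.congr_of_eventuallyEq (he.mono fun y hy => hy.2)

theorem lev_fderiv (hA : Nested A T) (hs : s ∈ Set.Ioo 0 T) (x : V d) (hx : x ≠ 0) (h : Q A s x x = 0)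
    (w : V d) : fderiv ℝ (lev A T) x w = -2 * Q A s x w / Q (dot A) s x x := by
  obtain ⟨ψ, hψ, hψx, he⟩ := lev_eventually hA hs x hx h
  have hpos := hA.mono s hs x hx
  have heq : lev A T =ᶠ[𝓝 x] ψ := he.mono fun y hy => hy.2
  rw [heq.fderiv_eq]
  have hd : HasFDerivAt (ff A) (fderiv ℝ (ff A) (x, s)) (x, ψ x) := by
    rw [hψx]
    exact ((ff_contDiffAt hA hs x).differentiableAt (by simp)).hasFDerivAt
  have hψd : HasFDerivAt ψ (fderiv ℝ ψ x) x := (hψ.differentiableAt (by simp)).hasFDerivAt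
  have hp : HasFDerivAt (fun y => (y, ψ y)) ((ContinuousLinearMap.id ℝ (V d)).prod (fderiv ℝ ψ x)) x :=
    (hasFDerivAt_id x).prodMk hψd
  have hcomp : HasFDerivAt (fun y => ff A (y, ψ y))
      ((fderiv ℝ (ff A) (x, s)).comp ((ContinuousLinearMap.id ℝ (V d)).prod (fderiv ℝ ψ x))) x :=
    HasFDerivAt.comp (f := fun y => ((y, ψ y) : V d × ℝ)) x hd hp
  have hz : (fun y => ff A (y, ψ y)) =ᶠ[𝓝 x] fun _ => (0 : ℝ) := he.mono fun y hy => hy.1
  have h0' : HasFDerivAt (fun _ : V d => (0 : ℝ)) (0 : V d →L[ℝ] ℝ) x := hasFDerivAt_const 0 x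
  have hu := (hcomp.congr_of_eventuallyEq hz.symm).unique h0'
  have hw := congrArg (fun T : V d →L[ℝ] ℝ => T w) hu
  have h5 : ((w, fderiv ℝ ψ x w) : V d × ℝ) = (w, 0) + (0, fderiv ℝ ψ x w) := by simp
  have h6 : fderiv ℝ (ff A) (x, s) (w, fderiv ℝ ψ x w) = 0 := by simpa using hw
  rw [h5, map_add, ff_fderiv_left hA hs, ff_fderiv_right hA hs] at h6
  rw [eq_div_iff hpos.ne']
  linarith

end Pool.Agent.Work.MP_659252_gt.Y
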