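import Pool.Agent.Work.MP_659252_gt.Y.Bas

/-!
# Elementary facts on the forms `Q_s`.  Size: S-M.

PROOF.  `A_deriv`: `A · i j` is smooth on the open interval `(0, T)`, so it has the derivative `deriv (A · i j) s = dot A s i j` at `s`.
`dot_smooth`: the derivative of a smooth function on an open set is smooth (`ContDiffOn.deriv_of_isOpen`).  `dot_deriv`: the same for `dot A`.
`Q_deriv`, `Qd_deriv`, `AX_deriv`: finite sums (`HasDerivAt.fun_sum`, `hasDerivAt_pi`).
`A_smooth₂`, `dot_smooth₂`: composition with the projection `p ↦ p.2`; `Q_smooth₂`: finite sums and products of these and of coordinates.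
`Q_lt`: on `[s, s'] ⊆ (0, T)` the function `m ↦ Q A m x x` has the derivative `Q (dot A) m x x > 0` (`hA.mono`): `strictMonoOn_of_deriv_pos`.
`Q_ne`: contraposition of `hA.pos`.
(The analogue for another family is `Z/Qm.lean`.)
-/

namespace Pool.Agent.Work.MP_659252_gt.Y

open scoped ContDiff
open Pool.Agent.Work.MP_659252_gt.Z (V)

variable {d : ℕ} {A : Path d} {T s s' : ℝ}

theorem A_deriv (hA : Nested A T) (hs : s ∈ Set.Ioo 0 T) (i j : Fin (d + 1)) :
    HasDerivAt (fun m => A m i j) (dot A s i j) s :=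
  (((hA.smooth i j).contDiffAt (isOpen_Ioo.mem_nhds hs)).differentiableAt (by simp)).hasDerivAt

theorem dot_smooth (hA : Nested A T) (i j : Fin (d + 1)) :
    ContDiffOn ℝ ∞ (fun m => dot A m i j) (Set.Ioo 0 T) :=
  (hA.smooth i j).deriv_of_isOpen isOpen_Ioo (by simp)

theorem dot_deriv (hA : Nested A T) (hs : s ∈ Set.Ioo 0 T) (i j : Fin (d + 1)) :
    HasDerivAt (fun m => dot A m i j) (dot (dot A) s i j) s :=
  (((dot_smooth hA i j).contDiffAt (isOpen_Ioo.mem_nhds hs)).differentiableAt (by simp)).hasDerivAt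

theorem Q_deriv (hA : Nested A T) (hs : s ∈ Set.Ioo 0 T) (x y : V d) :
    HasDerivAt (fun m => Q A m x y) (Q (dot A) s x y) s := by
  unfold Q
  exact HasDerivAt.fun_sum fun i _ => HasDerivAt.fun_sum fun j _ => (A_deriv hA hs i j).mul_const _

theorem Qd_deriv (hA : Nested A T) (hs : s ∈ Set.Ioo 0 T) (x y : V d) :
    HasDerivAt (fun m => Q (dot A) m x y) (Q (dot (dot A)) s x y) s := by
  unfold Q
  exact HasDerivAt.fun_sum fun i _ => HasDerivAt.fun_sum fun j _ => (dot_deriv hA hs i j).mul_const _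

theorem AX_deriv (hA : Nested A T) (hs : s ∈ Set.Ioo 0 T) (x : V d) :
    HasDerivAt (fun m => AX A m x) (AX (dot A) s x) s := by
  rw [hasDerivAt_pi]
  intro i
  unfold AX
  exact HasDerivAt.fun_sum fun j _ => (A_deriv hA hs i j).mul_const _

theorem A_smooth₂ (hA : Nested A T) (i j : Fin (d + 1)) :
    ContDiffOn ℝ ∞ (fun p : V d × ℝ => A p.2 i j) {p | p.2 ∈ Set.Ioo 0 T} :=
  (hA.smooth i j).comp contDiffOn_snd fun _ hp => hp

theorem dot_smooth₂ (hA : Nested A T) (i j : Fin (d + 1)) :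
    ContDiffOn ℝ ∞ (fun p : V d × ℝ => dot A p.2 i j) {p | p.2 ∈ Set.Ioo 0 T} :=
  (dot_smooth hA i j).comp contDiffOn_snd fun _ hp => hp

theorem Q_smooth₂ (hA : Nested A T) :
    ContDiffOn ℝ ∞ (fun p : V d × ℝ => Q A p.2 p.1 p.1) {p | p.2 ∈ Set.Ioo 0 T} := by
  unfold Q
  have hc : ∀ i : Fin (d + 1), ContDiffOn ℝ ∞ (fun p : V d × ℝ => p.1 i) {p | p.2 ∈ Set.Ioo 0 T} :=
    fun i => ((contDiff_apply ℝ ℝ i).comp contDiff_fst).contDiffOn
  exact ContDiffOn.sum fun i _ => ContDiffOn.sum fun j _ => (A_smooth₂ hA i j).mul ((hc i).mul (hc j))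

theorem Q_lt (hA : Nested A T) (hs : s ∈ Set.Ioo 0 T) (hs' : s' ∈ Set.Ioo 0 T) (h : s < s') (x : V d)
    (hx : x ≠ 0) : Q A s x x < Q A s' x x := by
  have hd : ∀ m ∈ Set.Icc s s', HasDerivAt (fun m => Q A m x x) (Q (dot A) m x x) m := fun m hm =>
    Q_deriv hA ⟨lt_of_lt_of_le hs.1 hm.1, lt_of_le_of_lt hm.2 hs'.2⟩ x x
  have h1 : StrictMonoOn (fun m => Q A m x x) (Set.Icc s s') := by
    refine strictMonoOn_of_deriv_pos (convex_Icc s s')
      (fun m hm => (hd m hm).continuousAt.continuousWithinAt) fun m hm => ?_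
    rw [interior_Icc] at hm
    rw [(hd m ⟨hm.1.le, hm.2.le⟩).deriv]
    exact hA.mono m ⟨hs.1.trans hm.1, hm.2.trans hs'.2⟩ x hx
  exact h1 (Set.left_mem_Icc.2 h.le) (Set.right_mem_Icc.2 h.le) h

theorem Q_ne (hA : Nested A T) (hs : s ∈ Set.Ioo 0 T) (x : V d) (hx : x ≠ 0) (h : Q A s x x ≤ 0) : x 0 ≠ 0 :=
  fun hx0 => absurd (hA.pos s hs x hx hx0) (not_lt.2 h)

end Pool.Agent.Work.MP_659252_gt.Y
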