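import Pool.Agent.Work.MP_659252_gt.Y.Qm

/-!
# A great circle which leaves a cone in the upper half does not come back.  Size: M.  (Adapt the proof of `Z/Arc.lean`.)

Let `y u = cos u w₁ + sin u w₂`, `y_0 > 0` on `[u', u'']`, `Q y y = 0` at `u'` and `Q (y u') (y' u') ≥ 0`.
PROOF.  Put `x = y u'`, `z = -sin u' w₁ + cos u' w₂ = y' u'`, `r = u'' - u' > 0`: `y u'' = cos r x + sin r z`.
`r < π`: otherwise `u' + π ∈ [u', u'']` and `y (u' + π) = -x` has negative `0`-component.  So `sin r > 0`.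
`n = z_0 x - x_0 z` has `n_0 = 0`, `n ≠ 0` (`x`, `z` are orthonormal, `x_0 > 0`), so `0 < Q n n = -2 z_0 x_0 Q x z + x_0² Q z z`
(`hA.pos`, `Q x x = 0`), i.e. `x_0 Q z z > 2 z_0 Q x z`.
`Q (y u'') (y u'') = sin² r Q z z + 2 sin r cos r Q x z`, times `x_0 > 0`: `> sin r · 2 Q x z (z_0 sin r + x_0 cos r) ≥ 0`, because
`z_0 sin r + x_0 cos r = (y u'')_0 > 0` and `Q x z ≥ 0`, `sin r > 0`.
-/

namespace Pool.Agent.Work.MP_659252_gt.Y

open Pool.Agent.Work.MP_659252_gt.Z (V)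

variable {d : ℕ} {A : Path d} {T s : ℝ}

private theorem Q_comb (hsy : ∀ s i j, A s i j = A s j i) (a b : ℝ) (x u : V d) :
    Q A s (a • x + b • u) (a • x + b • u) =
      a ^ 2 * Q A s x x + 2 * a * b * Q A s x u + b ^ 2 * Q A s u u := by
  rw [Q_add, Q_smul, Q_smul, Q_add_right, Q_add_right, Q_smul_right, Q_smul_right, Q_smul_right,
    Q_smul_right, Q_comm hsy s u x]
  ring

theorem arc_pos (hA : Nested A T) (hs : s ∈ Set.Ioo 0 T) (w₁ w₂ : V d) (h11 : w₁ ⬝ᵥ w₁ = 1)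
    (h12 : w₁ ⬝ᵥ w₂ = 0) (h22 : w₂ ⬝ᵥ w₂ = 1) (u' u'' : ℝ) (hlt : u' < u'')
    (hpos : ∀ u ∈ Set.Icc u' u'', 0 < (Real.cos u • w₁ + Real.sin u • w₂) 0)
    (hz : Q A s (Real.cos u' • w₁ + Real.sin u' • w₂) (Real.cos u' • w₁ + Real.sin u' • w₂) = 0)
    (hd : 0 ≤ Q A s (Real.cos u' • w₁ + Real.sin u' • w₂) (-Real.sin u' • w₁ + Real.cos u' • w₂)) :
    0 < Q A s (Real.cos u'' • w₁ + Real.sin u'' • w₂) (Real.cos u'' • w₁ + Real.sin u'' • w₂) := by
  obtain ⟨x, hx⟩ : ∃ x, x = Real.cos u' • w₁ + Real.sin u' • w₂ := ⟨_, rfl⟩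
  obtain ⟨zz, hu⟩ : ∃ zz, zz = -Real.sin u' • w₁ + Real.cos u' • w₂ := ⟨_, rfl⟩
  obtain ⟨r, hr⟩ : ∃ r, r = u'' - u' := ⟨_, rfl⟩
  have hr0 : 0 < r := by rw [hr]; linarith
  have hu'' : u'' = u' + r := by rw [hr]; ring
  have h21 : w₂ ⬝ᵥ w₁ = 0 := by rw [dotProduct_comm]; exact h12
  have hsc := Real.sin_sq_add_cos_sq u'
  have hxx : x ⬝ᵥ x = 1 := by
    rw [hx]
    simp only [add_dotProduct, dotProduct_add, smul_dotProduct, dotProduct_smul, smul_eq_mul, h11, h12, h22, h21]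
    linarith
  have hxu : x ⬝ᵥ zz = 0 := by
    rw [hx, hu]
    simp only [add_dotProduct, dotProduct_add, smul_dotProduct, dotProduct_smul, smul_eq_mul, h11, h12, h22, h21]
    ring
  have hux : zz ⬝ᵥ x = 0 := by rw [dotProduct_comm]; exact hxu
  have huu : zz ⬝ᵥ zz = 1 := by
    rw [hu]
    simp only [add_dotProduct, dotProduct_add, smul_dotProduct, dotProduct_smul, smul_eq_mul, h11, h12, h22, h21]
    linarith
  have hx0 : 0 < x 0 := by
    rw [hx]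
    exact hpos u' ⟨le_refl _, hlt.le⟩
  have hrpi : r < Real.pi := by
    by_contra hcon
    push Not at hcon
    have h1 := hpos (u' + Real.pi) ⟨by linarith [Real.pi_pos], by linarith⟩
    rw [Real.cos_add_pi, Real.sin_add_pi] at h1
    rw [hx] at hx0
    simp only [Pi.add_apply, Pi.smul_apply, smul_eq_mul] at h1 hx0
    linarith
  have hsin : 0 < Real.sin r := Real.sin_pos_of_pos_of_lt_pi hr0 hrpi
  have hy : Real.cos u'' • w₁ + Real.sin u'' • w₂ = Real.cos r • x + Real.sin r • zz := by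
    rw [hu'', Real.cos_add, Real.sin_add, hx, hu]
    funext i
    simp only [Pi.add_apply, Pi.smul_apply, smul_eq_mul]
    ring
  have hy0 : 0 < Real.cos r * x 0 + Real.sin r * zz 0 := by
    have h1 := hpos u'' ⟨hlt.le, le_refl _⟩
    rw [hy] at h1
    simpa only [Pi.add_apply, Pi.smul_apply, smul_eq_mul] using h1
  rw [← hx] at hz hd
  rw [← hu] at hd
  have hzne : zz 0 • x + (-x 0) • zz ≠ 0 := by
    intro h0
    have h1 : (zz 0 • x + (-x 0) • zz) ⬝ᵥ (zz 0 • x + (-x 0) • zz) = 0 := by rw [h0, zero_dotProduct]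
    simp only [add_dotProduct, dotProduct_add, smul_dotProduct, dotProduct_smul, smul_eq_mul, hxx, hxu, hux,
      huu] at h1
    nlinarith [sq_nonneg (zz 0), mul_pos hx0 hx0]
  have hz0 : (zz 0 • x + (-x 0) • zz) 0 = 0 := by
    simp only [Pi.add_apply, Pi.smul_apply, smul_eq_mul]
    ring
  have hQz := hA.pos s hs _ hzne hz0
  rw [Q_comb hA.symm, hz] at hQz
  have h1 : 0 < x 0 * (x 0 * Q A s zz zz - 2 * zz 0 * Q A s x zz) := by nlinarith [hQz]
  have h2 : 0 < x 0 * Q A s zz zz - 2 * zz 0 * Q A s x zz := (pos_iff_pos_of_mul_pos h1).mp hx0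
  rw [hy, Q_comb hA.symm, hz]
  have h3 : 0 < Real.sin r * (Real.sin r * (x 0 * Q A s zz zz - 2 * zz 0 * Q A s x zz)) :=
    mul_pos hsin (mul_pos hsin h2)
  have h4 : 0 ≤ 2 * Real.sin r * Q A s x zz * (Real.cos r * x 0 + Real.sin r * zz 0) := by positivity
  have h5 : 0 < x 0 * (Real.cos r ^ 2 * 0 + 2 * Real.cos r * Real.sin r * Q A s x zz +
      Real.sin r ^ 2 * Q A s zz zz) := by nlinarith [h3, h4]
  exact (pos_iff_pos_of_mul_pos h5).mp hx0

end Pool.Agent.Work.MP_659252_gt.Y
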