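import Pool.Agent.Work.MP_659252_gt.Y.Defs
import Pool.Agent.Work.MP_659252_gt.Z.WDer
import Pool.Agent.Work.MP_659252_gt.Z.HDefs

/-!
# Auxiliary notions

The rotating frame `W1`, `W2` and the half circles `cp`, `cv`, `half` are those of the folder `Z`.
-/

namespace Pool.Agent.Work.MP_659252_gt.Y

open scoped ContDiff
open Pool.Agent.Work.MP_659252_gt.Z (V Ten val W1 W2)

variable {d : ℕ}

/-- `N = |A_s x|²` -/
def NN (A : Path d) (s : ℝ) (x : V d) : ℝ := AX A s x ⬝ᵥ AX A s x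

/-- minus the Gram determinant of `Q_s` on the plane of `x`, `v` -/
def RR (A : Path d) (s : ℝ) (x v : V d) : ℝ := Q A s x v ^ 2 - Q A s x x * Q A s v v

/-- the derivative of `RR` in `s` -/
noncomputable def RR' (A : Path d) (s : ℝ) (x v : V d) : ℝ :=
  2 * Q A s x v * Q (dot A) s x v - Q (dot A) s x x * Q A s v v - Q A s x x * Q (dot A) s v v

/-- `2 (Q(x, x) A v - Q(x, v) A x)` -/
def X1 (A : Path d) (s : ℝ) (x v : V d) : V d := (2 * Q A s x x) • AX A s v - (2 * Q A s x v) • AX A s x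

/-- `2 (Q(x, v) A v - Q(v, v) A x)` -/
def X2 (A : Path d) (s : ℝ) (x v : V d) : V d := (2 * Q A s x v) • AX A s v - (2 * Q A s v v) • AX A s x

/-- the odd function `sign (x_0) B(lev x)` -/
noncomputable def bb (A : Path d) (T : ℝ) (B : ℝ → ℝ) (x : V d) : ℝ := Real.sign (x 0) * B (lev A T x)

/-- `b₁ = bb / M`, `M = Q'(x, x)` -/
noncomputable def b1 (A : Path d) (T : ℝ) (B : ℝ → ℝ) (x : V d) : ℝ := bb A T B x / Q (dot A) (lev A T x) x x

/-- `b = b₁ N` -/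
noncomputable def bN (A : Path d) (T : ℝ) (B : ℝ → ℝ) (x : V d) : ℝ := b1 A T B x * NN A (lev A T x) x

/-- the time factor `1/((1 + b) M)` -/
noncomputable def gg (A : Path d) (T : ℝ) (B : ℝ → ℝ) (x : V d) : ℝ :=
  1 / ((1 + bN A T B x) * Q (dot A) (lev A T x) x x)

/-- `β = b₁ / (2 (1 + b))` -/
noncomputable def be (A : Path d) (T : ℝ) (B : ℝ → ℝ) (x : V d) : ℝ := b1 A T B x / (2 * (1 + bN A T B x))

/-- the hypotheses on `A` and `B`: `B` is smooth and vanishes outside of `lo < s < hi`. -/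
structure Dat (A : Path d) (T : ℝ) (B : ℝ → ℝ) (lo hi : ℝ) : Prop where
  nested : Nested A T
  lo_pos : 0 < lo
  lo_hi : lo < hi
  hi_lt : hi < T
  smooth : ContDiff ℝ ∞ B
  supp : ∀ s, s ∉ Set.Ioo lo hi → B s = 0

/-- `|b| < 1` on the ring -/
def Small (A : Path d) (B : ℝ → ℝ) (lo hi : ℝ) : Prop :=
  ∀ s ∈ Set.Icc lo hi, ∀ x : V d, x ≠ 0 → |B s| * NN A s x < Q (dot A) s x x

/-- solutions of the first order system `x' = v + β X1`, `v' = -x + β X2` on the unit tangent bundle -/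
structure Sol (A : Path d) (T : ℝ) (B : ℝ → ℝ) (x v : ℝ → V d) : Prop where
  xx : ∀ s, x s ⬝ᵥ x s = 1
  xv : ∀ s, x s ⬝ᵥ v s = 0
  vv : ∀ s, v s ⬝ᵥ v s = 1
  dx : ∀ s, HasDerivAt x (v s + be A T B (x s) • X1 A (lev A T (x s)) (x s) (v s)) s
  dv : ∀ s, HasDerivAt v (-x s + be A T B (x s) • X2 A (lev A T (x s)) (x s) (v s)) s

/-- the metric `⟨v, w⟩ + (2 b₁ + b₁² N) ⟨A x, v⟩ ⟨A x, w⟩` -/
noncomputable def Gt (A : Path d) (T : ℝ) (B : ℝ → ℝ) : Ten d := fun x i j =>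
  (if i = j then 1 else 0) + (2 * b1 A T B x + b1 A T B x ^ 2 * NN A (lev A T x) x) *
    (AX A (lev A T x) x i * AX A (lev A T x) x j)

/-- the field `(m, p, w₁, w₂) ↦ (-2 p, -RR'_m(w₁, w₂), (B(m)/2) X1_m(w₁, w₂), (B(m)/2) X2_m(w₁, w₂))` -/
noncomputable def FF (A : Path d) (B : ℝ → ℝ) (z : ℝ × ℝ × V d × V d) : ℝ × ℝ × V d × V d :=
  (-2 * z.2.1, -RR' A z.1 z.2.2.1 z.2.2.2, (B z.1 / 2) • X1 A z.1 z.2.2.1 z.2.2.2,
    (B z.1 / 2) • X2 A z.1 z.2.2.1 z.2.2.2)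

/-- the state `(lev x, Q(x, v), c W1, W2)` -/
noncomputable def ZZ (A : Path d) (T : ℝ) (c : ℝ) (x v : ℝ → V d) (s : ℝ) : ℝ × ℝ × V d × V d :=
  (lev A T (x s), Q A (lev A T (x s)) (x s) (v s), c • W1 x v s, W2 x v s)

/-- `x` is in the closed ring `lo ≤ lev ≤ hi`, and `x_0 > 0` -/
def InRing (A : Path d) (lo hi : ℝ) (x : V d) : Prop := 0 < x 0 ∧ Q A lo x x ≤ 0 ∧ 0 ≤ Q A hi x x

/-- `v = γ' + b₁ Q(γ, γ') A γ` -/
noncomputable def vv (A : Path d) (T : ℝ) (B : ℝ → ℝ) (γ : ℝ → V d) (t : ℝ) : V d :=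
  deriv γ t + (b1 A T B (γ t) * Q A (lev A T (γ t)) (γ t) (deriv γ t)) • AX A (lev A T (γ t)) (γ t)

/-! Derivatives at a point `p` with `lev p = s`, `Q_s(p, p) = 0`, in the direction `w`; `b`, `b'` are the values of `bb`
and of its derivative as a function of the level. -/

/-- `D_w lev` -/
noncomputable def Dlev (A : Path d) (s : ℝ) (p w : V d) : ℝ := -2 * Q A s p w / Q (dot A) s p p

/-- `D_w M`, `M = Q'(p, p)` -/
noncomputable def DM (A : Path d) (s : ℝ) (p w : V d) : ℝ :=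
  2 * Q (dot A) s p w + Dlev A s p w * Q (dot (dot A)) s p p

/-- `D_w N`, `N = |A p|²` -/
noncomputable def DN (A : Path d) (s : ℝ) (p w : V d) : ℝ :=
  2 * (AX A s p ⬝ᵥ AX A s w) + 2 * Dlev A s p w * (AX A s p ⬝ᵥ AX (dot A) s p)

/-- `D_w b₁` -/
noncomputable def Db1 (A : Path d) (s b b' : ℝ) (p w : V d) : ℝ :=
  b' * Dlev A s p w / Q (dot A) s p p - b * DM A s p w / Q (dot A) s p p ^ 2

/-- `D_w k`, `k = 2 b₁ + b₁² N` -/
noncomputable def Dk (A : Path d) (s b b' : ℝ) (p w : V d) : ℝ :=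
  2 * Db1 A s b b' p w + 2 * (b / Q (dot A) s p p) * Db1 A s b b' p w * NN A s p +
    (b / Q (dot A) s p p) ^ 2 * DN A s p w

/-- `k = 2 b₁ + b₁² N` -/
noncomputable def kk (A : Path d) (s b : ℝ) (p : V d) : ℝ :=
  2 * (b / Q (dot A) s p p) + (b / Q (dot A) s p p) ^ 2 * NN A s p

/-- derivative of `Q(lev γ)(γ, γ')` along a curve with `γ = p`, `γ' = p1`, `γ'' = p2` -/
noncomputable def Dq (A : Path d) (s : ℝ) (p p1 p2 : V d) : ℝ :=
  Q A s p1 p1 + Q A s p p2 + Dlev A s p p1 * Q (dot A) s p p1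

theorem Dat.lo_mem {A : Path d} {T : ℝ} {B : ℝ → ℝ} {lo hi : ℝ} (D : Dat A T B lo hi) : lo ∈ Set.Ioo 0 T :=
  ⟨D.lo_pos, D.lo_hi.trans D.hi_lt⟩

theorem Dat.hi_mem {A : Path d} {T : ℝ} {B : ℝ → ℝ} {lo hi : ℝ} (D : Dat A T B lo hi) : hi ∈ Set.Ioo 0 T :=
  ⟨D.lo_pos.trans D.lo_hi, D.hi_lt⟩

theorem Dat.mem {A : Path d} {T : ℝ} {B : ℝ → ℝ} {lo hi : ℝ} (D : Dat A T B lo hi) {s : ℝ} (h1 : lo ≤ s)
    (h2 : s ≤ hi) : s ∈ Set.Ioo 0 T :=
  ⟨D.lo_pos.trans_le h1, h2.trans_lt D.hi_lt⟩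

theorem Dat.neg {A : Path d} {T : ℝ} {B : ℝ → ℝ} {lo hi : ℝ} (D : Dat A T B lo hi) :
    Dat A T (fun s => -B s) lo hi :=
  ⟨D.nested, D.lo_pos, D.lo_hi, D.hi_lt, D.smooth.neg, fun s h => by rw [D.supp s h, neg_zero]⟩

theorem Small.neg {A : Path d} {B : ℝ → ℝ} {lo hi : ℝ} (h : Small A B lo hi) : Small A (fun s => -B s) lo hi :=
  fun s hs x hx => by rw [abs_neg]; exact h s hs x hx

theorem dot_symm {A : Path d} (hs : ∀ s i j, A s i j = A s j i) : ∀ s i j, dot A s i j = dot A s j i := by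
  intro s i j
  unfold dot
  congr 1
  funext u
  exact hs u i j

theorem Q_comm {A : Path d} (hs : ∀ s i j, A s i j = A s j i) (s : ℝ) (x y : V d) : Q A s x y = Q A s y x := by
  unfold Q
  rw [Finset.sum_comm]
  refine Finset.sum_congr rfl fun i _ => Finset.sum_congr rfl fun j _ => ?_
  rw [hs s j i, mul_comm (x j)]

theorem Q_add (A : Path d) (s : ℝ) (x y z : V d) : Q A s (x + y) z = Q A s x z + Q A s y z := by
  unfold Q
  simp only [← Finset.sum_add_distrib]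
  exact Finset.sum_congr rfl fun i _ => Finset.sum_congr rfl fun j _ => by rw [Pi.add_apply]; ring

theorem Q_smul (A : Path d) (s c : ℝ) (x z : V d) : Q A s (c • x) z = c * Q A s x z := by
  unfold Q
  simp only [Finset.mul_sum]
  exact Finset.sum_congr rfl fun i _ => Finset.sum_congr rfl fun j _ => by rw [Pi.smul_apply, smul_eq_mul]; ring

theorem Q_neg (A : Path d) (s : ℝ) (x z : V d) : Q A s (-x) z = -Q A s x z := by
  have h := Q_smul A s (-1) x z
  rwa [neg_one_smul, neg_one_mul] at h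

theorem Q_add_right (A : Path d) (s : ℝ) (x y z : V d) : Q A s x (y + z) = Q A s x y + Q A s x z := by
  unfold Q
  simp only [← Finset.sum_add_distrib]
  exact Finset.sum_congr rfl fun i _ => Finset.sum_congr rfl fun j _ => by rw [Pi.add_apply]; ring

theorem Q_smul_right (A : Path d) (s c : ℝ) (x z : V d) : Q A s x (c • z) = c * Q A s x z := by
  unfold Q
  simp only [Finset.mul_sum]
  exact Finset.sum_congr rfl fun i _ => Finset.sum_congr rfl fun j _ => by rw [Pi.smul_apply, smul_eq_mul]; ring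

theorem Q_neg_right (A : Path d) (s : ℝ) (x z : V d) : Q A s x (-z) = -Q A s x z := by
  have h := Q_smul_right A s (-1) x z
  rwa [neg_one_smul, neg_one_mul] at h

theorem Q_eq_dot (A : Path d) (s : ℝ) (x y : V d) : Q A s x y = x ⬝ᵥ AX A s y := by
  unfold Q AX dotProduct
  refine Finset.sum_congr rfl fun i _ => ?_
  rw [Finset.mul_sum]
  exact Finset.sum_congr rfl fun j _ => by ring

theorem Q_eq_dot' {A : Path d} (hs : ∀ s i j, A s i j = A s j i) (s : ℝ) (x y : V d) :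
    Q A s x y = AX A s x ⬝ᵥ y := by
  rw [Q_comm hs, Q_eq_dot, dotProduct_comm]

theorem AX_add (A : Path d) (s : ℝ) (x y : V d) : AX A s (x + y) = AX A s x + AX A s y := by
  funext i
  simp only [AX, Pi.add_apply, ← Finset.sum_add_distrib]
  exact Finset.sum_congr rfl fun j _ => by ring

theorem AX_smul (A : Path d) (s c : ℝ) (x : V d) : AX A s (c • x) = c • AX A s x := by
  funext i
  simp only [AX, Pi.smul_apply, smul_eq_mul, Finset.mul_sum]
  exact Finset.sum_congr rfl fun j _ => by ring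

theorem AX_neg (A : Path d) (s : ℝ) (x : V d) : AX A s (-x) = -AX A s x := by
  have h := AX_smul A s (-1) x
  rwa [neg_one_smul, neg_one_smul] at h

theorem NN_nonneg (A : Path d) (s : ℝ) (x : V d) : 0 ≤ NN A s x := by
  unfold NN dotProduct
  exact Finset.sum_nonneg fun i _ => mul_self_nonneg _

theorem be_eq (A : Path d) (T : ℝ) (B : ℝ → ℝ) (x : V d) : be A T B x = bb A T B x / 2 * gg A T B x := by
  unfold be gg b1
  by_cases h1 : Q (dot A) (lev A T x) x x = 0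
  · rw [h1]
    simp
  · by_cases h2 : 1 + bN A T B x = 0
    · rw [h2]
      simp
    · field_simp

end Pool.Agent.Work.MP_659252_gt.Y
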