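import Pool.Agent.Work.MP_659252_gt.Y.Qm

/-!
# The field `FF` is smooth.  Size: S-M.  (Adapt the proofs of `Z/FLip.lean`.)

PROOF.  On `{z | z.1 ∈ (0, T)}` the functions `z ↦ A z.1 i j`, `z ↦ dot A z.1 i j` are smooth (`hA.smooth`, `dot_smooth`, composed with `z ↦ z.1`), the components of `FF` are finite
sums and products of these, of coordinate functions and of the smooth function `B z.1`.  Open: preimage of the open interval under `z ↦ z.1`.
-/

namespace Pool.Agent.Work.MP_659252_gt.Y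

open scoped ContDiff
open Pool.Agent.Work.MP_659252_gt.Z (V)

variable {d : ℕ} {A : Path d} {T : ℝ} {B : ℝ → ℝ}

private theorem cQ {S : Set (ℝ × ℝ × V d × V d)} {M : Path d}
    (hM : ∀ i j, ContDiffOn ℝ 1 (fun z : ℝ × ℝ × V d × V d => M z.1 i j) S)
    {f g : ℝ × ℝ × V d × V d → V d} (hf : ∀ i, ContDiffOn ℝ 1 (fun z => f z i) S)
    (hg : ∀ i, ContDiffOn ℝ 1 (fun z => g z i) S) :
    ContDiffOn ℝ 1 (fun z => Q M z.1 (f z) (g z)) S := by
  unfold Q
  refine ContDiffOn.sum fun i _ => ContDiffOn.sum fun j _ => ?_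
  exact (hM i j).mul ((hf i).mul (hg j))

private theorem cAX {S : Set (ℝ × ℝ × V d × V d)} {M : Path d}
    (hM : ∀ i j, ContDiffOn ℝ 1 (fun z : ℝ × ℝ × V d × V d => M z.1 i j) S)
    {f : ℝ × ℝ × V d × V d → V d} (hf : ∀ i, ContDiffOn ℝ 1 (fun z => f z i) S)
    (i : Fin (d + 1)) : ContDiffOn ℝ 1 (fun z => AX M z.1 (f z) i) S := by
  unfold AX
  refine ContDiffOn.sum fun j _ => ?_
  exact (hM i j).mul (hf j)

theorem FF_contDiffOn (hA : Nested A T) (hB : ContDiff ℝ ∞ B) :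
    ContDiffOn ℝ 1 (FF A B) {z | z.1 ∈ Set.Ioo 0 T} := by
  set S : Set (ℝ × ℝ × V d × V d) := {z | z.1 ∈ Set.Ioo 0 T} with hS
  have hp : ContDiffOn ℝ 1 (fun z : ℝ × ℝ × V d × V d => z.2.1) S :=
    (contDiff_fst.comp contDiff_snd).contDiffOn
  have hx' : ContDiff ℝ 1 (fun z : ℝ × ℝ × V d × V d => z.2.2.1) :=
    contDiff_fst.comp (contDiff_snd.comp contDiff_snd)
  have hv' : ContDiff ℝ 1 (fun z : ℝ × ℝ × V d × V d => z.2.2.2) :=
    contDiff_snd.comp (contDiff_snd.comp contDiff_snd)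
  have hx : ∀ i, ContDiffOn ℝ 1 (fun z : ℝ × ℝ × V d × V d => z.2.2.1 i) S :=
    fun i => (contDiff_pi.1 hx' i).contDiffOn
  have hv : ∀ i, ContDiffOn ℝ 1 (fun z : ℝ × ℝ × V d × V d => z.2.2.2 i) S :=
    fun i => (contDiff_pi.1 hv' i).contDiffOn
  have hm : ∀ i j, ContDiffOn ℝ 1 (fun z : ℝ × ℝ × V d × V d => A z.1 i j) S := fun i j =>
    ((hA.smooth i j).of_le (by exact_mod_cast le_top)).comp
      (s := S) contDiff_fst.contDiffOn (fun z hz => hz)
  have hm' : ∀ i j, ContDiffOn ℝ 1 (fun z : ℝ × ℝ × V d × V d => dot A z.1 i j) S := fun i j =>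
    ((dot_smooth hA i j).of_le (by exact_mod_cast le_top)).comp
      (s := S) contDiff_fst.contDiffOn (fun z hz => hz)
  have qxx := cQ hm hx hx
  have qxv := cQ hm hx hv
  have qvv := cQ hm hv hv
  have q2xx := cQ hm' hx hx
  have q2xv := cQ hm' hx hv
  have q2vv := cQ hm' hv hv
  have ax := cAX hm hx
  have av := cAX hm hv
  have hBm : ContDiffOn ℝ 1 (fun z : ℝ × ℝ × V d × V d => B z.1 / 2) S :=
    ((hB.of_le (by exact_mod_cast le_top)).comp contDiff_fst).contDiffOn.div_const 2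
  have hR : ContDiffOn ℝ 1 (fun z : ℝ × ℝ × V d × V d => -RR' A z.1 z.2.2.1 z.2.2.2) S := by
    unfold RR'
    exact ((((contDiffOn_const (c := (2 : ℝ))).mul qxv).mul q2xv).sub (q2xx.mul qvv)
      |>.sub (qxx.mul q2vv)).neg
  have h1 : ContDiffOn ℝ 1 (fun z : ℝ × ℝ × V d × V d => (B z.1 / 2) • X1 A z.1 z.2.2.1 z.2.2.2) S := by
    rw [contDiffOn_pi]
    intro i
    refine hBm.mul ?_
    unfold X1
    exact ((((contDiffOn_const (c := (2 : ℝ))).mul qxx).mul (av i))).sub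
      (((contDiffOn_const (c := (2 : ℝ))).mul qxv).mul (ax i))
  have h2 : ContDiffOn ℝ 1 (fun z : ℝ × ℝ × V d × V d => (B z.1 / 2) • X2 A z.1 z.2.2.1 z.2.2.2) S := by
    rw [contDiffOn_pi]
    intro i
    refine hBm.mul ?_
    unfold X2
    exact ((((contDiffOn_const (c := (2 : ℝ))).mul qxv).mul (av i))).sub
      (((contDiffOn_const (c := (2 : ℝ))).mul qvv).mul (ax i))
  exact ((contDiffOn_const (c := (-2 : ℝ))).mul hp).prodMk (hR.prodMk (h1.prodMk h2))

theorem FF_open (d : ℕ) (T : ℝ) : IsOpen {z : ℝ × ℝ × V d × V d | z.1 ∈ Set.Ioo 0 T} :=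
  isOpen_Ioo.preimage continuous_fst

end Pool.Agent.Work.MP_659252_gt.Y
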