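import Pool.Agent.Work.MP_659252_gt.Y.Zpm
import Pool.Agent.Work.MP_659252_gt.Y.FLip
import Pool.Agent.Work.MP_659252_gt.Z.Comp

/-!
# One ring passage: comparison of a solution for `B` and a solution for `-B`.  Size: S-M.  (Adapt the proof of `Z/CmpA.lean`.)

`(x, v)` solves the system for `B` on the ring times `[a, b]`, `(x', v')` solves it for `-B` on the ring times `[a', b']`.  Both start at the same
state: `ZZ A T 1 x v a = ZZ A T (-1) x' v' a'`, and end at the first time at which a function `e` of the level vanishes.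
PROOF.  `Z.comparison` with `F = FF A B`, `U = {z | z.1 ∈ (0, T)}`, `e z = e z.1`, `g s = gg A T B (x s)`, `g' s = gg A T (-B) (x' s)` (positive and continuous:
`gg_pos`, `gg_cont`, `x` continuous), `Z_plus`, `Z_minus`; the states are in `U` by `ring_mem`.  (`D.neg`, `hB.neg` for `-B`; the ring condition `InRing` does not depend on `B`.)
-/

namespace Pool.Agent.Work.MP_659252_gt.Y

open Pool.Agent.Work.MP_659252_gt.Z (V W1 W2)

variable {d : ℕ} {A : Path d} {T : ℝ} {B : ℝ → ℝ} {lo hi : ℝ}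

theorem ring_compare (D : Dat A T B lo hi) (hB : Small A B lo hi) {x v x' v' : ℝ → V d}
    (h : Sol A T B x v) (h' : Sol A T (fun s => -B s) x' v') {a b a' b' : ℝ} (hab : a < b) (hab' : a' < b')
    (hr : ∀ s ∈ Set.Icc a b, InRing A lo hi (x s)) (hr' : ∀ s ∈ Set.Icc a' b', InRing A lo hi (x' s))
    (h0 : ZZ A T 1 x v a = ZZ A T (-1) x' v' a') (e : ℝ → ℝ)
    (he : ∀ s ∈ Set.Ioo a b, e (lev A T (x s)) ≠ 0) (heb : e (lev A T (x b)) = 0)
    (he' : ∀ s ∈ Set.Ioo a' b', e (lev A T (x' s)) ≠ 0) (heb' : e (lev A T (x' b')) = 0) :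
    ZZ A T 1 x v b = ZZ A T (-1) x' v' b' := by
  refine Z.comparison (FF A B) {z | z.1 ∈ Set.Ioo 0 T} (FF_open d T)
    (FF_contDiffOn D.nested D.smooth)
    (fun z => e z.1) hab hab' (ZZ A T 1 x v) (ZZ A T (-1) x' v') (fun s => gg A T B (x s))
    (fun s => gg A T (fun s => -B s) (x' s)) ?_ ?_ ?_ ?_ ?_ ?_ ?_ ?_ h0 ?_ ?_ ?_ ?_
  · intro s hs
    have h1 : ContinuousAt (gg A T B) (x s) := gg_cont D hB (x s) (hr s hs)
    exact (ContinuousAt.comp (g := gg A T B) (f := x) h1 (h.dx s).continuousAt).continuousWithinAt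
  · intro s hs
    have h1 : ContinuousAt (gg A T (fun s => -B s)) (x' s) :=
      gg_cont D.neg hB.neg (x' s) (hr' s hs)
    exact (ContinuousAt.comp (g := gg A T (fun s => -B s)) (f := x') h1
      (h'.dx s).continuousAt).continuousWithinAt
  · intro s hs
    exact gg_pos D hB (x s) (hr s hs)
  · intro s hs
    exact gg_pos D.neg hB.neg (x' s) (hr' s hs)
  · intro s hs
    exact Z_plus D hB h s (hr s hs)
  · intro s hs
    exact Z_minus D hB h' s (hr' s hs)
  · intro s hs
    exact (ring_mem D (x s) (hr s hs)).2.2.1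
  · intro s hs
    exact (ring_mem D (x' s) (hr' s hs)).2.2.1
  · intro s hs
    exact he s hs
  · exact heb
  · intro s hs
    exact he' s hs
  · exact heb'

end Pool.Agent.Work.MP_659252_gt.Y
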