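import Pool.Agent.Work.MP_659252_gt.Y.Lev

/-!
# Bounds by compactness.  Size: M.

Let `K = {(s, x) | lo ≤ s ≤ hi, x ⬝ x = 1}`: compact.  On `K` the functions `Q (dot A) s x x`, `NN A s x`, `A s i j` are continuous (`A_smooth₂`, `dot_smooth₂`), so
`Q (dot A) s x x ≥ c > 0` (`hA.mono`, attained minimum; if `K` is empty, i.e. never, take `c = 1`), `NN A s x ≤ N₀`, `|A s i j| ≤ a`.
PROOF of `bound`.  `κ = c/(2 (N₀ + 1))`.  Let `|B| ≤ ε ≤ κ`.  `Small`: for `x ≠ 0` put `x = r x̂`, `r = √(x ⬝ x)`: both sides scale by `r²`, and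
`|B s| NN A s x̂ ≤ κ N₀ < c ≤ Q (dot A) s x̂ x̂`.
Estimates: if `bb A T B x = 0` both sides are `0` (`be = 0`).  Otherwise `s = lev A T x ∈ [lo, hi]` (`bb_eq_zero` contraposed, `lev_root`), `|b1| = |bb|/M ≤ ε/c`,
`|bN| = |bb| N/M ≤ κ N₀/c ≤ 1/2`, so `|be| ≤ |b1|/(2 (1/2)) ≤ ε/c`.  With `|x_i|, |v_i| ≤ 1`: `|Q A s y z| ≤ (d+1)² a`, `|(A y)_i| ≤ (d+1) a`, `|X1 i|, |X2 i| ≤ 4 (d+1)³ a²`.
`C = 4 (d+1)³ a²/c + 1`.
PROOF of `below`.  The set `{x | x ⬝ x = 1, Q A lo x x ≤ 0}` is compact, and `x 0 ≠ 0` on it (`Q_ne`), so `x 0 ^ 2 ≥ δ²` there for some `δ > 0` (if it is empty take `δ = 1`).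
-/

namespace Pool.Agent.Work.MP_659252_gt.Y

open Pool.Agent.Work.MP_659252_gt.Z (V)

variable {d : ℕ} {A : Path d} {T lo hi : ℝ}

private theorem sq_le {x : V d} (hx : x ⬝ᵥ x = 1) (i : Fin (d + 1)) : |x i| ≤ 1 := by
  have h1 : x i * x i ≤ x ⬝ᵥ x :=
    Finset.single_le_sum (f := fun i => x i * x i) (fun j _ => mul_self_nonneg (x j)) (Finset.mem_univ i)
  rw [hx] at h1
  have h2 : x i ^ 2 ≤ 1 := by rw [sq]; exact h1
  exact (sq_le_one_iff_abs_le_one _).1 h2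

private theorem sphere_compact : IsCompact {x : V d | x ⬝ᵥ x = 1} := by
  apply Metric.isCompact_of_isClosed_isBounded
  · apply isClosed_eq
    · unfold dotProduct
      fun_prop
    · exact continuous_const
  · refine (Metric.isBounded_closedBall (x := (0 : V d)) (r := 1)).subset ?_
    intro x hx
    rw [Metric.mem_closedBall, dist_zero_right, pi_norm_le_iff_of_nonneg zero_le_one]
    intro i
    exact sq_le hx i

private theorem ring_compact (lo hi : ℝ) : IsCompact {p : V d × ℝ | p.1 ⬝ᵥ p.1 = 1 ∧ p.2 ∈ Set.Icc lo hi} := by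
  have h := (sphere_compact (d := d)).prod (isCompact_Icc (a := lo) (b := hi))
  exact h

private theorem Qd_cont (hA : Nested A T) :
    ContinuousOn (fun p : V d × ℝ => Q (dot A) p.2 p.1 p.1) {p | p.2 ∈ Set.Ioo 0 T} := by
  unfold Q
  apply continuousOn_finset_sum
  intro i _
  apply continuousOn_finset_sum
  intro j _
  apply ContinuousOn.mul
  · exact (dot_smooth₂ hA i j).continuousOn
  · exact Continuous.continuousOn (by fun_prop)

private theorem NN_cont (hA : Nested A T) :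
    ContinuousOn (fun p : V d × ℝ => NN A p.2 p.1) {p | p.2 ∈ Set.Ioo 0 T} := by
  unfold NN dotProduct AX
  apply continuousOn_finset_sum
  intro i _
  have h : ContinuousOn (fun p : V d × ℝ => ∑ j, A p.2 i j * p.1 j) {p | p.2 ∈ Set.Ioo 0 T} := by
    apply continuousOn_finset_sum
    intro j _
    apply ContinuousOn.mul
    · exact (A_smooth₂ hA i j).continuousOn
    · exact Continuous.continuousOn (by fun_prop)
  exact h.mul h

private theorem scale {x : V d} (hx : x ≠ 0) : ∃ (r : ℝ) (y : V d), 0 < r ∧ y ⬝ᵥ y = 1 ∧ x = r • y := by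
  have h1 : 0 < x ⬝ᵥ x := by
    rcases lt_or_eq_of_le (show 0 ≤ x ⬝ᵥ x from Finset.sum_nonneg fun i _ => mul_self_nonneg _) with h | h
    · exact h
    · exact absurd (dotProduct_self_eq_zero.1 h.symm) hx
  have h2 : 0 < Real.sqrt (x ⬝ᵥ x) := Real.sqrt_pos.2 h1
  refine ⟨Real.sqrt (x ⬝ᵥ x), (Real.sqrt (x ⬝ᵥ x))⁻¹ • x, h2, ?_, ?_⟩
  · rw [smul_dotProduct, dotProduct_smul, smul_eq_mul, smul_eq_mul]
    have h3 := Real.mul_self_sqrt h1.le
    field_simp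
    rw [sq, h3]
  · rw [smul_smul, mul_inv_cancel₀ h2.ne', one_smul]

private theorem exists_c (hA : Nested A T) (hlo : 0 < lo) (hhi : hi < T) :
    ∃ c : ℝ, 0 < c ∧ ∀ s ∈ Set.Icc lo hi, ∀ x : V d, x ⬝ᵥ x = 1 → c ≤ Q (dot A) s x x := by
  by_cases hne : {p : V d × ℝ | p.1 ⬝ᵥ p.1 = 1 ∧ p.2 ∈ Set.Icc lo hi}.Nonempty
  · have hsub : {p : V d × ℝ | p.1 ⬝ᵥ p.1 = 1 ∧ p.2 ∈ Set.Icc lo hi} ⊆ {p | p.2 ∈ Set.Ioo 0 T} :=
      fun p hp => ⟨hlo.trans_le hp.2.1, hp.2.2.trans_lt hhi⟩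
    obtain ⟨p, hp, hmin⟩ := (ring_compact lo hi).exists_isMinOn hne ((Qd_cont hA).mono hsub)
    refine ⟨Q (dot A) p.2 p.1 p.1, hA.mono _ (hsub hp) _ ?_, ?_⟩
    · intro h0
      have h1 := hp.1
      rw [h0, zero_dotProduct] at h1
      exact zero_ne_one h1
    · intro s hs x hx
      exact hmin (show (x, s) ∈ _ from ⟨hx, hs⟩)
  · refine ⟨1, one_pos, fun s hs x hx => ?_⟩
    exact absurd ⟨(x, s), hx, hs⟩ hne

private theorem exists_N (hA : Nested A T) (hlo : 0 < lo) (hhi : hi < T) :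
    ∃ N : ℝ, 0 ≤ N ∧ ∀ s ∈ Set.Icc lo hi, ∀ x : V d, x ⬝ᵥ x = 1 → NN A s x ≤ N := by
  have hsub : {p : V d × ℝ | p.1 ⬝ᵥ p.1 = 1 ∧ p.2 ∈ Set.Icc lo hi} ⊆ {p | p.2 ∈ Set.Ioo 0 T} :=
    fun p hp => ⟨hlo.trans_le hp.2.1, hp.2.2.trans_lt hhi⟩
  obtain ⟨N, hN⟩ := (ring_compact (d := d) lo hi).exists_bound_of_continuousOn ((NN_cont hA).mono hsub)
  refine ⟨max N 0, le_max_right _ _, fun s hs x hx => ?_⟩
  have h1 := hN (x, s) ⟨hx, hs⟩
  rw [Real.norm_eq_abs] at h1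
  exact ((le_abs_self _).trans h1).trans (le_max_left _ _)

private theorem exists_a (hA : Nested A T) (hlo : 0 < lo) (hhi : hi < T) :
    ∃ a : ℝ, 0 ≤ a ∧ ∀ s ∈ Set.Icc lo hi, ∀ i j, |A s i j| ≤ a := by
  have h1 : ∀ i j, ∃ a : ℝ, ∀ s ∈ Set.Icc lo hi, |A s i j| ≤ a := by
    intro i j
    have hc : ContinuousOn (fun s => A s i j) (Set.Icc lo hi) :=
      (hA.smooth i j).continuousOn.mono (fun s hs => ⟨hlo.trans_le hs.1, hs.2.trans_lt hhi⟩)
    obtain ⟨a, ha⟩ := (isCompact_Icc (a := lo) (b := hi)).exists_bound_of_continuousOn hc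
    exact ⟨a, fun s hs => ha s hs⟩
  choose a ha using h1
  refine ⟨∑ i, ∑ j, |a i j|, Finset.sum_nonneg fun i _ => Finset.sum_nonneg fun j _ => abs_nonneg _, ?_⟩
  intro s hs i j
  calc |A s i j| ≤ |a i j| := (ha i j s hs).trans (le_abs_self _)
    _ ≤ ∑ j, |a i j| := Finset.single_le_sum (f := fun j => |a i j|) (fun j _ => abs_nonneg _) (Finset.mem_univ j)
    _ ≤ ∑ i, ∑ j, |a i j| := Finset.single_le_sum (f := fun i => ∑ j, |a i j|)
        (fun i _ => Finset.sum_nonneg fun j _ => abs_nonneg _) (Finset.mem_univ i)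

private theorem AX_le {a s : ℝ} (ha : ∀ i j, |A s i j| ≤ a) (ha0 : 0 ≤ a) {y : V d} (hy : ∀ i, |y i| ≤ 1)
    (i : Fin (d + 1)) : |AX A s y i| ≤ (d + 1) * a := by
  unfold AX
  refine (Finset.abs_sum_le_sum_abs _ _).trans ?_
  have h : ∀ j ∈ (Finset.univ : Finset (Fin (d + 1))), |A s i j * y j| ≤ a := by
    intro j _
    rw [abs_mul]
    calc |A s i j| * |y j| ≤ a * 1 := mul_le_mul (ha i j) (hy j) (abs_nonneg _) ha0
      _ = a := mul_one a
  refine (Finset.sum_le_sum h).trans ?_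
  rw [Finset.sum_const, Finset.card_univ, Fintype.card_fin, nsmul_eq_mul]
  push_cast
  exact le_refl _

private theorem Q_le {a s : ℝ} (ha : ∀ i j, |A s i j| ≤ a) (ha0 : 0 ≤ a) {y z : V d} (hy : ∀ i, |y i| ≤ 1)
    (hz : ∀ i, |z i| ≤ 1) : |Q A s y z| ≤ (d + 1) * ((d + 1) * a) := by
  rw [Q_eq_dot]
  unfold dotProduct
  refine (Finset.abs_sum_le_sum_abs _ _).trans ?_
  have hp : 0 ≤ ((d : ℝ) + 1) * a := by positivity
  have h : ∀ i ∈ (Finset.univ : Finset (Fin (d + 1))), |y i * AX A s z i| ≤ (d + 1) * a := by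
    intro i _
    rw [abs_mul]
    calc |y i| * |AX A s z i| ≤ 1 * ((d + 1) * a) := mul_le_mul (hy i) (AX_le ha ha0 hz i) (abs_nonneg _) zero_le_one
      _ = (d + 1) * a := one_mul _
  refine (Finset.sum_le_sum h).trans ?_
  rw [Finset.sum_const, Finset.card_univ, Fintype.card_fin, nsmul_eq_mul]
  push_cast
  exact le_refl _

private theorem X_le {a s : ℝ} (ha : ∀ i j, |A s i j| ≤ a) (ha0 : 0 ≤ a) {y z p q : V d} (hy : ∀ i, |y i| ≤ 1)
    (hz : ∀ i, |z i| ≤ 1) (hp : ∀ i, |p i| ≤ 1) (hq : ∀ i, |q i| ≤ 1) (hv : ∀ i, |y i| ≤ 1) {w : V d}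
    (hw : ∀ i, |w i| ≤ 1) (i : Fin (d + 1)) :
    |((2 * Q A s y z) • AX A s p - (2 * Q A s w q) • AX A s y) i| ≤ 4 * (d + 1) ^ 3 * a ^ 2 := by
  have e : ((2 * Q A s y z) • AX A s p - (2 * Q A s w q) • AX A s y) i =
      2 * (Q A s y z * AX A s p i) - 2 * (Q A s w q * AX A s y i) := by
    simp only [Pi.sub_apply, Pi.smul_apply, smul_eq_mul]
    ring
  rw [e]
  have hP : 0 ≤ ((d : ℝ) + 1) * ((d + 1) * a) := by positivity
  have h1 : |Q A s y z * AX A s p i| ≤ ((d + 1) * ((d + 1) * a)) * ((d + 1) * a) := by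
    rw [abs_mul]
    exact mul_le_mul (Q_le ha ha0 hy hz) (AX_le ha ha0 hp i) (abs_nonneg _) hP
  have h2 : |Q A s w q * AX A s y i| ≤ ((d + 1) * ((d + 1) * a)) * ((d + 1) * a) := by
    rw [abs_mul]
    exact mul_le_mul (Q_le ha ha0 hw hq) (AX_le ha ha0 hy i) (abs_nonneg _) hP
  have h3 := abs_le.1 h1
  have h4 := abs_le.1 h2
  have e2 : ((d : ℝ) + 1) * ((d + 1) * a) * ((d + 1) * a) = (d + 1) ^ 3 * a ^ 2 := by ring
  rw [e2] at h3 h4
  rw [abs_le]
  constructor <;> linarith [h3.1, h3.2, h4.1, h4.2]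

theorem bound (hA : Nested A T) (hlo : 0 < lo) (hlt : lo < hi) (hhi : hi < T) :
    ∃ C κ : ℝ, 0 < C ∧ 0 < κ ∧ ∀ (B : ℝ → ℝ) (ε : ℝ), Dat A T B lo hi → 0 ≤ ε → ε ≤ κ → (∀ s, |B s| ≤ ε) →
      Small A B lo hi ∧
      ∀ x v : V d, x ⬝ᵥ x = 1 → x ⬝ᵥ v = 0 → v ⬝ᵥ v = 1 → ∀ i,
        |be A T B x * X1 A (lev A T x) x v i| ≤ C * ε ∧ |be A T B x * X2 A (lev A T x) x v i| ≤ C * ε := by
  obtain ⟨c, hc, hcM⟩ := exists_c hA hlo hhi
  obtain ⟨N₀, hN₀, hN⟩ := exists_N hA hlo hhi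
  obtain ⟨a, ha0, ha⟩ := exists_a hA hlo hhi
  have hd3 : 0 ≤ 4 * ((d : ℝ) + 1) ^ 3 * a ^ 2 := by positivity
  refine ⟨4 * (d + 1) ^ 3 * a ^ 2 / c + 1, c / (2 * (N₀ + 1)), by positivity, by positivity, ?_⟩
  intro B ε D hε0 hεκ hB
  have hκ : ε * N₀ ≤ c / 2 := by
    have h1 : ε * N₀ ≤ c / (2 * (N₀ + 1)) * (N₀ + 1) :=
      mul_le_mul hεκ (by linarith) hN₀ (by positivity)
    have h2 : c / (2 * (N₀ + 1)) * (N₀ + 1) = c / 2 := by
      field_simp
    linarith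
  constructor
  · intro s hs x hx
    obtain ⟨r, y, hr, hy, rfl⟩ := scale hx
    have e1 : NN A s (r • y) = r ^ 2 * NN A s y := by
      unfold NN
      rw [AX_smul, smul_dotProduct, dotProduct_smul, smul_eq_mul, smul_eq_mul]
      ring
    have e2 : Q (dot A) s (r • y) (r • y) = r ^ 2 * Q (dot A) s y y := by
      rw [Q_smul, Q_smul_right]
      ring
    rw [e1, e2]
    have h1 : |B s| * NN A s y ≤ ε * N₀ := mul_le_mul (hB s) (hN s hs y hy) (NN_nonneg A s y) hε0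
    have h2 := hcM s hs y hy
    have h3 : |B s| * NN A s y < Q (dot A) s y y := by linarith
    have h4 := mul_lt_mul_of_pos_left h3 (pow_pos hr 2)
    calc |B s| * (r ^ 2 * NN A s y) = r ^ 2 * (|B s| * NN A s y) := by ring
      _ < r ^ 2 * Q (dot A) s y y := h4
  · intro x v hx hxv hv i
    have hC : 0 ≤ (4 * (d + 1) ^ 3 * a ^ 2 / c + 1) * ε := by positivity
    by_cases hbb : bb A T B x = 0
    · have hbe : be A T B x = 0 := by
        rw [be_eq, hbb, zero_div, zero_mul]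
      rw [hbe, zero_mul, zero_mul, abs_zero]
      exact ⟨hC, hC⟩
    have hx0 : x ≠ 0 := by
      intro h0
      rw [h0, zero_dotProduct] at hx
      exact zero_ne_one hx
    have hnot : ¬ (0 ≤ Q A lo x x ∨ Q A hi x x ≤ 0) := fun h => hbb (bb_eq_zero D x hx0 h)
    push Not at hnot
    obtain ⟨h1, h2, -⟩ := lev_root hA D.lo_mem D.hi_mem hlt.le x hx0 hnot.1.le hnot.2.le
    have hs : lev A T x ∈ Set.Icc lo hi := ⟨h1, h2⟩
    have hM := hcM _ hs x hx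
    have hNx := hN _ hs x hx
    have hNx0 := NN_nonneg A (lev A T x) x
    have haa := ha _ hs
    have hbbε : |bb A T B x| ≤ ε := by
      unfold bb
      rw [abs_mul]
      have h3 : |Real.sign (x 0)| ≤ 1 := by
        rcases Real.sign_apply_eq (x 0) with h | h | h <;> rw [h] <;> norm_num
      calc |Real.sign (x 0)| * |B (lev A T x)| ≤ 1 * ε :=
            mul_le_mul h3 (hB _) (abs_nonneg _) zero_le_one
        _ = ε := one_mul ε
    have hb1 : |b1 A T B x| ≤ ε / c := by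
      unfold b1
      rw [abs_div, abs_of_pos (hc.trans_le hM)]
      exact div_le_div₀ hε0 hbbε hc hM
    have hbN : |bN A T B x| ≤ 1 / 2 := by
      unfold bN
      rw [abs_mul, abs_of_nonneg hNx0]
      have h3 : |b1 A T B x| * NN A (lev A T x) x ≤ ε / c * N₀ :=
        mul_le_mul hb1 hNx hNx0 (by positivity)
      have h4 : ε / c * N₀ = ε * N₀ / c := by ring
      have h5 : ε * N₀ / c ≤ 1 / 2 := by
        rw [div_le_iff₀ hc]
        linarith
      linarith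
    have hbe : |be A T B x| ≤ ε / c := by
      unfold be
      have h3 := abs_le.1 hbN
      have h4 : 1 ≤ |2 * (1 + bN A T B x)| := by
        rw [abs_of_nonneg (by linarith [h3.1])]
        linarith [h3.1]
      rw [abs_div]
      calc |b1 A T B x| / |2 * (1 + bN A T B x)| ≤ |b1 A T B x| / 1 :=
            div_le_div_of_nonneg_left (abs_nonneg _) one_pos h4
        _ = |b1 A T B x| := div_one _
        _ ≤ ε / c := hb1
    have hx1 := sq_le hx
    have hv1 := sq_le hv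
    have hfin : ∀ X : ℝ, |X| ≤ 4 * (d + 1) ^ 3 * a ^ 2 →
        |be A T B x * X| ≤ (4 * (d + 1) ^ 3 * a ^ 2 / c + 1) * ε := by
      intro X hX
      rw [abs_mul]
      have h3 : |be A T B x| * |X| ≤ ε / c * (4 * (d + 1) ^ 3 * a ^ 2) :=
        mul_le_mul hbe hX (abs_nonneg _) (by positivity)
      have h4 : ε / c * (4 * ((d : ℝ) + 1) ^ 3 * a ^ 2) = 4 * (d + 1) ^ 3 * a ^ 2 / c * ε := by ring
      have h5 : (4 * ((d : ℝ) + 1) ^ 3 * a ^ 2 / c + 1) * ε = 4 * (d + 1) ^ 3 * a ^ 2 / c * ε + ε := by ring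
      linarith
    constructor
    · exact hfin _ (X_le haa ha0 hx1 hx1 hv1 hv1 hx1 hx1 i)
    · exact hfin _ (X_le haa ha0 hx1 hv1 hv1 hv1 hx1 hv1 i)

theorem below (hA : Nested A T) (hlo : lo ∈ Set.Ioo 0 T) :
    ∃ δ : ℝ, 0 < δ ∧ ∀ x : V d, x ⬝ᵥ x = 1 → x 0 ^ 2 < δ ^ 2 → 0 < Q A lo x x := by
  have hcl : IsCompact {x : V d | x ⬝ᵥ x = 1 ∧ Q A lo x x ≤ 0} := by
    have hc2 : IsClosed {x : V d | Q A lo x x ≤ 0} := by
      apply isClosed_le
      · unfold Q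
        fun_prop
      · exact continuous_const
    exact (sphere_compact (d := d)).inter_right hc2
  by_cases hne : {x : V d | x ⬝ᵥ x = 1 ∧ Q A lo x x ≤ 0}.Nonempty
  · obtain ⟨y, hy, hmin⟩ := hcl.exists_isMinOn hne
      (f := fun x : V d => x 0 ^ 2) (Continuous.continuousOn (by fun_prop))
    have hy0 : y ≠ 0 := by
      intro h0
      have h1 := hy.1
      rw [h0, zero_dotProduct] at h1
      exact zero_ne_one h1
    have hy1 := Q_ne hA hlo y hy0 hy.2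
    refine ⟨|y 0|, abs_pos.2 hy1, fun x hx hlt => ?_⟩
    by_contra hcon
    push Not at hcon
    have h2 : y 0 ^ 2 ≤ x 0 ^ 2 := hmin (show x ∈ _ from ⟨hx, hcon⟩)
    rw [sq_abs] at hlt
    linarith
  · refine ⟨1, one_pos, fun x hx _ => ?_⟩
    by_contra hcon
    push Not at hcon
    exact hne ⟨x, hx, hcon⟩

end Pool.Agent.Work.MP_659252_gt.Y
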