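import Pool.Agent.Work.MP_659252_gt.Y.Glue

/-!
# Derivatives along a curve at a time where the level is a root.  Size: M.  (Adapt the proofs of `Z/FA.lean`.)

Let `γ` be a smooth curve, `p = γ t ≠ 0`, `p1 = γ' t`, `p2 = γ'' t`, `s = lev A T p ∈ (0, T)` with `Q A s p p = 0`, `M = Q (dot A) s p p > 0` (`hA.mono`).
PROOF.  `lev` is differentiable at `p` with `D_w lev = -2 Q(p,w)/M = Dlev A s p w` (`lev_contDiffAt`, `lev_fderiv`): chain rule gives `fa_lev`.
`fa_bb`: `Real.sign (γ u 0)` is constant near `t` (`p 0 ≠ 0` by `Q_ne`), `B` is differentiable.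
`fa_M`, `fa_N`, `fa_q`, `fa_AX`, `fa_Qw`: finite sums of products of `A (lev (γ u)) i j` or `dot A (lev (γ u)) i j` (derivative `dot A s i j * Dlev`, resp.
`dot (dot A) s i j * Dlev`: `A_deriv`, `dot_deriv` and `fa_lev`) with the coordinates of `γ u`, `deriv γ u`.
`fa_b1`: quotient rule; `fa_k`: `k = 2 b1 + b1² N`, product rule; the result is `Dk A s (bb) (sign B') p p1` by `ring` (`b1 A T B p = bb/M`).
-/

namespace Pool.Agent.Work.MP_659252_gt.Y

open scoped ContDiff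
open Pool.Agent.Work.MP_659252_gt.Z (V)

variable {d : ℕ} {A : Path d} {T : ℝ} {B : ℝ → ℝ}

private theorem hasDerivAt_Q {A : Path d} {m : ℝ → ℝ} {m' : ℝ} {y z : ℝ → V d} {y' z' : V d} {t : ℝ}
    (hAd : ∀ i j, HasDerivAt (fun u => A u i j) (dot A (m t) i j) (m t))
    (hm : HasDerivAt m m' t) (hy : HasDerivAt y y' t) (hz : HasDerivAt z z' t) :
    HasDerivAt (fun s => Q A (m s) (y s) (z s))
      (Q A (m t) y' (z t) + Q A (m t) (y t) z' + m' * Q (dot A) (m t) (y t) (z t)) t := by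
  have hterm : ∀ i j, HasDerivAt (fun s => A (m s) i j * (y s i * z s j))
      (A (m t) i j * (y' i * z t j) + A (m t) i j * (y t i * z' j) +
        m' * (dot A (m t) i j * (y t i * z t j))) t := by
    intro i j
    have h0 : HasDerivAt (fun s => A (m s) i j) (dot A (m t) i j * m') t := (hAd i j).comp t hm
    have h1 := h0.fun_mul ((hasDerivAt_pi.1 hy i).fun_mul (hasDerivAt_pi.1 hz j))
    refine h1.congr_deriv ?_
    ring
  have h2 := HasDerivAt.fun_sum (u := Finset.univ) fun i _ =>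
    HasDerivAt.fun_sum (u := Finset.univ) fun j _ => hterm i j
  unfold Q
  refine h2.congr_deriv ?_
  simp only [Finset.mul_sum, ← Finset.sum_add_distrib]

private theorem hasDerivAt_AX {A : Path d} {m : ℝ → ℝ} {m' : ℝ} {y : ℝ → V d} {y' : V d} {t : ℝ}
    (hAd : ∀ i j, HasDerivAt (fun u => A u i j) (dot A (m t) i j) (m t))
    (hm : HasDerivAt m m' t) (hy : HasDerivAt y y' t) :
    HasDerivAt (fun s => AX A (m s) (y s))
      (AX A (m t) y' + m' • AX (dot A) (m t) (y t)) t := by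
  rw [hasDerivAt_pi]
  intro i
  have hterm : ∀ j, HasDerivAt (fun s => A (m s) i j * y s j)
      (A (m t) i j * y' j + m' * (dot A (m t) i j * y t j)) t := by
    intro j
    have h0 : HasDerivAt (fun s => A (m s) i j) (dot A (m t) i j * m') t := (hAd i j).comp t hm
    have h1 := h0.fun_mul (hasDerivAt_pi.1 hy j)
    refine h1.congr_deriv ?_
    ring
  have h2 := HasDerivAt.fun_sum (u := Finset.univ) fun j _ => hterm j
  unfold AX
  refine h2.congr_deriv ?_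
  simp only [Pi.add_apply, Pi.smul_apply, smul_eq_mul, Finset.mul_sum, ← Finset.sum_add_distrib]

private theorem gd (γ : ℝ → V d) (hγ : ContDiff ℝ ∞ γ) (t : ℝ) : HasDerivAt γ (deriv γ t) t :=
  (hγ.differentiable (by simp) t).hasDerivAt

private theorem gdd (γ : ℝ → V d) (hγ : ContDiff ℝ ∞ γ) (t : ℝ) :
    HasDerivAt (deriv γ) (deriv (deriv γ) t) t := by
  have h : ContDiff ℝ ∞ (deriv γ) := (contDiff_infty_iff_deriv.1 hγ).2
  exact (h.differentiable (by simp) t).hasDerivAt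

theorem fa_lev (hA : Nested A T) (γ : ℝ → V d) (hγ : ContDiff ℝ ∞ γ) (t : ℝ) (hp : γ t ≠ 0)
    (hs : lev A T (γ t) ∈ Set.Ioo 0 T) (hr : Q A (lev A T (γ t)) (γ t) (γ t) = 0) :
    HasDerivAt (fun u => lev A T (γ u)) (Dlev A (lev A T (γ t)) (γ t) (deriv γ t)) t := by
  have h1 : DifferentiableAt ℝ (lev A T) (γ t) :=
    (lev_contDiffAt hA hs (γ t) hp hr).differentiableAt (by simp)
  have h2 := h1.hasFDerivAt.comp_hasDerivAt t (gd γ hγ t)
  rw [lev_fderiv hA hs (γ t) hp hr] at h2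
  exact h2

theorem fa_bb (hA : Nested A T) (hB : ContDiff ℝ ∞ B) (γ : ℝ → V d) (hγ : ContDiff ℝ ∞ γ) (t : ℝ)
    (hp : γ t ≠ 0) (hs : lev A T (γ t) ∈ Set.Ioo 0 T) (hr : Q A (lev A T (γ t)) (γ t) (γ t) = 0) :
    HasDerivAt (fun u => bb A T B (γ u))
      (Real.sign (γ t 0) * deriv B (lev A T (γ t)) * Dlev A (lev A T (γ t)) (γ t) (deriv γ t)) t := by
  have h1 := fa_lev hA γ hγ t hp hs hr
  have hBd : HasDerivAt B (deriv B (lev A T (γ t))) (lev A T (γ t)) :=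
    (hB.differentiable (by simp) _).hasDerivAt
  have h2 := (hBd.comp t h1).const_mul (Real.sign (γ t 0))
  have hx0 : γ t 0 ≠ 0 := Q_ne hA hs (γ t) hp hr.le
  have hc : ContinuousAt (fun u => γ u 0) t :=
    ((continuous_apply 0).comp hγ.continuous).continuousAt
  have hsg : ∀ᶠ u in nhds t, Real.sign (γ u 0) = Real.sign (γ t 0) := by
    rcases lt_or_gt_of_ne hx0 with h | h
    · filter_upwards [hc.eventually (gt_mem_nhds h)] with u hu
      rw [Real.sign_of_neg hu, Real.sign_of_neg h]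
    · filter_upwards [hc.eventually (lt_mem_nhds h)] with u hu
      rw [Real.sign_of_pos hu, Real.sign_of_pos h]
  rw [← mul_assoc] at h2
  refine h2.congr_of_eventuallyEq ?_
  filter_upwards [hsg] with u hu
  unfold bb
  rw [hu]
  rfl

theorem fa_M (hA : Nested A T) (γ : ℝ → V d) (hγ : ContDiff ℝ ∞ γ) (t : ℝ) (hp : γ t ≠ 0)
    (hs : lev A T (γ t) ∈ Set.Ioo 0 T) (hr : Q A (lev A T (γ t)) (γ t) (γ t) = 0) :
    HasDerivAt (fun u => Q (dot A) (lev A T (γ u)) (γ u) (γ u)) (DM A (lev A T (γ t)) (γ t) (deriv γ t)) t := by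
  have h := hasDerivAt_Q (A := dot A) (m := fun u => lev A T (γ u)) (fun i j => dot_deriv hA hs i j)
    (fa_lev hA γ hγ t hp hs hr) (gd γ hγ t) (gd γ hγ t)
  refine h.congr_deriv ?_
  unfold DM
  rw [Q_comm (dot_symm hA.symm) _ (deriv γ t) (γ t)]
  ring

theorem fa_N (hA : Nested A T) (γ : ℝ → V d) (hγ : ContDiff ℝ ∞ γ) (t : ℝ) (hp : γ t ≠ 0)
    (hs : lev A T (γ t) ∈ Set.Ioo 0 T) (hr : Q A (lev A T (γ t)) (γ t) (γ t) = 0) :
    HasDerivAt (fun u => NN A (lev A T (γ u)) (γ u)) (DN A (lev A T (γ t)) (γ t) (deriv γ t)) t := by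
  have h := hasDerivAt_AX (A := A) (m := fun u => lev A T (γ u)) (fun i j => A_deriv hA hs i j)
    (fa_lev hA γ hγ t hp hs hr) (gd γ hγ t)
  have h2 := HasDerivAt.fun_sum (u := Finset.univ) fun i _ =>
    (hasDerivAt_pi.1 h i).fun_mul (hasDerivAt_pi.1 h i)
  unfold NN dotProduct
  refine h2.congr_deriv ?_
  unfold DN dotProduct
  simp only [Pi.add_apply, Pi.smul_apply, smul_eq_mul, Finset.mul_sum, ← Finset.sum_add_distrib]
  exact Finset.sum_congr rfl fun i _ => by ring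

theorem fa_b1 (hA : Nested A T) (hB : ContDiff ℝ ∞ B) (γ : ℝ → V d) (hγ : ContDiff ℝ ∞ γ) (t : ℝ)
    (hp : γ t ≠ 0) (hs : lev A T (γ t) ∈ Set.Ioo 0 T) (hr : Q A (lev A T (γ t)) (γ t) (γ t) = 0) :
    HasDerivAt (fun u => b1 A T B (γ u))
      (Db1 A (lev A T (γ t)) (bb A T B (γ t)) (Real.sign (γ t 0) * deriv B (lev A T (γ t))) (γ t) (deriv γ t)) t := by
  have hM : Q (dot A) (lev A T (γ t)) (γ t) (γ t) ≠ 0 := (hA.mono _ hs _ hp).ne'
  have h := (fa_bb hA hB γ hγ t hp hs hr).fun_div (fa_M hA γ hγ t hp hs hr) hM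
  unfold b1
  refine h.congr_deriv ?_
  unfold Db1
  field_simp

theorem fa_k (hA : Nested A T) (hB : ContDiff ℝ ∞ B) (γ : ℝ → V d) (hγ : ContDiff ℝ ∞ γ) (t : ℝ)
    (hp : γ t ≠ 0) (hs : lev A T (γ t) ∈ Set.Ioo 0 T) (hr : Q A (lev A T (γ t)) (γ t) (γ t) = 0) :
    HasDerivAt (fun u => 2 * b1 A T B (γ u) + b1 A T B (γ u) ^ 2 * NN A (lev A T (γ u)) (γ u))
      (Dk A (lev A T (γ t)) (bb A T B (γ t)) (Real.sign (γ t 0) * deriv B (lev A T (γ t))) (γ t) (deriv γ t)) t := by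
  have h1 := fa_b1 hA hB γ hγ t hp hs hr
  have h2 := (h1.const_mul 2).fun_add ((h1.fun_pow 2).fun_mul (fa_N hA γ hγ t hp hs hr))
  refine h2.congr_deriv ?_
  unfold Dk
  have e : b1 A T B (γ t) = bb A T B (γ t) / Q (dot A) (lev A T (γ t)) (γ t) (γ t) := rfl
  rw [← e]
  push_cast
  ring

theorem fa_q (hA : Nested A T) (γ : ℝ → V d) (hγ : ContDiff ℝ ∞ γ) (t : ℝ) (hp : γ t ≠ 0)
    (hs : lev A T (γ t) ∈ Set.Ioo 0 T) (hr : Q A (lev A T (γ t)) (γ t) (γ t) = 0) :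
    HasDerivAt (fun u => Q A (lev A T (γ u)) (γ u) (deriv γ u))
      (Dq A (lev A T (γ t)) (γ t) (deriv γ t) (deriv (deriv γ) t)) t := by
  have h := hasDerivAt_Q (A := A) (m := fun u => lev A T (γ u)) (fun i j => A_deriv hA hs i j)
    (fa_lev hA γ hγ t hp hs hr) (gd γ hγ t) (gdd γ hγ t)
  refine h.congr_deriv ?_
  unfold Dq
  ring

theorem fa_AX (hA : Nested A T) (γ : ℝ → V d) (hγ : ContDiff ℝ ∞ γ) (t : ℝ) (hp : γ t ≠ 0)
    (hs : lev A T (γ t) ∈ Set.Ioo 0 T) (hr : Q A (lev A T (γ t)) (γ t) (γ t) = 0) :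
    HasDerivAt (fun u => AX A (lev A T (γ u)) (γ u))
      (AX A (lev A T (γ t)) (deriv γ t) +
        Dlev A (lev A T (γ t)) (γ t) (deriv γ t) • AX (dot A) (lev A T (γ t)) (γ t)) t := by
  exact hasDerivAt_AX (A := A) (m := fun u => lev A T (γ u)) (fun i j => A_deriv hA hs i j)
    (fa_lev hA γ hγ t hp hs hr) (gd γ hγ t)

theorem fa_Qw (hA : Nested A T) (γ : ℝ → V d) (hγ : ContDiff ℝ ∞ γ) (t : ℝ) (hp : γ t ≠ 0)
    (hs : lev A T (γ t) ∈ Set.Ioo 0 T) (hr : Q A (lev A T (γ t)) (γ t) (γ t) = 0) (w : V d) :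
    HasDerivAt (fun u => Q A (lev A T (γ u)) (γ u) w)
      (Q A (lev A T (γ t)) (deriv γ t) w +
        Dlev A (lev A T (γ t)) (γ t) (deriv γ t) * Q (dot A) (lev A T (γ t)) (γ t) w) t := by
  have h := hasDerivAt_Q (A := A) (m := fun u => lev A T (γ u)) (fun i j => A_deriv hA hs i j)
    (fa_lev hA γ hγ t hp hs hr) (gd γ hγ t) (hasDerivAt_const t w)
  refine h.congr_deriv ?_
  have hz : Q A (lev A T (γ t)) (γ t) 0 = 0 := by
    unfold Q
    simp
  rw [hz]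
  ring

end Pool.Agent.Work.MP_659252_gt.Y
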