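import Pool.Agent.Work.MP_659252_gt.Y.Glue

/-!
# The metrics `g_b`.  Size: M.  (Adapt the proofs of `Z/MetA.lean`.)

Write `s = lev x`, `M = Q (dot A) s x x`, `N = NN A s x`, `β = b1 A T B x = bb/M`, `k = 2 β + β² N`.
PROOF.  `val_Gt`: expand the sums, `∑ (A x)_i v_i = Q A s x v` (`Q_eq_dot'`).  `val_conf`: same.
`Gt_smooth`: the entries are `δ_ij + t (bb Φ_ij) 2 + t² (bb Φ_ij) (bb Ψ)`, `Φ_ij(x, s) = (A_s x)_i (A_s x)_j/Q (dot A) s x x`, `Ψ(x, s) = NN A s x/Q (dot A) s x x`, smooth where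
`x ≠ 0`, `s ∈ (0, T)` (`A_smooth₂`, `dot_smooth₂`, `hA.mono`); `bb A T (t B) = t bb A T B`; `bb Φ_ij`, `bb Ψ` are smooth on `{0}ᶜ` (`glue`).
`Gt_isMetric`: smooth: the case `t = 1`; symmetric: clear; positive: for `x ⬝ x = 1`, `v ≠ 0`: if `k ≥ 0` it is `≥ v ⬝ v > 0`; if `k < 0` then by Cauchy-Schwarz
`Q(x,v)² = (A x ⬝ v)² ≤ N (v ⬝ v)`, so the value is `≥ (1 + k N) (v ⬝ v) = (1 + β N)² (v ⬝ v) > 0` (`one_add_pos`, `bN = β N`).
`Gt_deriv`: `t ↦ v⬝w + (2 t β + t² β² N) c`, derivative `2 β c` at `0`.   `Gt_zero`: `t = 0` gives `v ⬝ w`.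
-/

namespace Pool.Agent.Work.MP_659252_gt.Y

open scoped ContDiff
open Pool.Agent.Work.MP_659252_gt.Z (V Ten val IsMetric)

variable {d : ℕ} {A : Path d} {T : ℝ} {B : ℝ → ℝ} {lo hi : ℝ}

private theorem rank1 (K : ℝ) (a v w : V d) :
    ∑ i, ∑ j, K * (a i * a j) * (v i * w j) = K * ((a ⬝ᵥ v) * (a ⬝ᵥ w)) := by
  have h1 : ∀ i, ∑ j, K * (a i * a j) * (v i * w j) = K * (a i * v i) * (a ⬝ᵥ w) := by
    intro i
    unfold dotProduct
    rw [Finset.mul_sum]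
    exact Finset.sum_congr rfl fun j _ => by ring
  rw [Finset.sum_congr rfl fun i _ => h1 i, ← Finset.sum_mul, ← Finset.mul_sum]
  show K * (a ⬝ᵥ v) * (a ⬝ᵥ w) = _
  ring

theorem val_Gt (hs : ∀ s i j, A s i j = A s j i) (x v w : V d) : val (Gt A T B) x v w = v ⬝ᵥ w +
    (2 * b1 A T B x + b1 A T B x ^ 2 * NN A (lev A T x) x) * (Q A (lev A T x) x v * Q A (lev A T x) x w) := by
  rw [Q_eq_dot' hs _ x v, Q_eq_dot' hs _ x w, ← rank1]
  unfold val Gt
  simp only [add_mul, Finset.sum_add_distrib]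
  congr 1
  unfold dotProduct
  refine Finset.sum_congr rfl fun i _ => ?_
  simp

theorem val_conf (hs : ∀ s i j, A s i j = A s j i) (x v w : V d) : val (conf A T B) x v w =
    2 * b1 A T B x * (Q A (lev A T x) x v * Q A (lev A T x) x w) := by
  rw [Q_eq_dot' hs _ x v, Q_eq_dot' hs _ x w, ← rank1]
  unfold val conf b1 bb
  refine Finset.sum_congr rfl fun i _ => Finset.sum_congr rfl fun j _ => ?_
  ring

private theorem bb_mul (t : ℝ) (x : V d) : bb A T (fun s => t * B s) x = t * bb A T B x := by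
  unfold bb
  ring

private theorem b1_mul (t : ℝ) (x : V d) : b1 A T (fun s => t * B s) x = t * b1 A T B x := by
  unfold b1
  rw [bb_mul]
  ring

private theorem smooth_AX (hA : Nested A T) (i : Fin (d + 1)) :
    ContDiffOn ℝ ∞ (fun p : V d × ℝ => AX A p.2 p.1 i) {p | p.1 ≠ 0 ∧ p.2 ∈ Set.Ioo 0 T} := by
  unfold AX
  refine ContDiffOn.sum fun k _ => ?_
  have hc : ContDiffOn ℝ ∞ (fun p : V d × ℝ => p.1 k) {p | p.1 ≠ 0 ∧ p.2 ∈ Set.Ioo 0 T} := by
    fun_prop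
  exact ((A_smooth₂ hA i k).mono fun p hp => hp.2).mul hc

private theorem smooth_M (hA : Nested A T) :
    ContDiffOn ℝ ∞ (fun p : V d × ℝ => Q (dot A) p.2 p.1 p.1) {p | p.1 ≠ 0 ∧ p.2 ∈ Set.Ioo 0 T} := by
  unfold Q
  refine ContDiffOn.sum fun i _ => ContDiffOn.sum fun j _ => ?_
  have hc : ∀ k : Fin (d + 1), ContDiffOn ℝ ∞ (fun p : V d × ℝ => p.1 k)
      {p | p.1 ≠ 0 ∧ p.2 ∈ Set.Ioo 0 T} := by
    intro k
    fun_prop
  exact ((dot_smooth₂ hA i j).mono fun p hp => hp.2).mul ((hc i).mul (hc j))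

private theorem smoothΦ (hA : Nested A T) (i j : Fin (d + 1)) :
    ContDiffOn ℝ ∞ (fun p : V d × ℝ => AX A p.2 p.1 i * AX A p.2 p.1 j / Q (dot A) p.2 p.1 p.1)
      {p | p.1 ≠ 0 ∧ p.2 ∈ Set.Ioo 0 T} :=
  ((smooth_AX hA i).mul (smooth_AX hA j)).div (smooth_M hA) fun p hp =>
    (hA.mono p.2 hp.2 p.1 hp.1).ne'

private theorem smoothΨ (hA : Nested A T) :
    ContDiffOn ℝ ∞ (fun p : V d × ℝ => NN A p.2 p.1 / Q (dot A) p.2 p.1 p.1)
      {p | p.1 ≠ 0 ∧ p.2 ∈ Set.Ioo 0 T} := by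
  refine ContDiffOn.div ?_ (smooth_M hA) fun p hp => (hA.mono p.2 hp.2 p.1 hp.1).ne'
  unfold NN dotProduct
  exact ContDiffOn.sum fun k _ => (smooth_AX hA k).mul (smooth_AX hA k)

theorem Gt_smooth (D : Dat A T B lo hi) :
    ContDiffOn ℝ ∞ (fun p : ℝ × V d => Gt A T (fun s => p.1 * B s) p.2) (Set.univ ×ˢ {0}ᶜ) := by
  have hmaps : Set.MapsTo (fun p : ℝ × V d => p.2) (Set.univ ×ˢ ({0}ᶜ : Set (V d))) ({0}ᶜ : Set (V d)) :=
    fun p hp => hp.2
  refine contDiffOn_pi.2 fun i => contDiffOn_pi.2 fun j => ?_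
  have hg := glue D _ (smoothΦ D.nested i j)
  have hg2 := glue D _ (smoothΨ D.nested)
  have hg' : ContDiffOn ℝ ∞ (fun p : ℝ × V d => bb A T B p.2 *
      (AX A (lev A T p.2) p.2 i * AX A (lev A T p.2) p.2 j / Q (dot A) (lev A T p.2) p.2 p.2))
      (Set.univ ×ˢ ({0}ᶜ : Set (V d))) :=
    ContDiffOn.comp (g := fun x : V d => bb A T B x *
      (AX A (lev A T x) x i * AX A (lev A T x) x j / Q (dot A) (lev A T x) x x))
      (f := fun p : ℝ × V d => p.2) hg contDiffOn_snd hmaps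
  have hg2' : ContDiffOn ℝ ∞ (fun p : ℝ × V d => bb A T B p.2 *
      (NN A (lev A T p.2) p.2 / Q (dot A) (lev A T p.2) p.2 p.2))
      (Set.univ ×ˢ ({0}ᶜ : Set (V d))) :=
    ContDiffOn.comp (g := fun x : V d => bb A T B x *
      (NN A (lev A T x) x / Q (dot A) (lev A T x) x x))
      (f := fun p : ℝ × V d => p.2) hg2 contDiffOn_snd hmaps
  have h1 : ContDiffOn ℝ ∞ (fun p : ℝ × V d => (if i = j then (1 : ℝ) else 0) +
      p.1 * (2 + p.1 * (bb A T B p.2 * (NN A (lev A T p.2) p.2 / Q (dot A) (lev A T p.2) p.2 p.2))) *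
      (bb A T B p.2 *
      (AX A (lev A T p.2) p.2 i * AX A (lev A T p.2) p.2 j / Q (dot A) (lev A T p.2) p.2 p.2)))
      (Set.univ ×ˢ ({0}ᶜ : Set (V d))) :=
    contDiffOn_const.add ((contDiffOn_fst.mul (contDiffOn_const.add (contDiffOn_fst.mul hg2'))).mul hg')
  refine h1.congr fun p _ => ?_
  show Gt A T (fun s => p.1 * B s) p.2 i j = _
  unfold Gt
  rw [b1_mul]
  unfold b1
  ring

theorem Gt_isMetric (D : Dat A T B lo hi) (hB : Small A B lo hi) : IsMetric (Gt A T B) := by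
  refine ⟨?_, ?_, ?_⟩
  · have h := Gt_smooth D
    have h1 : ContDiffOn ℝ ∞ (fun x : V d => ((1 : ℝ), x)) ({0}ᶜ : Set (V d)) :=
      contDiffOn_const.prodMk contDiffOn_id
    have h2 := ContDiffOn.comp (g := fun p : ℝ × V d => Gt A T (fun s => p.1 * B s) p.2)
      (f := fun x : V d => ((1 : ℝ), x)) h h1 (fun x hx => ⟨Set.mem_univ _, hx⟩)
    refine h2.congr fun x _ => ?_
    show Gt A T B x = Gt A T (fun s => 1 * B s) x
    simp only [one_mul]
  · intro x i j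
    unfold Gt
    rw [mul_comm (AX A (lev A T x) x i)]
    simp only [eq_comm]
  · intro x v hxv hv
    have hx : x ≠ 0 := by
      rintro rfl
      have := hxv.1
      simp at this
    have hvv : 0 < v ⬝ᵥ v := by
      obtain ⟨i, hi⟩ := Function.ne_iff.1 hv
      have hi' : v i ≠ 0 := hi
      exact Finset.sum_pos' (fun k _ => mul_self_nonneg _) ⟨i, Finset.mem_univ _, mul_self_pos.2 hi'⟩
    rw [val_Gt D.nested.symm]
    have hpos := one_add_pos D hB x hx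
    unfold bN at hpos
    have hcs : Q A (lev A T x) x v * Q A (lev A T x) x v ≤ NN A (lev A T x) x * (v ⬝ᵥ v) := by
      have h := Finset.sum_mul_sq_le_sq_mul_sq Finset.univ (AX A (lev A T x) x) v
      rw [Q_eq_dot' D.nested.symm]
      unfold NN dotProduct
      calc _ = (∑ i, AX A (lev A T x) x i * v i) ^ 2 := by ring
        _ ≤ _ := h
        _ = _ := by simp only [sq]
    set N := NN A (lev A T x) x
    set β := b1 A T B x
    set q := Q A (lev A T x) x v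
    have hq0 : 0 ≤ q * q := mul_self_nonneg _
    rcases le_or_gt 0 (2 * β + β ^ 2 * N) with h6 | h6
    · have : 0 ≤ (2 * β + β ^ 2 * N) * (q * q) := mul_nonneg h6 hq0
      linarith
    · have h7 : (2 * β + β ^ 2 * N) * (N * (v ⬝ᵥ v)) ≤ (2 * β + β ^ 2 * N) * (q * q) :=
        mul_le_mul_of_nonpos_left hcs h6.le
      have h8 : 0 < (1 + β * N) ^ 2 * (v ⬝ᵥ v) := mul_pos (by positivity) hvv
      have h9 : (1 + β * N) ^ 2 * (v ⬝ᵥ v) = v ⬝ᵥ v + (2 * β + β ^ 2 * N) * (N * (v ⬝ᵥ v)) := by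
        ring
      linarith

private theorem Gt_entry (A : Path d) (T : ℝ) (B : ℝ → ℝ) (x v w : V d) (t : ℝ) :
    val (Gt A T (fun s => t * B s)) x v w = v ⬝ᵥ w +
      (2 * (t * b1 A T B x) + (t * b1 A T B x) ^ 2 * NN A (lev A T x) x) *
        ((AX A (lev A T x) x ⬝ᵥ v) * (AX A (lev A T x) x ⬝ᵥ w)) := by
  rw [← rank1]
  unfold val Gt
  simp only [b1_mul, add_mul, Finset.sum_add_distrib]
  congr 1
  · unfold dotProduct
    refine Finset.sum_congr rfl fun i _ => ?_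
    simp

theorem Gt_zero (A : Path d) (T : ℝ) (B : ℝ → ℝ) (x v w : V d) :
    val (Gt A T (fun s => 0 * B s)) x v w = v ⬝ᵥ w := by
  rw [Gt_entry]
  ring

private theorem conf_entry (A : Path d) (T : ℝ) (B : ℝ → ℝ) (x v w : V d) :
    val (conf A T B) x v w = 2 * b1 A T B x *
        ((AX A (lev A T x) x ⬝ᵥ v) * (AX A (lev A T x) x ⬝ᵥ w)) := by
  rw [← rank1]
  unfold val conf b1 bb
  refine Finset.sum_congr rfl fun i _ => Finset.sum_congr rfl fun j _ => ?_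
  ring

theorem Gt_deriv (A : Path d) (T : ℝ) (B : ℝ → ℝ) (x v w : V d) :
    HasDerivAt (fun t : ℝ => val (Gt A T (fun s => t * B s)) x v w) (val (conf A T B) x v w) 0 := by
  rw [conf_entry]
  simp only [Gt_entry]
  set c := (AX A (lev A T x) x ⬝ᵥ v) * (AX A (lev A T x) x ⬝ᵥ w) with hc
  set β := b1 A T B x
  set N := NN A (lev A T x) x
  have h2 : HasDerivAt (fun t : ℝ => t * β) β 0 := by
    simpa using (hasDerivAt_id (0 : ℝ)).mul_const β
  have h3 := (((h2.const_mul 2).add ((h2.pow 2).mul_const N)).mul_const c).const_add (v ⬝ᵥ w)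
  refine h3.congr_deriv ?_
  simp

end Pool.Agent.Work.MP_659252_gt.Y
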