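import Pool.Agent.Work.MP_659252_gt.Y.FA
import Pool.Agent.Work.MP_659252_gt.Y.MetA
import Pool.Agent.Work.MP_659252_gt.Z.VarB

/-!
# The Euler-Lagrange equations of `g_b` in the ring.  Size: M.  (Adapt the proofs of `Z/FB.lean`.)

Let `p = γ t`, `p1 = γ' t`, `p2 = γ'' t`, `s = lev p`, `b = bb A T B p`, `b' = sign (p 0) B'(s)`, `q = Q A s p p1`, `k = kk A s b p` (`= 2 b1 + b1² N` at `p`).
PROOF.  `s ∈ [lo, hi]` and `Q A s p p = 0` by `lev_root` (`p ≠ 0` because `p ⬝ p = 1`).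
(1) `val (Gt) (γ u) (γ' u) w = γ' ⬝ w + k(γ) Q(γ, γ') Q(γ, w)` (`val_Gt`); its derivative at `t` is
`p2 ⬝ w + (Dk(p1) q + k Dq) Q(p,w) + k q (Q(p1,w) + Dlev(p1) Q'(p,w))` (`fa_k`, `fa_q`, `fa_Qw`).
(2) The right side: for constant `c = p1` the function `x ↦ val (Gt) x c c = c ⬝ c + k(x) Q A (lev x) x c ^ 2` has at `p` in the direction `w` the
derivative `Dk(w) q² + 2 k q (Q(w,c) + Dlev(w) Q'(p,c))`: apply `fa_k`, `fa_Qw` to the straight line `u ↦ p + u w` (a smooth curve), whose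
derivative at `0` is `w`.  And `∑ ∑ fderiv (Gt_ij) p w c_i c_j` is the derivative of `u ↦ val Gt (p + u w) c c` at `0` (the entries are
differentiable at `p` by `Gt_isMetric.smooth`).
(3) `Z.strong_EL` (the derivative is unique).
-/

namespace Pool.Agent.Work.MP_659252_gt.Y

open scoped ContDiff
open Pool.Agent.Work.MP_659252_gt.Z (V val IsGeodesic strong_EL)

variable {d : ℕ} {A : Path d} {T : ℝ} {B : ℝ → ℝ} {lo hi : ℝ}

theorem EL_ring (D : Dat A T B lo hi) (hB : Small A B lo hi) (γ : ℝ → V d)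
    (hγ : IsGeodesic (Gt A T B) γ) (t : ℝ)
    (h1 : Q A lo (γ t) (γ t) ≤ 0) (h2 : 0 ≤ Q A hi (γ t) (γ t))
    (p p1 p2 : V d) (hp : p = γ t) (hp1 : p1 = deriv γ t) (hp2 : p2 = deriv (deriv γ) t)
    (s b b' : ℝ) (hs : s = lev A T p) (hb : b = bb A T B p) (hb' : b' = Real.sign (p 0) * deriv B s)
    (w : V d) (hw : p ⬝ᵥ w = 0) :
    p2 ⬝ᵥ w + (Dk A s b b' p p1 * Q A s p p1 + kk A s b p * Dq A s p p1 p2) * Q A s p w +
        kk A s b p * Q A s p p1 * (Q A s p1 w + Dlev A s p p1 * Q (dot A) s p w) =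
      (1 / 2) * (Dk A s b b' p w * Q A s p p1 ^ 2 +
        2 * kk A s b p * Q A s p p1 * (Q A s w p1 + Dlev A s p w * Q (dot A) s p p1)) := by
  have hA := D.nested
  have hne : γ t ≠ 0 := by
    intro h
    have := hγ.sphere t
    rw [h, zero_dotProduct] at this
    exact zero_ne_one this
  obtain ⟨hl1, hl2, hr⟩ := lev_root hA D.lo_mem D.hi_mem D.lo_hi.le (γ t) hne h1 h2
  have hadm : lev A T (γ t) ∈ Set.Ioo 0 T := D.mem hl1 hl2
  have hG := Gt_isMetric D hB
  have hsm := hγ.smooth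
  have hdd : HasDerivAt (deriv γ) (deriv (deriv γ) t) t := by
    have h : ContDiff ℝ ∞ (deriv γ) := (contDiff_infty_iff_deriv.1 hsm).2
    exact (h.differentiable (by simp) t).hasDerivAt
  -- the left side
  have e1 : HasDerivAt (fun s => deriv γ s ⬝ᵥ w) (deriv (deriv γ) t ⬝ᵥ w) t := by
    unfold dotProduct
    exact HasDerivAt.fun_sum fun i _ => (hasDerivAt_pi.1 hdd i).mul_const (w i)
  have e2 := (fa_k hA D.smooth γ hsm t hne hadm hr).fun_mul
    ((fa_q hA γ hsm t hne hadm hr).fun_mul (fa_Qw hA γ hsm t hne hadm hr w))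
  have e3 := e1.fun_add e2
  have hE := strong_EL (Gt A T B) hG γ hγ t w (by rw [← hp]; exact hw)
  have e4 := hE.unique (e3.congr_of_eventuallyEq (Filter.Eventually.of_forall fun s =>
    val_Gt hA.symm (γ s) (deriv γ s) w))
  -- the right side
  have hℓ : ContDiff ℝ ∞ (fun s : ℝ => γ t + s • w) :=
    contDiff_const.add (contDiff_id.smul contDiff_const)
  have hℓ0 : γ t + (0 : ℝ) • w = γ t := by rw [zero_smul, add_zero]
  have hℓd' : HasDerivAt (fun s : ℝ => γ t + s • w) w 0 := by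
    simpa using ((hasDerivAt_id (0 : ℝ)).smul_const w).const_add (γ t)
  have hℓd : deriv (fun s : ℝ => γ t + s • w) 0 = w := hℓd'.deriv
  have f1 := fa_k (B := B) hA D.smooth (fun s : ℝ => γ t + s • w) hℓ 0
    (by rw [hℓ0]; exact hne) (by rw [hℓ0]; exact hadm) (by rw [hℓ0]; exact hr)
  have f2 := fa_Qw hA (fun s : ℝ => γ t + s • w) hℓ 0
    (by rw [hℓ0]; exact hne) (by rw [hℓ0]; exact hadm) (by rw [hℓ0]; exact hr) (deriv γ t)
  rw [hℓd] at f1 f2
  have f4 := f1.fun_mul (f2.fun_mul f2)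
  have f5 := (f4.const_add (deriv γ t ⬝ᵥ deriv γ t)).congr_of_eventuallyEq
    (Filter.Eventually.of_forall fun s => val_Gt (T := T) (B := B) hA.symm (γ t + s • w) (deriv γ t)
      (deriv γ t))
  have hdiff : ∀ i j, HasFDerivAt (fun x => Gt A T B x i j)
      (fderiv ℝ (fun x => Gt A T B x i j) (γ t)) (γ t) := by
    intro i j
    have hc : ContDiffAt ℝ ∞ (Gt A T B) (γ t) :=
      (hG.smooth).contDiffAt (isOpen_compl_singleton.mem_nhds hne)
    have hda : DifferentiableAt ℝ (Gt A T B) (γ t) := hc.differentiableAt (by simp)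
    have h3 : DifferentiableAt ℝ (fun x => Gt A T B x i j) (γ t) :=
      differentiableAt_pi.1 (differentiableAt_pi.1 hda i) j
    exact h3.hasFDerivAt
  have f6 : HasDerivAt (fun s : ℝ => val (Gt A T B) (γ t + s • w) (deriv γ t) (deriv γ t))
      (∑ i, ∑ j, fderiv ℝ (fun x => Gt A T B x i j) (γ t) w * (deriv γ t i * deriv γ t j)) 0 := by
    unfold val
    refine HasDerivAt.fun_sum fun i _ => HasDerivAt.fun_sum fun j _ => ?_
    have h4 : HasFDerivAt (fun x => Gt A T B x i j)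
        (fderiv ℝ (fun x => Gt A T B x i j) (γ t)) (γ t + (0 : ℝ) • w) := by
      rw [hℓ0]
      exact hdiff i j
    exact (h4.comp_hasDerivAt 0 hℓd').mul_const _
  have f7 := f6.unique f5
  rw [f7] at e4
  simp only [zero_smul, add_zero] at e4
  subst hp hp1 hp2 hs hb hb'
  unfold b1 at e4
  unfold kk
  linear_combination -e4

end Pool.Agent.Work.MP_659252_gt.Y
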