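import Pool.Agent.Work.MP_659252_gt.Y.Bas

/-!
# The algebra of the first order system.  Size: M.  (Pure algebra; checked numerically.)

Notation (all at `s`): `M = Q (dot A) p p > 0`, `N = |A p|²`, `β = b/M`, `c = 1 + β N ≠ 0`, `k = 2 β + β² N` (so `1 + k N = c²`, `k - β = β c`), `q = Q p p1`, `S = Q p1 p1`,
`r = (A p) ⬝ (A p1)`, `r̂ = Q (dot A) p p1`, `m = (A p) ⬝ (A (A p))`, `n = (A p) ⬝ (A' p)`, `M₂ = Q (dot (dot A)) p p`, `Y = Q p p2 = (A p) ⬝ p2`, `σ = -2 q/M`.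
For a vector `w` put `a = Q p w = (A p) ⬝ w`, `e = Q (dot A) p w`, `f = (A p) ⬝ (A w) = (A (A p)) ⬝ w`.
`Dlev(w) = -2a/M`, `DM(w) = 2e - 2a M₂/M`, `DN(w) = 2f - 4a n/M`, `Db1(w) = -2 b' a/M² - (β/M) DM(w)`, `Dk(w) = 2 c Db1(w) + β² DN(w)`; `D1 := Db1(p1) = -2 b' q/M² - 2 β r̂/M + 2 β q M₂/M²`,
`Dq = S + Y + σ r̂`.
PROOF.  Let `u` be left side minus right side of the claim.
(i) `u ⬝ p = 0`: `p2 ⬝ p = -(p1 ⬝ p1) = -(1 - k q²)`, `(A p) ⬝ p = 0`, `(A p1) ⬝ p = q`, `(A' p) ⬝ p = M`, so the second summand contributes `β q (q - 2 q) = -β q²`; `Q p v = q + β q N = c q`,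
`X2 p v ⬝ p = 2 Q(p,v)² = 2 c² q²` (the `A p` term vanishes), contribution `-(β/(2c)) 2 c² q² = -β c q²`; and `+ p ⬝ p = 1`: total `k q² - β q² - β c q² = 0`.
(ii) `w ⊥ p`: `hE` gives `p2 ⬝ w = (1/2) Dk(w) q² + k q Dlev(w) r̂ - k q σ e - (Dk(p1) q + k Dq) a`.  The `e`-terms: `(1/2) 2 c (-(β/M) 2 e) q² + 2 k q² e/M = 2 β q² e/M` (as `k - c β = β`); the `f`-term:
`β² q² f`; the rest is `Λ a`, where (using `-2 c b' q²/M² + 2 c β M₂ q²/M² = c q (D1 + 2 β r̂/M)` and `c β - k = -β`)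
`Λ = -c q D1 - 2 β q r̂/M + 2 β² q² n/M - 2 β² q r - k Dq`.   So `p2 ⬝ w = Λ a + 2 β q² e/M + β² q² f`.   (1)
Left side `⬝ w = p2 ⬝ w + (D1 q + β Dq) a + β q (Q p1 w + σ e)`, right side `⬝ w = β q (Q p1 w + β q f) - (β/c) Q(v,v) a` (`Q v w = Q p1 w + β q f`, `Q(p,v) = c q`), and
`Q(v,v) = S + 2 β q r + β² q² m`.  So `u ⬝ w = J a`, `J = Λ + D1 q + β Dq + (β/c) (S + 2 β q r + β² q² m)`.
(iii) (1) with `w = A p` (`p ⬝ A p = 0`; `a = N`, `e = n`, `f = m`): `Y = Λ N + 2 β q² n/M + β² q² m`; inserting `Dq = S + Y - 2 q r̂/M` and `1 + k N = c²`: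
`c² Dq = S - 2 c q r̂/M - c N q D1 + 2 β c q² n/M - 2 β² N q r + β² q² m`.   (2)
(iv) `(c/β) J = -c N q D1 - 2 c q r̂/M + 2 β c q² n/M - 2 β c q r - c² Dq + S + 2 β q r + β² q² m = 0` by (2) (if `β = 0` then `J = 0` directly: `Λ = -q D1 - k Dq`, `k = 0`).
Best: prove `c * J = 0` by `linear_combination (coefficient) * (2)` after clearing denominators (`M ≠ 0`, `c ≠ 0`).
Every vector is `(w ⬝ p) p` plus a vector orthogonal to `p` (`p ⬝ p = 1`), so `u ⬝ w = 0` for all `w`, `u = 0`.   (`Z/FC.lean` is the special case `M = N`, same method.)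
-/

namespace Pool.Agent.Work.MP_659252_gt.Y

open Pool.Agent.Work.MP_659252_gt.Z (V)

variable {d : ℕ} {A : Path d}

private theorem fc_AAw (hA : ∀ s i j, A s i j = A s j i) (s : ℝ) (x w : V d) :
    Q A s (AX A s x) w = AX A s x ⬝ᵥ AX A s w := by
  rw [Q_eq_dot]

private theorem fc_X2 (hA : ∀ s i j, A s i j = A s j i) (s : ℝ) (x v w : V d) :
    X2 A s x v ⬝ᵥ w = 2 * (Q A s x v * Q A s v w - Q A s v v * Q A s x w) := by
  unfold X2
  rw [sub_dotProduct, smul_dotProduct, smul_dotProduct, ← Q_eq_dot' hA, ← Q_eq_dot' hA,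
    smul_eq_mul, smul_eq_mul]
  ring

theorem fc (hA : ∀ s i j, A s i j = A s j i) (s b b' : ℝ) (p p1 p2 v : V d) (hM : 0 < Q (dot A) s p p)
    (hb : 1 + b / Q (dot A) s p p * NN A s p ≠ 0)
    (hpp : p ⬝ᵥ p = 1) (hpp1 : p ⬝ᵥ p1 = 0) (hpp2 : p ⬝ᵥ p2 = -(p1 ⬝ᵥ p1)) (hQ : Q A s p p = 0)
    (hunit : p1 ⬝ᵥ p1 + kk A s b p * Q A s p p1 ^ 2 = 1)
    (hE : ∀ w : V d, p ⬝ᵥ w = 0 →
      p2 ⬝ᵥ w + (Dk A s b b' p p1 * Q A s p p1 + kk A s b p * Dq A s p p1 p2) * Q A s p w +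
          kk A s b p * Q A s p p1 * (Q A s p1 w + Dlev A s p p1 * Q (dot A) s p w) =
        (1 / 2) * (Dk A s b b' p w * Q A s p p1 ^ 2 +
          2 * kk A s b p * Q A s p p1 * (Q A s w p1 + Dlev A s p w * Q (dot A) s p p1)))
    (hv : v = p1 + (b / Q (dot A) s p p * Q A s p p1) • AX A s p) :
    p2 + ((Db1 A s b b' p p1 * Q A s p p1 + b / Q (dot A) s p p * Dq A s p p1 p2) • AX A s p +
        (b / Q (dot A) s p p * Q A s p p1) • (AX A s p1 + Dlev A s p p1 • AX (dot A) s p)) =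
      -p + (b / Q (dot A) s p p / (2 * (1 + b / Q (dot A) s p p * NN A s p))) • X2 A s p v := by
  have hA' : ∀ s i j, dot A s i j = dot A s j i := dot_symm hA
  have hM0 : Q (dot A) s p p ≠ 0 := hM.ne'
  obtain ⟨β, hβ⟩ : ∃ β, b / Q (dot A) s p p = β := ⟨_, rfl⟩
  have hbβ : b = β * Q (dot A) s p p := by
    rw [← hβ, div_mul_cancel₀ _ hM0]
  have hAp : p ⬝ᵥ AX A s p = 0 := by rw [← Q_eq_dot, hQ]
  have E := hE (AX A s p) hAp
  -- values
  have v1 : p2 ⬝ᵥ AX A s p = Q A s p p2 := by rw [← Q_eq_dot, Q_comm hA]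
  have v2 : Q A s p (AX A s p) = NN A s p := by rw [Q_eq_dot' hA]; rfl
  have v3 : Q A s p1 (AX A s p) = AX A s p ⬝ᵥ AX A s p1 := by rw [Q_eq_dot' hA, dotProduct_comm]
  have v3' : Q A s (AX A s p) p1 = AX A s p ⬝ᵥ AX A s p1 := by rw [Q_eq_dot]
  have v4 : Q (dot A) s p (AX A s p) = AX A s p ⬝ᵥ AX (dot A) s p := by
    rw [Q_eq_dot' hA', dotProduct_comm]
  have v5 : ∀ w, Q A s (AX A s p) w = AX A s p ⬝ᵥ AX A s w := fun w => by rw [Q_eq_dot]
  -- values at `v`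
  have w1 : Q A s p v = (1 + β * NN A s p) * Q A s p p1 := by
    rw [hv, Q_add_right, Q_smul_right, v2, hβ]
    ring
  have w2 : ∀ w, Q A s v w = Q A s p1 w + β * Q A s p p1 * (AX A s p ⬝ᵥ AX A s w) := by
    intro w
    rw [hv, Q_add, Q_smul, v5, hβ]
  have w3 : Q A s v v = Q A s p1 p1 + 2 * (β * Q A s p p1) * (AX A s p ⬝ᵥ AX A s p1) +
      (β * Q A s p p1) ^ 2 * (AX A s p ⬝ᵥ AX A s (AX A s p)) := by
    rw [w2 v, Q_comm hA s p1 v, w2 p1, hv, AX_add, AX_smul, dotProduct_add, dotProduct_smul, hβ,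
      smul_eq_mul]
    ring
  have hL : ∀ w, (p2 + ((Db1 A s b b' p p1 * Q A s p p1 + b / Q (dot A) s p p * Dq A s p p1 p2) •
        AX A s p + (b / Q (dot A) s p p * Q A s p p1) •
          (AX A s p1 + Dlev A s p p1 • AX (dot A) s p))) ⬝ᵥ w =
      p2 ⬝ᵥ w + ((Db1 A s b b' p p1 * Q A s p p1 + b / Q (dot A) s p p * Dq A s p p1 p2) *
        Q A s p w + (b / Q (dot A) s p p * Q A s p p1) *
          (Q A s p1 w + Dlev A s p p1 * Q (dot A) s p w)) := by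
    intro w
    rw [add_dotProduct, add_dotProduct, smul_dotProduct, smul_dotProduct, add_dotProduct,
      smul_dotProduct, ← Q_eq_dot' hA, ← Q_eq_dot' hA, ← Q_eq_dot' hA']
    simp only [smul_eq_mul]
  have hR : ∀ w, (-p + (b / Q (dot A) s p p / (2 * (1 + b / Q (dot A) s p p * NN A s p))) •
        X2 A s p v) ⬝ᵥ w =
      -(p ⬝ᵥ w) + b / Q (dot A) s p p / (2 * (1 + b / Q (dot A) s p p * NN A s p)) *
        (2 * (Q A s p v * Q A s v w - Q A s v v * Q A s p w)) := by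
    intro w
    rw [add_dotProduct, neg_dotProduct, smul_dotProduct, fc_X2 hA, smul_eq_mul]
  rw [hβ] at hb
  have H1 : ∀ w, p ⬝ᵥ w = 0 → (p2 + ((Db1 A s b b' p p1 * Q A s p p1 +
        b / Q (dot A) s p p * Dq A s p p1 p2) •
        AX A s p + (b / Q (dot A) s p p * Q A s p p1) •
          (AX A s p1 + Dlev A s p p1 • AX (dot A) s p))) ⬝ᵥ w =
      (-p + (b / Q (dot A) s p p / (2 * (1 + b / Q (dot A) s p p * NN A s p))) •
        X2 A s p v) ⬝ᵥ w := by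
    intro w hw
    have F := hE w hw
    rw [hL, hR, hw, w1, w2, w3]
    rw [Q_comm hA s w p1] at F
    simp only [Dk, Dq, Db1, DM, DN, kk, Dlev, v1, v2, v3, v3', v4, hβ] at E F ⊢
    rw [hbβ] at E F ⊢
    clear hE hv hL hR w1 w2 w3 hβ hbβ hunit v1 v2 v3 v3' v4 v5
    generalize Q (dot A) s p p = M at *
    generalize Q (dot (dot A)) s p p = M2 at *
    generalize NN A s p = N at *
    generalize Q A s p p1 = q at *
    generalize AX A s p ⬝ᵥ AX A s p1 = r at *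
    generalize Q A s p1 p1 = S at *
    generalize AX A s p ⬝ᵥ AX A s (AX A s p) = m at *
    generalize AX A s p ⬝ᵥ AX (dot A) s p = n at *
    generalize Q (dot A) s p p1 = rh at *
    generalize Q A s p p2 = y at *
    generalize Q A s p w = a at *
    generalize Q (dot A) s p w = e at *
    generalize AX A s p ⬝ᵥ AX A s w = f at *
    generalize Q A s p1 w = h at *
    generalize p2 ⬝ᵥ w = g at *
    linear_combination (norm := skip) F - β / (1 + β * N) * a * E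
    field_simp
    ring
  have H2 : (p2 + ((Db1 A s b b' p p1 * Q A s p p1 +
        b / Q (dot A) s p p * Dq A s p p1 p2) •
        AX A s p + (b / Q (dot A) s p p * Q A s p p1) •
          (AX A s p1 + Dlev A s p p1 • AX (dot A) s p))) ⬝ᵥ p =
      (-p + (b / Q (dot A) s p p / (2 * (1 + b / Q (dot A) s p p * NN A s p))) •
        X2 A s p v) ⬝ᵥ p := by
    rw [hL, hR, hpp, w1, w2, hQ, dotProduct_comm p2 p, hpp2, Q_comm hA s p1 p]
    have h1 : p1 ⬝ᵥ p1 = 1 - kk A s b p * Q A s p p1 ^ 2 := by linarith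
    have h2 : AX A s p ⬝ᵥ AX A s p = NN A s p := rfl
    rw [h1, h2]
    simp only [kk, Dlev, hβ]
    field_simp
    ring
  refine dotProduct_eq _ _ fun w => ?_
  have h3 : w = (w - (p ⬝ᵥ w) • p) + (p ⬝ᵥ w) • p := by abel
  have h4 : p ⬝ᵥ (w - (p ⬝ᵥ w) • p) = 0 := by
    rw [dotProduct_sub, dotProduct_smul, hpp, smul_eq_mul, mul_one, sub_self]
  rw [h3, dotProduct_add, dotProduct_add, H1 _ h4, dotProduct_smul, dotProduct_smul, H2]

end Pool.Agent.Work.MP_659252_gt.Y
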