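import Pool.Agent.Work.MP_659252_gt.Y.FB
import Pool.Agent.Work.MP_659252_gt.Y.FC

/-!
# Geodesics of `g_b` solve the first order system.  Size: M.  (Adapt the proofs of `Z/FE.lean`.)

Let `v = vv A T B γ`, `p = γ t`, `b = bb A T B p`, `β = b1 A T B p = b/M`.
PROOF.  Case 1, ring: `Q A lo p p ≤ 0 ≤ Q A hi p p`.  By `lev_root` `s = lev A T p ∈ [lo, hi]` and `Q A s p p = 0`, `M > 0`.
* `xx`: given.  `xv`: `p ⬝ γ' = 0` (derivative of `γ ⬝ γ = 1`), `p ⬝ A p = Q p p = 0`.
* `vv`: `v ⬝ v = γ'⬝γ' + 2 (β q) q + (β q)² N = γ'⬝γ' + k q² = val (Gt) p γ' γ' = 1` (`val_Gt`).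
* `dx`: `v + be X1 p v`, `X1 p v = -2 Q(p,v) A p` (`Q p p = 0`), `Q(p,v) = (1 + β N) q`, `be = β/(2 (1 + β N))`: equals `v - (β q) A p = γ'`.
* `dv`: `v = γ' + (b1 q) A γ`; derivative by `fa_b1`, `fa_q`, `fa_AX` (product rule) is the left side of `fc` (with `b' = sign (p 0) B'(s)`), and `fc` (with
  `EL_ring`) says that it is `-p + be X2 p v`.  `p ⬝ p2 = -(p1 ⬝ p1)`: second derivative of `γ⬝γ = 1`.
Case 2: `Q A lo p p > 0` or `Q A hi p p < 0`.  Then `bb = 0` near `p` (`bb_near_zero`), so near `t` `v = γ'`, `Gt` is the identity matrix near `p`;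
`Z.strong_EL` gives `γ'' ⬝ w = 0` for `w ⊥ p`, and `γ'' ⬝ p = -(γ' ⬝ γ') = -1`, hence `γ'' = -p`; `be = 0`.
`γ t ≠ 0` because `γ ⬝ γ = 1`; `1 + bN > 0` by `one_add_pos`.
-/

namespace Pool.Agent.Work.MP_659252_gt.Y

open scoped ContDiff
open Pool.Agent.Work.MP_659252_gt.Z (V val IsGeodesic)

variable {d : ℕ} {A : Path d} {T : ℝ} {B : ℝ → ℝ} {lo hi : ℝ}

private theorem fe_dot_deriv {x y : ℝ → V d} {x' y' : V d} {t : ℝ} (hx : HasDerivAt x x' t)
    (hy : HasDerivAt y y' t) :
    HasDerivAt (fun s => x s ⬝ᵥ y s) (x' ⬝ᵥ y t + x t ⬝ᵥ y') t := by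
  have hx' := hasDerivAt_pi.1 hx
  have hy' := hasDerivAt_pi.1 hy
  have h : HasDerivAt (fun s => ∑ i, x s i * y s i) (∑ i, (x' i * y t i + x t i * y' i)) t :=
    HasDerivAt.fun_sum fun i _ => (hx' i).mul (hy' i)
  have e : (∑ i, (x' i * y t i + x t i * y' i)) = x' ⬝ᵥ y t + x t ⬝ᵥ y' := by
    rw [Finset.sum_add_distrib]
    rfl
  rw [e] at h
  exact h

private theorem fe_b1_zero {p : V d} (h : bb A T B p = 0) : b1 A T B p = 0 := by
  unfold b1
  rw [h, zero_div]

private theorem fe_be_zero {p : V d} (h : bb A T B p = 0) : be A T B p = 0 := by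
  unfold be
  rw [fe_b1_zero h, zero_div]

theorem geodesic_sol (D : Dat A T B lo hi) (hB : Small A B lo hi) (γ : ℝ → V d)
    (hγ : IsGeodesic (Gt A T B) γ) (hu : ∀ t, val (Gt A T B) (γ t) (deriv γ t) (deriv γ t) = 1) :
    Sol A T B γ (vv A T B γ) := by
  have hA := D.nested
  have hs : ContDiff ℝ ∞ γ := hγ.smooth
  have hs1 : ContDiff ℝ ∞ (deriv γ) := (contDiff_infty_iff_deriv.1 hs).2
  have hg1 : ∀ t, HasDerivAt γ (deriv γ t) t := fun t =>
    ((hs.differentiable (by simp)) t).hasDerivAt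
  have hg2 : ∀ t, HasDerivAt (deriv γ) (deriv (deriv γ) t) t := fun t =>
    ((hs1.differentiable (by simp)) t).hasDerivAt
  have hpp : ∀ t, γ t ⬝ᵥ γ t = 1 := hγ.sphere
  have hne : ∀ t, γ t ≠ 0 := by
    intro t h
    have := hpp t
    rw [h, dotProduct_zero] at this
    exact zero_ne_one this
  have hpp1 : ∀ t, γ t ⬝ᵥ deriv γ t = 0 := by
    intro t
    have h1 := fe_dot_deriv (hg1 t) (hg1 t)
    have h2 : HasDerivAt (fun s => γ s ⬝ᵥ γ s) 0 t := by
      have : (fun s => γ s ⬝ᵥ γ s) = fun _ => (1 : ℝ) := funext hpp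
      rw [this]
      exact hasDerivAt_const t 1
    have h3 := h1.unique h2
    rw [dotProduct_comm (deriv γ t)] at h3
    linarith
  have hpp2 : ∀ t, γ t ⬝ᵥ deriv (deriv γ) t = -(deriv γ t ⬝ᵥ deriv γ t) := by
    intro t
    have h1 := fe_dot_deriv (hg1 t) (hg2 t)
    have h2 : HasDerivAt (fun s => γ s ⬝ᵥ deriv γ s) 0 t := by
      have : (fun s => γ s ⬝ᵥ deriv γ s) = fun _ => (0 : ℝ) := funext hpp1
      rw [this]
      exact hasDerivAt_const t 0
    have h3 := h1.unique h2
    linarith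
  -- the facts at one time
  have key : ∀ t, (γ t ⬝ᵥ vv A T B γ t = 0 ∧ vv A T B γ t ⬝ᵥ vv A T B γ t = 1) ∧
      HasDerivAt γ (vv A T B γ t + be A T B (γ t) • X1 A (lev A T (γ t)) (γ t) (vv A T B γ t)) t ∧
      HasDerivAt (vv A T B γ)
        (-γ t + be A T B (γ t) • X2 A (lev A T (γ t)) (γ t) (vv A T B γ t)) t := by
    intro t
    by_cases hring : Q A lo (γ t) (γ t) ≤ 0 ∧ 0 ≤ Q A hi (γ t) (γ t)
    · obtain ⟨r1, r2⟩ := hring
      obtain ⟨m1, m2, hQ⟩ := lev_root hA D.lo_mem D.hi_mem D.lo_hi.le (γ t) (hne t) r1 r2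
      have hμ : lev A T (γ t) ∈ Set.Ioo 0 T := D.mem m1 m2
      have hM : 0 < Q (dot A) (lev A T (γ t)) (γ t) (γ t) := hA.mono _ hμ (γ t) (hne t)
      have hunit := hu t
      rw [val_Gt hA.symm] at hunit
      have hE := EL_ring D hB γ hγ t r1 r2 (γ t) (deriv γ t) (deriv (deriv γ) t) rfl rfl rfl
        (lev A T (γ t)) (bb A T B (γ t)) (Real.sign (γ t 0) * deriv B (lev A T (γ t))) rfl rfl rfl
      have db1 := fa_b1 hA D.smooth γ hs t (hne t) hμ hQ
      have dq := fa_q hA γ hs t (hne t) hμ hQ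
      have dA := fa_AX hA γ hs t (hne t) hμ hQ
      have hv : vv A T B γ t = deriv γ t + (b1 A T B (γ t) *
          Q A (lev A T (γ t)) (γ t) (deriv γ t)) • AX A (lev A T (γ t)) (γ t) := rfl
      have hAp : AX A (lev A T (γ t)) (γ t) ⬝ᵥ γ t = 0 := by
        rw [← Q_eq_dot' hA.symm, hQ]
      have hAp1 : AX A (lev A T (γ t)) (γ t) ⬝ᵥ deriv γ t =
          Q A (lev A T (γ t)) (γ t) (deriv γ t) := (Q_eq_dot' hA.symm _ _ _).symm
      have hAA : AX A (lev A T (γ t)) (γ t) ⬝ᵥ AX A (lev A T (γ t)) (γ t) =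
          NN A (lev A T (γ t)) (γ t) := rfl
      have h1b : 1 + b1 A T B (γ t) * NN A (lev A T (γ t)) (γ t) ≠ 0 :=
        (one_add_pos D hB (γ t) (hne t)).ne'
      have hfc := fc hA.symm (lev A T (γ t)) (bb A T B (γ t))
        (Real.sign (γ t 0) * deriv B (lev A T (γ t))) (γ t) (deriv γ t)
        (deriv (deriv γ) t) (vv A T B γ t) hM h1b (hpp t) (hpp1 t) (hpp2 t) hQ (by
          rw [← hunit]
          unfold kk b1
          ring) hE hv
      refine ⟨⟨?_, ?_⟩, ?_, ?_⟩
      · rw [hv, dotProduct_add, dotProduct_smul, hpp1, dotProduct_comm (γ t), hAp, smul_zero,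
          add_zero]
      · rw [hv, dotProduct_add, add_dotProduct, add_dotProduct, smul_dotProduct, smul_dotProduct,
          dotProduct_smul, dotProduct_smul, dotProduct_comm (deriv γ t) (AX A _ _), hAp1, hAA]
        simp only [smul_eq_mul]
        rw [← hunit]
        ring
      · have hX : vv A T B γ t + be A T B (γ t) • X1 A (lev A T (γ t)) (γ t) (vv A T B γ t) =
            deriv γ t := by
          have hQv : Q A (lev A T (γ t)) (γ t) (vv A T B γ t) =
              (1 + b1 A T B (γ t) * NN A (lev A T (γ t)) (γ t)) *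
                Q A (lev A T (γ t)) (γ t) (deriv γ t) := by
            rw [Q_eq_dot' hA.symm, hv, dotProduct_add, dotProduct_smul, hAp1, hAA, smul_eq_mul]
            ring
          have hbe : be A T B (γ t) * (2 * (1 + b1 A T B (γ t) * NN A (lev A T (γ t)) (γ t))) =
              b1 A T B (γ t) := by
            unfold be bN
            field_simp
          unfold X1
          rw [hQ, hQv, mul_zero, zero_smul, zero_sub, smul_neg, smul_smul, hv]
          have e : be A T B (γ t) * (2 * ((1 + b1 A T B (γ t) * NN A (lev A T (γ t)) (γ t)) *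
              Q A (lev A T (γ t)) (γ t) (deriv γ t))) =
              b1 A T B (γ t) * Q A (lev A T (γ t)) (γ t) (deriv γ t) := by
            linear_combination Q A (lev A T (γ t)) (γ t) (deriv γ t) * hbe
          rw [e, add_neg_cancel_right]
        rw [hX]
        exact hg1 t
      · have hc := db1.fun_mul dq
        have hcA := hc.fun_smul dA
        have hsum := (hg2 t).fun_add hcA
        rw [add_comm ((b1 A T B (γ t) * Q A (lev A T (γ t)) (γ t) (deriv γ t)) • _)] at hsum
        exact hsum.congr_deriv hfc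
    · have hout : 0 < Q A lo (γ t) (γ t) ∨ Q A hi (γ t) (γ t) < 0 := by
        by_contra hcon
        push Not at hcon
        exact hring hcon
      have hnear := bb_near_zero D (γ t) (hne t) hout
      have hb0 : bb A T B (γ t) = 0 := hnear.self_of_nhds
      have hcont : ContinuousAt γ t := (hg1 t).continuousAt
      have hev : ∀ᶠ s in nhds t, bb A T B (γ s) = 0 := hcont.eventually hnear
      have hv : vv A T B γ t = deriv γ t := by
        unfold vv
        rw [fe_b1_zero hb0, zero_mul, zero_smul, add_zero]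
      have hunit := hu t
      rw [val_Gt hA.symm, fe_b1_zero hb0] at hunit
      have hp11 : deriv γ t ⬝ᵥ deriv γ t = 1 := by
        rw [← hunit]
        ring
      have hEL : ∀ w : V d, γ t ⬝ᵥ w = 0 → deriv (deriv γ) t ⬝ᵥ w = 0 := by
        intro w hw
        have h1 := Pool.Agent.Work.MP_659252_gt.Z.strong_EL (Gt A T B) (Gt_isMetric D hB) γ hγ t w hw
        have h2 : HasDerivAt (fun s => deriv γ s ⬝ᵥ w) (deriv (deriv γ) t ⬝ᵥ w) t := by
          have h3 := fe_dot_deriv (hg2 t) (hasDerivAt_const t w)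
          rwa [dotProduct_zero, add_zero] at h3
        have h4 : (fun s => val (Gt A T B) (γ s) (deriv γ s) w) =ᶠ[nhds t]
            fun s => deriv γ s ⬝ᵥ w := by
          filter_upwards [hev] with s hs0
          rw [val_Gt hA.symm, fe_b1_zero hs0]
          ring
        have h5 := (h2.congr_of_eventuallyEq h4).unique h1
        rw [h5]
        have h6 : ∀ i j, fderiv ℝ (fun x => Gt A T B x i j) (γ t) w = 0 := by
          intro i j
          have h7 : (fun x => Gt A T B x i j) =ᶠ[nhds (γ t)]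
              fun _ => if i = j then (1 : ℝ) else 0 := by
            filter_upwards [hnear] with x hx0
            simp only [Gt, fe_b1_zero hx0]
            ring
          rw [h7.fderiv_eq]
          simp
        simp only [h6, zero_mul, Finset.sum_const_zero, mul_zero]
      have hg2p : deriv (deriv γ) t = -γ t := by
        have h1 : γ t ⬝ᵥ (deriv (deriv γ) t + γ t) = 0 := by
          rw [dotProduct_add, hpp2, hp11, hpp]
          ring
        have h2 := hEL _ h1
        have h3 : (deriv (deriv γ) t + γ t) ⬝ᵥ (deriv (deriv γ) t + γ t) = 0 := by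
          rw [add_dotProduct, h2, h1, add_zero]
        exact eq_neg_of_add_eq_zero_left (dotProduct_self_eq_zero.1 h3)
      rw [fe_be_zero hb0, zero_smul, zero_smul, add_zero, add_zero]
      refine ⟨⟨?_, ?_⟩, ?_, ?_⟩
      · rw [hv, hpp1]
      · rw [hv, hp11]
      · rw [hv]
        exact hg1 t
      · rw [← hg2p]
        refine (hg2 t).congr_of_eventuallyEq ?_
        filter_upwards [hev] with s hs0
        unfold vv
        rw [fe_b1_zero hs0, zero_mul, zero_smul, add_zero]
  exact ⟨hpp, fun t => (key t).1.1, fun t => (key t).1.2, fun t => (key t).2.1,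
    fun t => (key t).2.2⟩

end Pool.Agent.Work.MP_659252_gt.Y
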