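import Pool.Agent.Work.MP_659252_gt.Y.Bas

/-!
# The rotating frame.  Size: S-M.  (Adapt the proofs of `Z/WDer.lean`.)

`W1 = cos s x - sin s v`, `W2 = sin s x + cos s v` (`Z.x_eq`, `Z.v_eq` express `x`, `v` by the frame).
PROOF.  `W_orth`: expand.  `RR_rot`: `RR A m` is minus a Gram determinant, invariant under rotations of the pair (expand with `Q_add`, `Q_smul`, `Q_comm`).  Same for
`RR'`.  `X1_rot`, `X2_rot`: expand (`AX_add`, `AX_smul`): the coefficients of `A x`, `A v` on both sides are equal because `c² + s² = 1`.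
`W1_deriv`, `W2_deriv`: product rule: `W1' = -sin x + cos (v + be X1) - cos v - sin (-x + be X2) = be (cos X1 - sin X2)`, then `X1_rot`.
`W_const`: on `[a, b]` `bb = 0`, so `b1 = 0`, `be = 0` and the derivatives vanish.
-/

namespace Pool.Agent.Work.MP_659252_gt.Y

open Pool.Agent.Work.MP_659252_gt.Z (V W1 W2)

variable {d : ℕ} {A : Path d} {T : ℝ} {B : ℝ → ℝ}

private theorem wd_Q (hA : ∀ s i j, A s i j = A s j i) (m a b e f : ℝ) (x v : V d) :
    Q A m (a • x + b • v) (e • x + f • v) =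
      a * e * Q A m x x + (a * f + b * e) * Q A m x v + b * f * Q A m v v := by
  rw [Q_add, Q_smul, Q_smul, Q_add_right, Q_add_right, Q_smul_right, Q_smul_right, Q_smul_right,
    Q_smul_right, Q_comm hA m v x]
  ring

private theorem wd_sub (c s : ℝ) (x v : V d) : c • x - s • v = c • x + (-s) • v := by
  rw [neg_smul, sub_eq_add_neg]

theorem W_orth {x v : ℝ → V d} (h : Sol A T B x v) (s : ℝ) :
    W1 x v s ⬝ᵥ W1 x v s = 1 ∧ W1 x v s ⬝ᵥ W2 x v s = 0 ∧ W2 x v s ⬝ᵥ W2 x v s = 1 := by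
  have h1 := h.xx s
  have h2 := h.xv s
  have h3 := h.vv s
  have h4 : v s ⬝ᵥ x s = 0 := by rw [dotProduct_comm]; exact h2
  have h5 := Real.sin_sq_add_cos_sq s
  simp only [W1, W2, sub_dotProduct, dotProduct_sub, add_dotProduct, dotProduct_add,
    smul_dotProduct, dotProduct_smul, smul_eq_mul, h1, h2, h3, h4]
  refine ⟨?_, ?_, ?_⟩
  · linear_combination h5
  · ring
  · linear_combination h5

theorem RR_rot (hA : ∀ s i j, A s i j = A s j i) (m c s : ℝ) (hcs : c ^ 2 + s ^ 2 = 1) (x v : V d) :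
    RR A m (c • x - s • v) (s • x + c • v) = RR A m x v := by
  have e1 : Q A m (c • x + (-s) • v) (c • x + (-s) • v) = _ := wd_Q hA m c (-s) c (-s) x v
  simp only [RR]
  rw [wd_sub, e1, wd_Q hA, wd_Q hA]
  linear_combination (c ^ 2 + s ^ 2 + 1) * (Q A m x v ^ 2 - Q A m x x * Q A m v v) * hcs

theorem RR'_rot (hA : ∀ s i j, A s i j = A s j i) (m c s : ℝ) (hcs : c ^ 2 + s ^ 2 = 1) (x v : V d) :
    RR' A m (c • x - s • v) (s • x + c • v) = RR' A m x v := by
  simp only [RR']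
  rw [wd_sub]
  simp only [wd_Q hA, wd_Q (dot_symm hA)]
  linear_combination (c ^ 2 + s ^ 2 + 1) * (2 * Q A m x v * Q (dot A) m x v -
    Q (dot A) m x x * Q A m v v - Q A m x x * Q (dot A) m v v) * hcs

theorem X1_rot (hA : ∀ s i j, A s i j = A s j i) (m c s : ℝ) (hcs : c ^ 2 + s ^ 2 = 1) (x v : V d) :
    X1 A m (c • x - s • v) (s • x + c • v) = c • X1 A m x v - s • X2 A m x v := by
  ext i
  simp only [X1, X2, Pi.sub_apply, Pi.smul_apply, smul_eq_mul]
  rw [wd_sub]
  simp only [wd_Q hA, AX_add, AX_smul, Pi.add_apply, Pi.smul_apply, smul_eq_mul]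
  linear_combination (c * (2 * Q A m x x * AX A m v i - 2 * Q A m x v * AX A m x i) -
    s * (2 * Q A m x v * AX A m v i - 2 * Q A m v v * AX A m x i)) * hcs

theorem X2_rot (hA : ∀ s i j, A s i j = A s j i) (m c s : ℝ) (hcs : c ^ 2 + s ^ 2 = 1) (x v : V d) :
    X2 A m (c • x - s • v) (s • x + c • v) = s • X1 A m x v + c • X2 A m x v := by
  ext i
  simp only [X1, X2, Pi.add_apply, Pi.sub_apply, Pi.smul_apply, smul_eq_mul]
  rw [wd_sub]
  simp only [wd_Q hA, AX_add, AX_smul, Pi.add_apply, Pi.smul_apply, smul_eq_mul]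
  linear_combination (s * (2 * Q A m x x * AX A m v i - 2 * Q A m x v * AX A m x i) +
    c * (2 * Q A m x v * AX A m v i - 2 * Q A m v v * AX A m x i)) * hcs

/-- the value of `RR` on the frame is the value on `(x, v)` -/
theorem RR_frame (hA : ∀ s i j, A s i j = A s j i) (m : ℝ) (x v : ℝ → V d) (s : ℝ) :
    RR A m (W1 x v s) (W2 x v s) = RR A m (x s) (v s) := by
  exact RR_rot hA m (Real.cos s) (Real.sin s) (Real.cos_sq_add_sin_sq s) (x s) (v s)

theorem W1_deriv (hA : ∀ s i j, A s i j = A s j i) {x v : ℝ → V d} (h : Sol A T B x v) (s : ℝ) :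
    HasDerivAt (W1 x v) (be A T B (x s) • X1 A (lev A T (x s)) (W1 x v s) (W2 x v s)) s := by
  have h0 : X1 A (lev A T (x s)) (W1 x v s) (W2 x v s) = _ :=
    X1_rot hA (lev A T (x s)) (Real.cos s) (Real.sin s) (Real.cos_sq_add_sin_sq s) (x s) (v s)
  have h1 := ((Real.hasDerivAt_cos s).smul (h.dx s)).sub ((Real.hasDerivAt_sin s).smul (h.dv s))
  rw [h0]
  refine h1.congr_deriv ?_
  ext i
  simp only [Pi.add_apply, Pi.smul_apply, Pi.sub_apply, Pi.neg_apply, smul_eq_mul]
  ring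

theorem W2_deriv (hA : ∀ s i j, A s i j = A s j i) {x v : ℝ → V d} (h : Sol A T B x v) (s : ℝ) :
    HasDerivAt (W2 x v) (be A T B (x s) • X2 A (lev A T (x s)) (W1 x v s) (W2 x v s)) s := by
  have h0 : X2 A (lev A T (x s)) (W1 x v s) (W2 x v s) = _ :=
    X2_rot hA (lev A T (x s)) (Real.cos s) (Real.sin s) (Real.cos_sq_add_sin_sq s) (x s) (v s)
  have h1 := ((Real.hasDerivAt_sin s).smul (h.dx s)).add ((Real.hasDerivAt_cos s).smul (h.dv s))
  rw [h0]
  refine h1.congr_deriv ?_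
  ext i
  simp only [Pi.add_apply, Pi.smul_apply, Pi.neg_apply, smul_eq_mul]
  ring

theorem W_const (hA : ∀ s i j, A s i j = A s j i) {x v : ℝ → V d} (h : Sol A T B x v) {a b : ℝ}
    (hz : ∀ s ∈ Set.Icc a b, bb A T B (x s) = 0) :
    ∀ s ∈ Set.Icc a b, W1 x v s = W1 x v a ∧ W2 x v s = W2 x v a := by
  have hbe : ∀ s ∈ Set.Icc a b, be A T B (x s) = 0 := fun s hs => by
    simp only [be, b1, hz s hs, zero_div]
  have h1 : ∀ s ∈ Set.Icc a b, W1 x v s = W1 x v a :=
    constant_of_has_deriv_right_zero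
      (fun s _ => (W1_deriv hA h s).continuousAt.continuousWithinAt)
      (fun s hs => by
        have := W1_deriv hA h s
        rw [hbe s ⟨hs.1, hs.2.le⟩, zero_smul] at this
        exact this.hasDerivWithinAt)
  have h2 : ∀ s ∈ Set.Icc a b, W2 x v s = W2 x v a :=
    constant_of_has_deriv_right_zero
      (fun s _ => (W2_deriv hA h s).continuousAt.continuousWithinAt)
      (fun s hs => by
        have := W2_deriv hA h s
        rw [hbe s ⟨hs.1, hs.2.le⟩, zero_smul] at this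
        exact this.hasDerivWithinAt)
  exact fun s hs => ⟨h1 s hs, h2 s hs⟩

end Pool.Agent.Work.MP_659252_gt.Y
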