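import Pool.Agent.Work.MP_659252_gt.Y.Cpt
import Pool.Agent.Work.MP_659252_gt.Y.Wd

/-!
# The frame moves slowly.  Size: S-M.  (Adapt the proof of `Z/WLip.lean`.)

PROOF.  `W1' = be (x) X1 (W1, W2) = be (cos s X1 x v - sin s X2 x v)` (`W1_deriv`, `X1_rot`), each component is at most `2 C₀ ε` in absolute value (`bound`, which also
gives `κ` and `Small`).  Mean value inequality (`Convex.norm_image_sub_le_of_norm_hasDerivWithin_le` or the componentwise version).  `C = 2 C₀`.  The last clause is `bound` with the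
derivative `x' = v + be X1`.
-/

namespace Pool.Agent.Work.MP_659252_gt.Y

open Pool.Agent.Work.MP_659252_gt.Z (V W1 W2)

variable {d : ℕ} {A : Path d} {T lo hi : ℝ}

private theorem wlip_mv {f f' : ℝ → ℝ} {K : ℝ} (hf : ∀ s, HasDerivAt f (f' s) s)
    (hK : ∀ s, |f' s| ≤ K) (s s' : ℝ) : |f s - f s'| ≤ K * |s - s'| := by
  have h := Convex.norm_image_sub_le_of_norm_hasDerivWithin_le (f := f) (f' := f')
    (s := Set.univ) (C := K) (x := s') (y := s) (fun t _ => (hf t).hasDerivWithinAt)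
    (fun t _ => by rw [Real.norm_eq_abs]; exact hK t) convex_univ (Set.mem_univ _)
    (Set.mem_univ _)
  rwa [Real.norm_eq_abs, Real.norm_eq_abs] at h

private theorem wlip_abs {c t a b K : ℝ} (hc : |c| ≤ 1) (ht : |t| ≤ 1) (ha : |a| ≤ K)
    (hb : |b| ≤ K) : |c * a| + |t * b| ≤ 2 * K := by
  rw [abs_mul, abs_mul]
  have h1 : |c| * |a| ≤ 1 * K := mul_le_mul hc ha (abs_nonneg _) zero_le_one
  have h2 : |t| * |b| ≤ 1 * K := mul_le_mul ht hb (abs_nonneg _) zero_le_one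
  linarith

theorem W_lip (hA : Nested A T) (hlo : 0 < lo) (hlt : lo < hi) (hhi : hi < T) :
    ∃ C κ : ℝ, 0 < C ∧ 0 < κ ∧ ∀ (B : ℝ → ℝ) (ε : ℝ), Dat A T B lo hi → 0 ≤ ε → ε ≤ κ → (∀ s, |B s| ≤ ε) →
      Small A B lo hi ∧
      ∀ x v : ℝ → V d, Sol A T B x v → ∀ i,
        (∀ s s', |W1 x v s i - W1 x v s' i| ≤ C * ε * |s - s'|) ∧
        (∀ s s', |W2 x v s i - W2 x v s' i| ≤ C * ε * |s - s'|) ∧
        ∀ s, ∃ e, |e| ≤ C * ε ∧ HasDerivAt (fun s => x s i) (v s i + e) s := by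
  obtain ⟨C₀, κ, hC₀, hκ, hb⟩ := bound hA hlo hlt hhi
  refine ⟨2 * C₀, κ, by positivity, hκ, fun B ε D hε0 hε hB => ⟨(hb B ε D hε0 hε hB).1, fun x v h i => ?_⟩⟩
  have hbd : ∀ s, |be A T B (x s) * X1 A (lev A T (x s)) (x s) (v s) i| ≤ C₀ * ε ∧
      |be A T B (x s) * X2 A (lev A T (x s)) (x s) (v s) i| ≤ C₀ * ε := fun s =>
    (hb B ε D hε0 hε hB).2 (x s) (v s) (h.xx s) (h.xv s) (h.vv s) i
  have hcs : ∀ s : ℝ, Real.cos s ^ 2 + Real.sin s ^ 2 = 1 := fun s => Real.cos_sq_add_sin_sq s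
  refine ⟨?_, ?_, ?_⟩
  · refine wlip_mv (f := fun s => W1 x v s i) (fun s => hasDerivAt_pi.1 (W1_deriv hA.symm h s) i)
      fun s => ?_
    have h1 : (be A T B (x s) • X1 A (lev A T (x s)) (W1 x v s) (W2 x v s)) i =
        Real.cos s * (be A T B (x s) * X1 A (lev A T (x s)) (x s) (v s) i) +
          -Real.sin s * (be A T B (x s) * X2 A (lev A T (x s)) (x s) (v s) i) := by
      rw [W1, W2, X1_rot hA.symm _ _ _ (hcs s)]
      simp only [Pi.smul_apply, Pi.sub_apply, smul_eq_mul]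
      ring
    rw [h1]
    have h2 := wlip_abs (Real.abs_cos_le_one s)
      (by rw [abs_neg]; exact Real.abs_sin_le_one s : |-Real.sin s| ≤ 1) (hbd s).1 (hbd s).2
    have h3 := (abs_add_le _ _).trans h2
    linarith
  · refine wlip_mv (f := fun s => W2 x v s i) (fun s => hasDerivAt_pi.1 (W2_deriv hA.symm h s) i)
      fun s => ?_
    have h1 : (be A T B (x s) • X2 A (lev A T (x s)) (W1 x v s) (W2 x v s)) i =
        Real.sin s * (be A T B (x s) * X1 A (lev A T (x s)) (x s) (v s) i) +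
          Real.cos s * (be A T B (x s) * X2 A (lev A T (x s)) (x s) (v s) i) := by
      rw [W1, W2, X2_rot hA.symm _ _ _ (hcs s)]
      simp only [Pi.smul_apply, Pi.add_apply, smul_eq_mul]
      ring
    rw [h1]
    have h2 := wlip_abs (Real.abs_sin_le_one s) (Real.abs_cos_le_one s) (hbd s).1 (hbd s).2
    have h3 := (abs_add_le _ _).trans h2
    linarith
  · intro s
    refine ⟨be A T B (x s) * X1 A (lev A T (x s)) (x s) (v s) i, ?_, ?_⟩
    · have h1 := (hbd s).1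
      have h2 : 0 ≤ C₀ * ε := mul_nonneg hC₀.le hε0
      linarith
    · have h1 := hasDerivAt_pi.1 (h.dx s) i
      simpa only [Pi.add_apply, Pi.smul_apply, smul_eq_mul] using h1

end Pool.Agent.Work.MP_659252_gt.Y
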