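import Pool.Agent.Work.MP_659252_gt.Y.Pass
import Pool.Agent.Work.MP_659252_gt.Y.WLip
import Pool.Agent.Work.MP_659252_gt.Z.Half

/-!
# All solutions have period `2π`.  Size: M-L.  (Adapt the proof of `Z/Per.lean`.)

Let `C`, `κ` be the constants of `W_lip`, `δ` the one of `below` (for `lo`), `ε = min κ (δ/(200 C))`; then `η = C ε ≤ δ/100`.
PROOF.  Let `(x, v)` be a solution (`W_lip` also gives `Small A B lo hi`).  Let `r(s) = x_0(s)² + v_0(s)²`.
(1) If `r(s₀) < δ²` for some `s₀`: every point `y = cos θ x s₀ + sin θ v s₀` of the circle has `y ⬝ y = 1`, `y_0² ≤ r(s₀) < δ²` (Cauchy-Schwarz), so `Q A lo y y > 0`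
(`below`), `bb = 0` (`bb_eq_zero`): `Sol.circle` gives `x s = cos (s - s₀) x s₀ + sin (s - s₀) v s₀`, period `2π`.
(2) Otherwise `r(s) ≥ δ²` for all `s`.  `Z.crossing` with `p = W1_0`, `q = W2_0` (`x_0 = cos s p + sin s q`, `v_0 = -sin s p + cos s q`: `Z.x_eq`, `Z.v_eq`; `p 0² + q 0² = r(0)`)
gives a time `c` with `x_0(c) = 0`, `v_0(c) > 0`, so `v_0(c) ≥ δ`.  Replace `(x, v)` by the shifted solution (`Sol.shift`): `c = 0`.
(3) `Z.half_pass` for `(x, v)`: `S ∈ (3π/4, 5π/4)`, `x_0 > 0` on `(0, S)`, `x_0(S) = 0`, `v_0(S) < 0`.  `half_pass` for the reflected solution `x' s = -x (-s)`, `v' s = v (-s)`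
(`Sol.reflect`, a solution for `-B`, `D.neg`, same bounds; `x'_0(0) = 0`, `v'_0(0) = v_0(0) ≥ δ`): `S' ∈ (3π/4, 5π/4)`, `x'_0 > 0` on `(0, S')`, `x'_0(S') = 0`, `v'_0(S') < 0`.
(4) `pass`: `W1 x' v' S' = -W1 x v S`, `W2 x' v' S' = W2 x v S`; with `Z.W_reflect`: `W1 x v (-S') = W1 x v S`, `W2 x v (-S') = W2 x v S`.
(5) By `Z.x_eq`, `Z.v_eq` with `θ = S + S'`: `x S = cos θ x(-S') + sin θ v(-S')`, `v S = -sin θ x(-S') + cos θ v(-S')`.  `0`-components: `0 = sin θ v_0(-S')`,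
`v_0(S) = cos θ v_0(-S')`, `v_0(S) < 0`, `v_0(-S') = v'_0(S') < 0`: `sin θ = 0`, `cos θ > 0`; `θ ∈ (3π/2, 5π/2)`: `θ = 2π`.  So `x S = x (-S')`, `v S = v (-S')`, `S = -S' + 2π`.
(6) `(x (· + 2π), v (· + 2π))` is a solution which agrees with `(x, v)` at `-S'`: `Sol.unique`.
-/

namespace Pool.Agent.Work.MP_659252_gt.Y

open Pool.Agent.Work.MP_659252_gt.Z (V W1 W2)

variable {d : ℕ} {A : Path d} {T lo hi : ℝ}

private theorem le_of_sq_le_sq {a b : ℝ} (h : a ^ 2 ≤ b ^ 2) (hb : 0 < b) : a ≤ b := by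
  by_contra hcon
  push Not at hcon
  nlinarith

private theorem W1_zero (x v : ℝ → V d) : W1 x v 0 = x 0 := by
  unfold W1
  rw [Real.cos_zero, Real.sin_zero, one_smul, zero_smul, sub_zero]

private theorem W2_zero (x v : ℝ → V d) : W2 x v 0 = v 0 := by
  unfold W2
  rw [Real.cos_zero, Real.sin_zero, one_smul, zero_smul, zero_add]

/-- the half passage of a solution which starts at the equator -/
private theorem half {η δ : ℝ} (hδ : 0 < δ) (hη : 0 ≤ η) (hsm : η ≤ δ / 100) {x v : ℝ → V d}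
    (hl : ∀ i, (∀ s s', |W1 x v s i - W1 x v s' i| ≤ η * |s - s'|) ∧
        (∀ s s', |W2 x v s i - W2 x v s' i| ≤ η * |s - s'|) ∧
        ∀ s, ∃ e, |e| ≤ η ∧ HasDerivAt (fun s => x s i) (v s i + e) s)
    (hx : x 0 0 = 0) (hv : δ ≤ v 0 0) :
    ∃ S, 3 * Real.pi / 4 < S ∧ S < 5 * Real.pi / 4 ∧ (∀ s ∈ Set.Ioo 0 S, 0 < x s 0) ∧ x S 0 = 0 ∧
      v S 0 < 0 := by
  obtain ⟨h1, h2, h3⟩ := hl 0
  refine Z.half_pass (fun s => W1 x v s 0) (fun s => W2 x v s 0) (fun s => x s 0) (fun s => v s 0) δ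
    η hδ hη hsm ?_ ?_ h1 h2 ?_ ?_ h3
  · change W1 x v 0 0 = 0
    rw [W1_zero, hx]
  · change δ ≤ W2 x v 0 0
    rw [W2_zero]
    exact hv
  · intro s
    exact congrFun (Z.x_eq x v s) 0
  · intro s
    exact congrFun (Z.v_eq x v s) 0

private theorem per_core {B : ℝ → ℝ} (D : Dat A T B lo hi) (hB : Small A B lo hi)
    {η δ : ℝ} (hδ : 0 < δ) (hη : 0 ≤ η) (hsm : η ≤ δ / 100)
    (hl : ∀ x v : ℝ → V d, Sol A T B x v → ∀ i,
        (∀ s s', |W1 x v s i - W1 x v s' i| ≤ η * |s - s'|) ∧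
        (∀ s s', |W2 x v s i - W2 x v s' i| ≤ η * |s - s'|) ∧
        ∀ s, ∃ e, |e| ≤ η ∧ HasDerivAt (fun s => x s i) (v s i + e) s)
    (hl' : ∀ x v : ℝ → V d, Sol A T (fun s => -B s) x v → ∀ i,
        (∀ s s', |W1 x v s i - W1 x v s' i| ≤ η * |s - s'|) ∧
        (∀ s s', |W2 x v s i - W2 x v s' i| ≤ η * |s - s'|) ∧
        ∀ s, ∃ e, |e| ≤ η ∧ HasDerivAt (fun s => x s i) (v s i + e) s)
    {x v : ℝ → V d} (h : Sol A T B x v) (hx : x 0 0 = 0) (hv : δ ≤ v 0 0)
    (s : ℝ) : x (s + 2 * Real.pi) = x s := by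
  have hpi := Real.pi_pos
  obtain ⟨S, hS1, hS2, hS3, hS4, hS5⟩ := half hδ hη hsm (hl x v h) hx hv
  have h' := h.reflect
  obtain ⟨S', hS1', hS2', hS3', hS4', hS5'⟩ := half hδ hη hsm
    (hl' _ _ h') (by
      simp only [neg_zero, Pi.neg_apply, hx]) (by
      simp only [neg_zero]
      exact hv)
  obtain ⟨e1, e2⟩ := pass D hB h h' S (by linarith) hx hS3 hS4 S' (by linarith)
    (by simp only [neg_zero, Pi.neg_apply, hx]) hS3' hS4' (by simp only [neg_zero])
    (by simp only [neg_zero])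
  obtain ⟨e3, e4⟩ := Z.W_reflect x v S'
  have f1 : W1 x v (-S') = W1 x v S := by
    have := e3.symm.trans e1
    exact neg_injective this
  have f2 : W2 x v (-S') = W2 x v S := e4.symm.trans e2
  -- the components
  have g1 := congrFun (Z.x_eq x v S) 0
  have g2 := congrFun (Z.x_eq x v (-S')) 0
  have g3 := congrFun (Z.v_eq x v (-S')) 0
  rw [f1, f2] at g2 g3
  simp only [Pi.add_apply, Pi.smul_apply, smul_eq_mul, Real.cos_neg, Real.sin_neg] at g1 g2 g3
  have k1 : x (-S') 0 = 0 := by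
    have h9 : (-x (-S')) 0 = 0 := hS4'
    rw [Pi.neg_apply] at h9
    linarith
  have k2 : v (-S') 0 < 0 := hS5'
  rw [hS4] at g1
  rw [k1] at g2
  have hsin : Real.sin (S + S') * v (-S') 0 = 0 := by
    rw [g3, Real.sin_add]
    have hc := Real.sin_sq_add_cos_sq S'
    linear_combination (-1 : ℝ) * g1 + (Real.cos S * Real.cos S' - Real.sin S * Real.sin S') * g2 +
      (Real.cos S * W1 x v S 0 + Real.sin S * W2 x v S 0) * hc
  have hs0 : Real.sin (S + S') = 0 := by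
    rcases mul_eq_zero.1 hsin with h1 | h1
    · exact h1
    · exact absurd h1 k2.ne
  have hS : S + S' - 2 * Real.pi = 0 := by
    rw [← Real.sin_eq_zero_iff_of_lt_of_lt (by linarith) (by linarith), Real.sin_sub_two_pi]
    exact hs0
  have hS' : S = -S' + 2 * Real.pi := by linarith
  have m1 : x S = x (-S') := by
    rw [Z.x_eq x v S, Z.x_eq x v (-S'), f1, f2]
    have c1 : Real.cos S = Real.cos (-S') := by rw [hS', Real.cos_add_two_pi]
    have c2 : Real.sin S = Real.sin (-S') := by rw [hS', Real.sin_add_two_pi]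
    rw [c1, c2]
  have m2 : v S = v (-S') := by
    rw [Z.v_eq x v S, Z.v_eq x v (-S'), f1, f2]
    have c1 : Real.cos S = Real.cos (-S') := by rw [hS', Real.cos_add_two_pi]
    have c2 : Real.sin S = Real.sin (-S') := by rw [hS', Real.sin_add_two_pi]
    rw [c1, c2]
  have u := Sol.unique D hB (h.shift (2 * Real.pi)) h (-S') (by
    change x (-S' + 2 * Real.pi) = x (-S')
    rw [← hS']
    exact m1) (by
    change v (-S' + 2 * Real.pi) = v (-S')
    rw [← hS']
    exact m2) s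
  exact u.1

theorem periodic (hA : Nested A T) (hlo : 0 < lo) (hlt : lo < hi) (hhi : hi < T) :
    ∃ ε : ℝ, 0 < ε ∧ ∀ B : ℝ → ℝ, Dat A T B lo hi → (∀ s, |B s| ≤ ε) → ∀ x v : ℝ → V d, Sol A T B x v →
      ∀ s, x (s + 2 * Real.pi) = x s := by
  obtain ⟨C, κ, hC, hκ, hlip⟩ := W_lip hA hlo hlt hhi
  obtain ⟨δ, hδ, hbelow⟩ := below (lo := lo) hA ⟨hlo, hlt.trans hhi⟩
  refine ⟨min κ (δ / (200 * C)), lt_min hκ (by positivity), ?_⟩
  intro B D hB x v h s
  set ε := min κ (δ / (200 * C)) with hε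
  have hε0 : 0 < ε := lt_min hκ (by positivity)
  have hε1 : ε ≤ κ := min_le_left _ _
  have hε2 : ε ≤ δ / (200 * C) := min_le_right _ _
  have hη : 0 ≤ C * ε := by positivity
  have hsm : C * ε ≤ δ / 100 := by
    have h1 : C * ε ≤ C * (δ / (200 * C)) := mul_le_mul_of_nonneg_left hε2 hC.le
    have h2 : C * (δ / (200 * C)) = δ / 200 := by
      field_simp
    rw [h2] at h1
    linarith
  obtain ⟨hS, hl⟩ := hlip B ε D hε0.le hε1 hB
  obtain ⟨-, hl'⟩ := hlip (fun s => -B s) ε D.neg hε0.le hε1 (fun s => by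
    rw [abs_neg]
    exact hB s)
  by_cases hr : ∃ s₀, x s₀ 0 ^ 2 + v s₀ 0 ^ 2 < δ ^ 2
  · obtain ⟨s₀, hs₀⟩ := hr
    have hz : ∀ θ : ℝ, bb A T B (Real.cos θ • x s₀ + Real.sin θ • v s₀) = 0 := by
      intro θ
      set y := Real.cos θ • x s₀ + Real.sin θ • v s₀ with hy
      have hcs := Real.sin_sq_add_cos_sq θ
      have hyy : y ⬝ᵥ y = 1 := by
        rw [hy, add_dotProduct, dotProduct_add, dotProduct_add, smul_dotProduct, smul_dotProduct,
          smul_dotProduct, smul_dotProduct, dotProduct_smul, dotProduct_smul, dotProduct_smul,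
          dotProduct_smul, dotProduct_comm (v s₀) (x s₀), h.xx, h.xv, h.vv]
        simp only [smul_eq_mul]
        linear_combination hcs
      have hy0 : y ≠ 0 := by
        intro h1
        rw [h1, zero_dotProduct] at hyy
        exact zero_ne_one hyy
      have hy1 : y 0 ^ 2 < δ ^ 2 := by
        refine lt_of_le_of_lt ?_ hs₀
        have h1 : y 0 = Real.cos θ * x s₀ 0 + Real.sin θ * v s₀ 0 := rfl
        rw [h1]
        nlinarith [sq_nonneg (Real.cos θ * v s₀ 0 - Real.sin θ * x s₀ 0)]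
      exact bb_eq_zero D y hy0 (Or.inl (hbelow y hyy hy1).le)
    have hc := fun s => (Sol.circle D hS h s₀ hz s).1
    rw [hc (s + 2 * Real.pi), hc s]
    have e1 : s + 2 * Real.pi - s₀ = s - s₀ + 2 * Real.pi := by ring
    rw [e1, Real.cos_add_two_pi, Real.sin_add_two_pi]
  · push Not at hr
    obtain ⟨h1, h2, -⟩ := hl x v h 0
    obtain ⟨c, hc1, hc2⟩ := Z.crossing (fun s => W1 x v s 0) (fun s => W2 x v s 0) δ (C * ε) hδ hη
      hsm (by
        change δ ^ 2 ≤ W1 x v 0 0 ^ 2 + W2 x v 0 0 ^ 2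
        rw [W1_zero, W2_zero]
        exact hr 0) h1 h2
    have g1 : x c 0 = 0 := by
      rw [← hc1]
      exact congrFun (Z.x_eq x v c) 0
    have g2 : 0 < v c 0 := by
      have g3 : v c 0 = -Real.sin c * W1 x v c 0 + Real.cos c * W2 x v c 0 :=
        congrFun (Z.v_eq x v c) 0
      rw [g3]
      exact hc2
    have g3 : δ ≤ v c 0 := by
      have g4 := hr c
      rw [g1] at g4
      have g5 : δ ^ 2 ≤ v c 0 ^ 2 := by linarith
      exact le_of_sq_le_sq g5 g2
    have key := per_core D hS hδ hη hsm hl hl' (h.shift c) (by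
      change x (0 + c) 0 = 0
      rw [zero_add]
      exact g1) (by
      change δ ≤ v (0 + c) 0
      rw [zero_add]
      exact g3) (s - c)
    have e1 : s - c + 2 * Real.pi + c = s + 2 * Real.pi := by ring
    have e2 : s - c + c = s := by ring
    change x (s - c + 2 * Real.pi + c) = x (s - c + c) at key
    rw [e1, e2] at key
    exact key

end Pool.Agent.Work.MP_659252_gt.Y
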