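import Pool.Agent.Work.MP_659252_gt.Y.FE
import Pool.Agent.Work.MP_659252_gt.Y.Per
import Pool.Agent.Work.MP_659252_gt.Y.Simp

/-!
# Assembly, first part: `conf A T B` is a tangent vector to the space of Zoll metrics
-/

namespace Pool.Agent.Work.MP_659252_gt.Y

open scoped ContDiff
open Pool.Agent.Work.MP_659252_gt.Z (V IsZoll InT)

variable {d : ℕ} {A : Path d} {T lo hi : ℝ}

theorem zoll (hA : Nested A T) (hlo : 0 < lo) (hlt : lo < hi) (hhi : hi < T) :
    ∃ ε : ℝ, 0 < ε ∧ ∀ B : ℝ → ℝ, Dat A T B lo hi → (∀ s, |B s| ≤ ε) → IsZoll (Gt A T B) := by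
  obtain ⟨ε₁, h1, H1⟩ := periodic hA hlo hlt hhi
  obtain ⟨ε₂, h2, H2⟩ := simple hA hlo hlt hhi
  obtain ⟨C, κ, -, hκ, H3⟩ := bound hA hlo hlt hhi
  refine ⟨min κ (min ε₁ ε₂), lt_min hκ (lt_min h1 h2), fun B D hB => ?_⟩
  have hBa : ∀ s, |B s| ≤ ε₁ := fun s => (hB s).trans ((min_le_right _ _).trans (min_le_left _ _))
  have hBb : ∀ s, |B s| ≤ ε₂ := fun s => (hB s).trans ((min_le_right _ _).trans (min_le_right _ _))
  have hsm : Small A B lo hi :=
    (H3 B κ D hκ.le le_rfl fun s => (hB s).trans (min_le_left _ _)).1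
  refine ⟨Gt_isMetric D hsm, 2 * Real.pi, by positivity, fun γ hγ hu => ?_⟩
  have hs := geodesic_sol D hsm γ hγ hu
  have hp := H1 B D hBa _ _ hs
  exact ⟨hp, H2 B D hBb _ _ hs hp⟩

theorem conf_inT_aux {B : ℝ → ℝ} (D : Dat A T B lo hi) : InT (conf A T B) := by
  obtain ⟨ε, hε, H⟩ := zoll D.nested D.lo_pos D.lo_hi D.hi_lt
  -- `B` is bounded
  obtain ⟨K, hK0, hK⟩ : ∃ K : ℝ, 0 < K ∧ ∀ s, |B s| ≤ K := by
    have hcont : Continuous B := D.smooth.continuous
    obtain ⟨K, hK⟩ := (isCompact_Icc (a := lo) (b := hi)).exists_bound_of_continuousOn hcont.continuousOn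
    refine ⟨max K 1, lt_max_of_lt_right one_pos, fun s => ?_⟩
    by_cases hs : s ∈ Set.Ioo lo hi
    · exact (hK s (Set.Ioo_subset_Icc_self hs)).trans (le_max_left _ _)
    · rw [D.supp s hs, abs_zero]
      exact (zero_le_one).trans (le_max_right _ _)
  refine ⟨ε / K, div_pos hε hK0, fun t => Gt A T (fun s => t * B s), ?_, fun t ht => ?_,
    fun x v w _ _ => Gt_zero A T B x v w, fun x v w _ _ => Gt_deriv A T B x v w⟩
  · exact (Gt_smooth D).mono (Set.prod_mono (Set.subset_univ _) subset_rfl)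
  · refine H _ ⟨D.nested, D.lo_pos, D.lo_hi, D.hi_lt, contDiff_const.mul D.smooth, fun s hs => by
      rw [D.supp s hs, mul_zero]⟩ fun s => ?_
    rw [abs_mul]
    have h1 : |t| ≤ ε / K := (abs_lt.mpr ⟨by linarith [ht.1], ht.2⟩).le
    calc |t| * |B s| ≤ ε / K * K := mul_le_mul h1 (hK s) (abs_nonneg _) (div_pos hε hK0).le
      _ = ε := div_mul_cancel₀ _ hK0.ne'

end Pool.Agent.Work.MP_659252_gt.Y
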