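import Pool.Agent.Work.MP_659252_gt.Y.LevD

/-!
# Gluing: functions `b(x) Φ(x, lev x)` are smooth on `ℝ^{d+1} \ {0}`.  Size: M.  (Adapt the proofs of `Z/Glue.lean`.)

PROOF.  Let `x ≠ 0`.
(a) `Q A lo x x > 0`: this holds near `x` too, and there `bb = 0` (`bb_eq_zero`): the function vanishes near `x`.
(b) `Q A hi x x < 0`: same.
(c) `Q A lo x x ≤ 0 ≤ Q A hi x x`: by `lev_root` the level `s = lev A T x` is in `[lo, hi]`, `Q A s x x = 0`; `x 0 ≠ 0` (`Q_ne`), so
`Real.sign (y 0)` is constant near `x`; `lev` is smooth at `x` (`lev_contDiffAt`), `B` is smooth, `Φ` is smooth at `(x, s)`; product and composition.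
`bb_contDiffOn` is the case `Φ = 1`.  `bb_near_zero`: the cases (a), (b).
-/

namespace Pool.Agent.Work.MP_659252_gt.Y

open scoped ContDiff
open Pool.Agent.Work.MP_659252_gt.Z (V)

variable {d : ℕ} {A : Path d} {T : ℝ} {B : ℝ → ℝ} {lo hi : ℝ}

private theorem contQ (A : Path d) (s : ℝ) : Continuous fun y : V d => Q A s y y := by
  unfold Q
  fun_prop

theorem bb_near_zero (D : Dat A T B lo hi) (x : V d) (hx : x ≠ 0)
    (h : 0 < Q A lo x x ∨ Q A hi x x < 0) : ∀ᶠ y in nhds x, bb A T B y = 0 := by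
  have hne : ∀ᶠ y in nhds x, y ≠ 0 := isOpen_ne.mem_nhds hx
  rcases h with h | h
  · have h1 : ∀ᶠ y in nhds x, 0 < Q A lo y y := (contQ A lo).continuousAt.eventually (lt_mem_nhds h)
    filter_upwards [hne, h1] with y hy hy1
    exact bb_eq_zero D y hy (Or.inl hy1.le)
  · have h1 : ∀ᶠ y in nhds x, Q A hi y y < 0 := (contQ A hi).continuousAt.eventually (gt_mem_nhds h)
    filter_upwards [hne, h1] with y hy hy1
    exact bb_eq_zero D y hy (Or.inr hy1.le)

theorem glue (D : Dat A T B lo hi) (Φ : V d × ℝ → ℝ)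
    (hΦ : ContDiffOn ℝ ∞ Φ {p | p.1 ≠ 0 ∧ p.2 ∈ Set.Ioo 0 T}) :
    ContDiffOn ℝ ∞ (fun x => bb A T B x * Φ (x, lev A T x)) {0}ᶜ := by
  intro x hx0
  have hx : x ≠ 0 := hx0
  apply ContDiffAt.contDiffWithinAt
  have hzero : (0 < Q A lo x x ∨ Q A hi x x < 0) →
      ContDiffAt ℝ ∞ (fun x => bb A T B x * Φ (x, lev A T x)) x := by
    intro h
    have h1 : (fun x => bb A T B x * Φ (x, lev A T x)) =ᶠ[nhds x] fun _ => (0 : ℝ) := by
      filter_upwards [bb_near_zero D x hx h] with y hy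
      rw [hy, zero_mul]
    exact contDiffAt_const.congr_of_eventuallyEq h1
  rcases lt_or_ge 0 (Q A lo x x) with h1 | h1
  · exact hzero (Or.inl h1)
  rcases lt_or_ge (Q A hi x x) 0 with h2 | h2
  · exact hzero (Or.inr h2)
  obtain ⟨h3, h4, h5⟩ := lev_root D.nested D.lo_mem D.hi_mem D.lo_hi.le x hx h1 h2
  have hadm : lev A T x ∈ Set.Ioo 0 T := D.mem h3 h4
  have hx00 : x 0 ≠ 0 := Q_ne D.nested hadm x hx h5.le
  have hlev : ContDiffAt ℝ ∞ (lev A T) x := lev_contDiffAt D.nested hadm x hx h5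
  have hopen : IsOpen {p : V d × ℝ | p.1 ≠ 0 ∧ p.2 ∈ Set.Ioo 0 T} :=
    (isOpen_ne.preimage continuous_fst).inter (isOpen_Ioo.preimage continuous_snd)
  have hΦ' : ContDiffAt ℝ ∞ Φ (x, lev A T x) := hΦ.contDiffAt (hopen.mem_nhds ⟨hx, hadm⟩)
  have hcomp : ContDiffAt ℝ ∞ (fun y => Φ (y, lev A T y)) x :=
    ContDiffAt.comp x (f := fun y : V d => (y, lev A T y)) hΦ' (contDiffAt_id.prodMk hlev)
  have hsign : ∀ᶠ y : V d in nhds x, Real.sign (y 0) = Real.sign (x 0) := by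
    have hc : Continuous fun y : V d => y 0 := continuous_apply 0
    rcases lt_or_gt_of_ne hx00 with h | h
    · filter_upwards [hc.continuousAt.eventually (gt_mem_nhds h)] with y hy
      rw [Real.sign_of_neg hy, Real.sign_of_neg h]
    · filter_upwards [hc.continuousAt.eventually (lt_mem_nhds h)] with y hy
      rw [Real.sign_of_pos hy, Real.sign_of_pos h]
  have hB : ContDiffAt ℝ ∞ (fun y => B (lev A T y)) x :=
    ContDiffAt.comp x (D.smooth.contDiffAt) hlev
  have hfin : ContDiffAt ℝ ∞ (fun y => Real.sign (x 0) * B (lev A T y) * Φ (y, lev A T y)) x :=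
    (contDiffAt_const.mul hB).mul hcomp
  refine hfin.congr_of_eventuallyEq ?_
  filter_upwards [hsign] with y hy
  show bb A T B y * Φ (y, lev A T y) = _
  rw [bb, hy]

theorem bb_contDiffOn (D : Dat A T B lo hi) : ContDiffOn ℝ ∞ (bb A T B) {0}ᶜ := by
  have h := glue D (fun _ => 1) contDiffOn_const
  simpa using h

end Pool.Agent.Work.MP_659252_gt.Y
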