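import Pool.Agent.Work.MP_659252_gt.Y.HZero
import Pool.Agent.Work.MP_659252_gt.Y.HSign

/-!
# The half circle integral of `conf` on planes which meet the cone.  Size: M.  (Adapt the proof of `Z/HNe.lean`.)

Let `y u = cp x v u`, `f u = val (conf A T B) (y u) (y' u) (y' u) = 2 b1 (y) Q(y, y')²` (`val_conf`), continuous (`conf_smooth`, `y ≠ 0`).
PROOF.  (1) A point with `f ≠ 0`: `RR A m x v > 0` for `m ∈ [lo, m₁]`, `m₁ > lo` (continuity of `m ↦ RR A m x v`, `Q_deriv`; `m₁ < hi`).  Choose `m ∈ (lo, m₁)` with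
`B m ≠ 0`.  `RR A m x v > 0` gives a point of the circle with `Q A m < 0` (`RR_neg_pt`), by antipody at a time in `(0, π)` (`cp x v (u + π) = -cp x v u`; not `0`, as
`Q A m x x > Q A lo x x > 0`).  By the intermediate value theorem there is `u ∈ (0, π)` with `Q A m (y u) (y u) = 0`; then `lev = m` (`lev_eq`), `y_0 ≠ 0` (`Q_ne`),
`Q A m y y' ^ 2 = RR A m y y' = RR A m x v > 0` (rotation invariance: expand), `Q (dot A) m y y > 0`: `f u ≠ 0`.
(2) `f` has a constant sign on `(0, π)`: if `f u ≠ 0` then `B (lev) > 0` and `Q A lo (y u) (y u) < 0` (`bb_eq_zero` contraposed), `f u` has the sign of `(y u)_0` (`Q (dot A) > 0` at the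
level, `lev_root`), and by `same_side` all these signs agree.  So `f ≥ 0` on `[0, π]` or `f ≤ 0` on `[0, π]`, continuous and not identically `0`: the integral is not `0`.
-/

namespace Pool.Agent.Work.MP_659252_gt.Y

open Pool.Agent.Work.MP_659252_gt.Z (V half)

variable {d : ℕ} {A : Path d} {T : ℝ} {B : ℝ → ℝ} {lo hi : ℝ}

private theorem hne_cp_dot (x v : V d) (hxx : x ⬝ᵥ x = 1) (hxv : x ⬝ᵥ v = 0)
    (hvv : v ⬝ᵥ v = 1) (s : ℝ) : Z.cp x v s ⬝ᵥ Z.cp x v s = 1 := by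
  have hvx : v ⬝ᵥ x = 0 := by rw [dotProduct_comm]; exact hxv
  unfold Z.cp
  rw [dotProduct_add, add_dotProduct, add_dotProduct, smul_dotProduct, smul_dotProduct,
    smul_dotProduct, smul_dotProduct, dotProduct_smul, dotProduct_smul, dotProduct_smul,
    dotProduct_smul, hxx, hxv, hvx, hvv]
  simp only [smul_eq_mul]
  linear_combination Real.sin_sq_add_cos_sq s

private theorem hne_cp_ne (x v : V d) (hxx : x ⬝ᵥ x = 1) (hxv : x ⬝ᵥ v = 0)
    (hvv : v ⬝ᵥ v = 1) (s : ℝ) : Z.cp x v s ≠ 0 := by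
  intro h
  have h1 := hne_cp_dot x v hxx hxv hvv s
  rw [h, dotProduct_zero] at h1
  exact zero_ne_one h1

private theorem hne_Q_lin (hs : ∀ s i j, A s i j = A s j i) (m : ℝ) (x v : V d)
    (a b a' b' : ℝ) : Q A m (a • x + b • v) (a' • x + b' • v) =
      a * a' * Q A m x x + (a * b' + b * a') * Q A m x v + b * b' * Q A m v v := by
  rw [Q_add, Q_add_right, Q_add_right, Q_smul, Q_smul, Q_smul, Q_smul, Q_smul_right, Q_smul_right,
    Q_smul_right, Q_smul_right, Q_comm hs m v x]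
  ring

private theorem hne_Q_yy (hs : ∀ s i j, A s i j = A s j i) (m : ℝ) (x v : V d) (s : ℝ) :
    Q A m (Z.cp x v s) (Z.cp x v s) = Real.cos s * Real.cos s * Q A m x x +
      (Real.cos s * Real.sin s + Real.sin s * Real.cos s) * Q A m x v +
      Real.sin s * Real.sin s * Q A m v v :=
  hne_Q_lin hs m x v _ _ _ _

private theorem hne_RR (hs : ∀ s i j, A s i j = A s j i) (m : ℝ) (x v : V d) (s : ℝ) :
    RR A m (Z.cp x v s) (Z.cv x v s) = RR A m x v := by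
  unfold RR
  have h1 := hne_Q_yy hs m x v s
  have h2 : Q A m (Z.cp x v s) (Z.cv x v s) = _ := hne_Q_lin hs m x v _ _ _ _
  have h3 : Q A m (Z.cv x v s) (Z.cv x v s) = _ := hne_Q_lin hs m x v _ _ _ _
  rw [h1, h2, h3]
  have h4 := Real.sin_sq_add_cos_sq s
  have h5 : (Real.sin s ^ 2 + Real.cos s ^ 2) ^ 2 = 1 := by rw [h4]; norm_num
  linear_combination (Q A m x v ^ 2 - Q A m x x * Q A m v v) * h5

private theorem hne_q_cont (hs : ∀ s i j, A s i j = A s j i) (m : ℝ) (x v : V d) :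
    Continuous (fun s => Q A m (Z.cp x v s) (Z.cp x v s)) := by
  simp only [hne_Q_yy hs]
  fun_prop

private theorem hne_q_per (hs : ∀ s i j, A s i j = A s j i) (m : ℝ) (x v : V d) :
    Function.Periodic (fun s => Q A m (Z.cp x v s) (Z.cp x v s)) Real.pi := by
  intro s
  simp only [hne_Q_yy hs, Real.cos_add_pi, Real.sin_add_pi]
  ring

private theorem hne_cont (D : Dat A T B lo hi) (x v : V d) (hxx : x ⬝ᵥ x = 1)
    (hxv : x ⬝ᵥ v = 0) (hvv : v ⬝ᵥ v = 1) :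
    Continuous (fun s => Z.val (conf A T B) (Z.cp x v s) (Z.cv x v s) (Z.cv x v s)) := by
  have h1 : Continuous (fun s => Z.cp x v s) := by
    unfold Z.cp
    fun_prop
  have h2 : Continuous (fun s => Z.cv x v s) := by
    unfold Z.cv
    fun_prop
  have h3 : Continuous (fun s => conf A T B (Z.cp x v s)) :=
    (conf_smooth D).continuousOn.comp_continuous h1 fun s => hne_cp_ne x v hxx hxv hvv s
  unfold Z.val
  refine continuous_finsetSum _ fun i _ => continuous_finsetSum _ fun j _ => ?_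
  have h4 : Continuous (fun s => conf A T B (Z.cp x v s) i j) :=
    (continuous_apply j).comp ((continuous_apply i).comp h3)
  have h5 : ∀ i, Continuous (fun s => Z.cv x v s i) := fun i => (continuous_apply i).comp h2
  exact h4.mul ((h5 i).mul (h5 j))

/-- a point with a nonzero integrand -/
private theorem hne_pt (D : Dat A T B lo hi)
    (hBlo : ∀ m, lo < m → ∃ s, lo < s ∧ s < m ∧ B s ≠ 0) (x v : V d) (hxx : x ⬝ᵥ x = 1)
    (hxv : x ⬝ᵥ v = 0) (hvv : v ⬝ᵥ v = 1) (hx : 0 < Q A lo x x) (h : 0 < RR A lo x v) :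
    ∃ s ∈ Set.Ioo 0 Real.pi,
      Z.val (conf A T B) (Z.cp x v s) (Z.cv x v s) (Z.cv x v s) ≠ 0 := by
  have hA := D.nested
  have hs := hA.symm
  have hQc : ∀ y z : V d, ContinuousAt (fun m => Q A m y z) lo := fun y z =>
    (Q_deriv hA D.lo_mem y z).continuousAt
  have hRc : ContinuousAt (fun m => RR A m x v) lo := by
    unfold RR
    exact ((hQc x v).pow 2).sub ((hQc x x).mul (hQc v v))
  have h1 : ∀ᶠ m in nhds lo, 0 < RR A m x v := hRc.eventually (lt_mem_nhds h)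
  obtain ⟨l, u, hlu, hsub⟩ := mem_nhds_iff_exists_Ioo_subset.1 h1
  obtain ⟨m, hm1, hm2, hmB⟩ := hBlo u hlu.2
  have hRR : 0 < RR A m x v := hsub ⟨hlu.1.trans hm1, hm2⟩
  have hmmem : m ∈ Set.Ioo lo hi := by
    by_contra hcon
    exact hmB (D.supp m hcon)
  have hadm : m ∈ Set.Ioo 0 T := D.mem hmmem.1.le hmmem.2.le
  have hx0 : x ≠ 0 := by
    rintro rfl
    rw [dotProduct_zero] at hxx
    exact zero_ne_one hxx
  obtain ⟨θ, hθ⟩ := RR_neg_pt hA x v hRR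
  obtain ⟨θ', hθ', hθe⟩ := (hne_q_per hs m x v).exists_mem_Ico₀ Real.pi_pos θ
  have hθ2 : Q A m (Z.cp x v θ') (Z.cp x v θ') < 0 := by
    have h2 : Q A m (Z.cp x v θ) (Z.cp x v θ) = Q A m (Z.cp x v θ') (Z.cp x v θ') := hθe
    rw [← h2]
    exact hθ
  have h00 : Q A m (Z.cp x v 0) (Z.cp x v 0) = Q A m x x := by
    rw [hne_Q_yy hs, Real.cos_zero, Real.sin_zero]
    ring
  have hq0 : 0 < Q A m (Z.cp x v 0) (Z.cp x v 0) := by
    rw [h00]
    exact hx.trans (Q_lt hA D.lo_mem hadm hmmem.1 x hx0)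
  obtain ⟨s, hs1, hsq⟩ := intermediate_value_Ioo' hθ'.1
    (hne_q_cont hs m x v).continuousOn ⟨hθ2, hq0⟩
  have hsq' : Q A m (Z.cp x v s) (Z.cp x v s) = 0 := hsq
  have hyne := hne_cp_ne x v hxx hxv hvv s
  have hlev : lev A T (Z.cp x v s) = m := lev_eq hA hadm _ hyne hsq'
  have hy0 : Z.cp x v s 0 ≠ 0 := Q_ne hA hadm _ hyne hsq'.le
  refine ⟨s, ⟨hs1.1, hs1.2.trans hθ'.2⟩, ?_⟩
  rw [val_conf hs, hlev]
  have hRs := hne_RR hs m x v s
  have hQ : Q A m (Z.cp x v s) (Z.cv x v s) ≠ 0 := by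
    intro h2
    unfold RR at hRs
    rw [h2, hsq'] at hRs
    have h3 : RR A m x v = 0 := by
      unfold RR
      rw [← hRs]
      ring
    exact hRR.ne' h3
  have hQ2 := hA.mono m hadm _ hyne
  have hbb : b1 A T B (Z.cp x v s) ≠ 0 := by
    unfold b1 bb
    rw [hlev]
    refine div_ne_zero (mul_ne_zero ?_ hmB) hQ2.ne'
    rw [Ne, Real.sign_eq_zero_iff]
    exact hy0
  exact mul_ne_zero (mul_ne_zero two_ne_zero hbb) (mul_ne_zero hQ hQ)

/-- the sign of the integrand -/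
private theorem hne_sign (D : Dat A T B lo hi) (hB0 : ∀ s, 0 ≤ B s) (x v : V d)
    (hxx : x ⬝ᵥ x = 1) (hxv : x ⬝ᵥ v = 0) (hvv : v ⬝ᵥ v = 1) (hx : 0 < Q A lo x x)
    {s₀ s : ℝ} (hs₀ : s₀ ∈ Set.Ioo 0 Real.pi) (hs : s ∈ Set.Ioo 0 Real.pi)
    (h₀ : Z.val (conf A T B) (Z.cp x v s₀) (Z.cv x v s₀) (Z.cv x v s₀) ≠ 0) :
    0 ≤ Real.sign (Z.cp x v s₀ 0) *
        Z.val (conf A T B) (Z.cp x v s) (Z.cv x v s) (Z.cv x v s) ∧
      0 < Real.sign (Z.cp x v s₀ 0) *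
        Z.val (conf A T B) (Z.cp x v s₀) (Z.cv x v s₀) (Z.cv x v s₀) := by
  have hA := D.nested
  have hsy := hA.symm
  have hn : ∀ s, Z.val (conf A T B) (Z.cp x v s) (Z.cv x v s) (Z.cv x v s) ≠ 0 →
      Q A lo (Z.cp x v s) (Z.cp x v s) < 0 ∧ Q A hi (Z.cp x v s) (Z.cp x v s) > 0 := by
    intro s hne
    by_contra hcon
    apply hne
    have h1 : 0 ≤ Q A lo (Z.cp x v s) (Z.cp x v s) ∨
        Q A hi (Z.cp x v s) (Z.cp x v s) ≤ 0 := by
      by_contra h2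
      rw [not_or, not_le, not_le] at h2
      exact hcon ⟨h2.1, h2.2⟩
    rw [val_conf hsy]
    unfold b1
    rw [bb_eq_zero D _ (hne_cp_ne x v hxx hxv hvv s) h1]
    ring
  have hval : ∀ s, Z.val (conf A T B) (Z.cp x v s) (Z.cv x v s) (Z.cv x v s) =
      Real.sign (Z.cp x v s 0) * (2 * B (lev A T (Z.cp x v s)) *
        (Q A (lev A T (Z.cp x v s)) (Z.cp x v s) (Z.cv x v s) ^ 2 /
          Q (dot A) (lev A T (Z.cp x v s)) (Z.cp x v s) (Z.cp x v s))) := by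
    intro s
    rw [val_conf hsy]
    unfold b1 bb
    ring
  have hg : ∀ s, Z.val (conf A T B) (Z.cp x v s) (Z.cv x v s) (Z.cv x v s) ≠ 0 →
      0 ≤ 2 * B (lev A T (Z.cp x v s)) *
        (Q A (lev A T (Z.cp x v s)) (Z.cp x v s) (Z.cv x v s) ^ 2 /
          Q (dot A) (lev A T (Z.cp x v s)) (Z.cp x v s) (Z.cp x v s)) := by
    intro s hne
    obtain ⟨h1, h2⟩ := hn s hne
    have hyne := hne_cp_ne x v hxx hxv hvv s
    obtain ⟨h3, h4, -⟩ := lev_root hA D.lo_mem D.hi_mem D.lo_hi.le _ hyne h1.le h2.le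
    have h5 := hA.mono _ (D.mem h3 h4) _ hyne
    exact mul_nonneg (mul_nonneg zero_le_two (hB0 _)) (div_nonneg (sq_nonneg _) h5.le)
  have hpos : ∀ s, s ∈ Set.Ioo 0 Real.pi →
      Z.val (conf A T B) (Z.cp x v s) (Z.cv x v s) (Z.cv x v s) ≠ 0 →
      0 < Real.sign (Z.cp x v s₀ 0) *
        Z.val (conf A T B) (Z.cp x v s) (Z.cv x v s) (Z.cv x v s) := by
    intro s hs hne
    have h1 := same_side hA D.lo_mem x v hx s₀ s hs₀ hs (hn s₀ h₀).1 (hn s hne).1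
    have h2 := hg s hne
    have h3 : 2 * B (lev A T (Z.cp x v s)) *
        (Q A (lev A T (Z.cp x v s)) (Z.cp x v s) (Z.cv x v s) ^ 2 /
          Q (dot A) (lev A T (Z.cp x v s)) (Z.cp x v s) (Z.cp x v s)) ≠ 0 := by
      intro h4
      apply hne
      rw [hval, h4, mul_zero]
    have h4 : Real.sign (Z.cp x v s₀ 0) * Real.sign (Z.cp x v s 0) = 1 := by
      rcases pos_and_pos_or_neg_and_neg_of_mul_pos h1 with ⟨h5, h6⟩ | ⟨h5, h6⟩
      · rw [Real.sign_of_pos h5, Real.sign_of_pos h6, one_mul]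
      · rw [Real.sign_of_neg h5, Real.sign_of_neg h6]
        norm_num
    rw [hval, ← mul_assoc, h4, one_mul]
    exact lt_of_le_of_ne h2 h3.symm
  refine ⟨?_, hpos s₀ hs₀ h₀⟩
  by_cases hne : Z.val (conf A T B) (Z.cp x v s) (Z.cv x v s) (Z.cv x v s) = 0
  · rw [hne, mul_zero]
  · exact (hpos s hs hne).le

theorem half_ne (D : Dat A T B lo hi) (hB0 : ∀ s, 0 ≤ B s)
    (hBlo : ∀ m, lo < m → ∃ s, lo < s ∧ s < m ∧ B s ≠ 0) (x v : V d) (hxx : x ⬝ᵥ x = 1) (hxv : x ⬝ᵥ v = 0)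
    (hvv : v ⬝ᵥ v = 1) (hx : 0 < Q A lo x x) (h : 0 < RR A lo x v) : half (conf A T B) x v ≠ 0 := by
  obtain ⟨s₀, hs₀, h₀⟩ := hne_pt D hBlo x v hxx hxv hvv hx h
  have hcont := hne_cont D x v hxx hxv hvv
  have hc2 : Continuous (fun s => Real.sign (Z.cp x v s₀ 0) *
      Z.val (conf A T B) (Z.cp x v s) (Z.cv x v s) (Z.cv x v s)) := continuous_const.mul hcont
  have h1 : ∀ s ∈ Set.Ioo 0 Real.pi, 0 ≤ Real.sign (Z.cp x v s₀ 0) *
      Z.val (conf A T B) (Z.cp x v s) (Z.cv x v s) (Z.cv x v s) := fun s hs =>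
    (hne_sign D hB0 x v hxx hxv hvv hx hs₀ hs h₀).1
  have h2 : 0 < Real.sign (Z.cp x v s₀ 0) *
      Z.val (conf A T B) (Z.cp x v s₀) (Z.cv x v s₀) (Z.cv x v s₀) :=
    (hne_sign D hB0 x v hxx hxv hvv hx hs₀ hs₀ h₀).2
  have h3 : ∀ s ∈ Set.Icc 0 Real.pi, 0 ≤ Real.sign (Z.cp x v s₀ 0) *
      Z.val (conf A T B) (Z.cp x v s) (Z.cv x v s) (Z.cv x v s) := by
    have h4 : IsClosed {s | 0 ≤ Real.sign (Z.cp x v s₀ 0) *
        Z.val (conf A T B) (Z.cp x v s) (Z.cv x v s) (Z.cv x v s)} :=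
      isClosed_le continuous_const hc2
    have h5 : Set.Ioo 0 Real.pi ⊆ {s | 0 ≤ Real.sign (Z.cp x v s₀ 0) *
        Z.val (conf A T B) (Z.cp x v s) (Z.cv x v s) (Z.cv x v s)} := h1
    have h6 := h4.closure_subset_iff.2 h5
    rw [closure_Ioo Real.pi_pos.ne] at h6
    exact h6
  have h4 : 0 < ∫ s in (0 : ℝ)..Real.pi, Real.sign (Z.cp x v s₀ 0) *
      Z.val (conf A T B) (Z.cp x v s) (Z.cv x v s) (Z.cv x v s) :=
    intervalIntegral.integral_pos Real.pi_pos hc2.continuousOn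
      (fun s hs => h3 s (Set.Ioc_subset_Icc_self hs)) ⟨s₀, Set.Ioo_subset_Icc_self hs₀, h2⟩
  rw [intervalIntegral.integral_const_mul] at h4
  intro h5
  unfold half at h5
  rw [h5, mul_zero] at h4
  exact lt_irrefl _ h4

end Pool.Agent.Work.MP_659252_gt.Y
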