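import Pool.Agent.Work.MP_659252_gt.Z.Defs

/-!
# Vectors in the intersection of hyperplanes.  Size: S-M.

PROOF.  A linear map from `ℝ^{d+1}` to `ℝ^k` with `k < d + 1` has a nonzero kernel element (`LinearMap.exists_ne_zero_of_finrank_lt` or `LinearMap.ker_ne_bot_of_finrank_lt`).
`two_vec`: first `f₁ ≠ 0` with `f₁ 0 = 0`, `(R f₁) 0 = 0` (two conditions, `d + 1 ≥ 4`), normalised (`f₁ ⬝ f₁ > 0` for `f₁ ≠ 0`); then `f₂ ≠ 0` with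
`f₂ 0 = 0`, `(R f₂) 0 = 0`, `f₁ ⬝ f₂ = 0` (three conditions), normalised.   `third_vec`: three conditions again.
-/

namespace Pool.Agent.Work.MP_659252_gt.Y

open Pool.Agent.Work.MP_659252_gt.Z (V)

variable {d : ℕ}

private theorem htwo_pos (n : V d) (hn : n ≠ 0) : 0 < n ⬝ᵥ n := by
  have h3 : 0 ≤ n ⬝ᵥ n := Finset.sum_nonneg fun i _ => mul_self_nonneg (n i)
  rcases h3.eq_or_lt with h4 | h4
  · exact absurd (dotProduct_self_eq_zero.1 h4.symm) hn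
  · exact h4

private theorem htwo_unit (n : V d) (hn : n ≠ 0) : ∃ c : ℝ, (c • n) ⬝ᵥ (c • n) = 1 := by
  have hpos := htwo_pos n hn
  have hs : 0 < Real.sqrt (n ⬝ᵥ n) := Real.sqrt_pos.2 hpos
  have hss : Real.sqrt (n ⬝ᵥ n) ^ 2 = n ⬝ᵥ n := Real.sq_sqrt hpos.le
  refine ⟨1 / Real.sqrt (n ⬝ᵥ n), ?_⟩
  rw [dotProduct_smul, smul_dotProduct, smul_eq_mul, smul_eq_mul]
  field_simp
  exact hss.symm

theorem third_vec (hd : 3 ≤ d) (R : Matrix (Fin (d + 1)) (Fin (d + 1)) ℝ) (x : V d) :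
    ∃ n : V d, n ≠ 0 ∧ x ⬝ᵥ n = 0 ∧ n 0 = 0 ∧ (R.mulVec n) 0 = 0 := by
  let M : Matrix (Fin 3) (Fin (d + 1)) ℝ := Matrix.of ![Pi.single 0 1, x, fun j => R 0 j]
  have hker : LinearMap.ker M.mulVecLin ≠ ⊥ := by
    apply LinearMap.ker_ne_bot_of_finrank_lt
    simp only [Module.finrank_fintype_fun_eq_card, Fintype.card_fin]
    omega
  obtain ⟨v, hv, hv0⟩ := Submodule.exists_mem_ne_zero_of_ne_bot hker
  rw [LinearMap.mem_ker, Matrix.mulVecLin_apply] at hv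
  refine ⟨v, hv0, congrFun hv 1, ?_, congrFun hv 2⟩
  have h := congrFun hv 0
  change (Pi.single 0 1 : V d) ⬝ᵥ v = 0 at h
  rw [single_dotProduct, one_mul] at h
  exact h

theorem two_vec (hd : 3 ≤ d) (R : Matrix (Fin (d + 1)) (Fin (d + 1)) ℝ) :
    ∃ f₁ f₂ : V d, f₁ ⬝ᵥ f₁ = 1 ∧ f₂ ⬝ᵥ f₂ = 1 ∧ f₁ ⬝ᵥ f₂ = 0 ∧ f₁ 0 = 0 ∧ f₂ 0 = 0 ∧
      (R.mulVec f₁) 0 = 0 ∧ (R.mulVec f₂) 0 = 0 := by
  obtain ⟨n, hn, -, hn0, hRn⟩ := third_vec hd R 0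
  obtain ⟨c, hc⟩ := htwo_unit n hn
  obtain ⟨m, hm, hm1, hm0, hRm⟩ := third_vec hd R (c • n)
  obtain ⟨e, he⟩ := htwo_unit m hm
  refine ⟨c • n, e • m, hc, he, ?_, ?_, ?_, ?_, ?_⟩
  · rw [dotProduct_smul, hm1, smul_zero]
  · rw [Pi.smul_apply, hn0, smul_zero]
  · rw [Pi.smul_apply, hm0, smul_zero]
  · rw [Matrix.mulVec_smul, Pi.smul_apply, hRn, smul_zero]
  · rw [Matrix.mulVec_smul, Pi.smul_apply, hRm, smul_zero]

end Pool.Agent.Work.MP_659252_gt.Y
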