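import Pool.Agent.Work.MP_659252_gt.Y.MetA
import Pool.Agent.Work.MP_659252_gt.Y.RFact

/-!
# The half circle integral of `conf` vanishes on planes which miss the cone.  Size: S.  (Adapt the proofs of `Z/HZero.lean`.)

PROOF.  `Q A lo y y ≥ 0` on the whole circle (`Q_nonneg_of_RR`; `cp x v s = cos s x + sin s v`), so `bb A T B y = 0` (`bb_eq_zero`, `y ≠ 0` as `y ⬝ y = 1`), `b1 = 0`, and
`val (conf A T B) y w w = 2 b1 ... = 0` (`val_conf`): the integrand is `0`.  `conf_smooth`: the entries are `bb(x) Φ_ij(x, lev x)`,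
`Φ_ij(x, s) = 2 (A_s x)_i (A_s x)_j/Q (dot A) s x x` (`glue`, `A_smooth₂`, `dot_smooth₂`, `hA.mono`).
-/

namespace Pool.Agent.Work.MP_659252_gt.Y

open scoped ContDiff
open Pool.Agent.Work.MP_659252_gt.Z (V half)

variable {d : ℕ} {A : Path d} {T : ℝ} {B : ℝ → ℝ} {lo hi : ℝ}

theorem half_zero (D : Dat A T B lo hi) (x v : V d) (hxx : x ⬝ᵥ x = 1) (hxv : x ⬝ᵥ v = 0)
    (hvv : v ⬝ᵥ v = 1) (h : RR A lo x v ≤ 0) : half (conf A T B) x v = 0 := by
  have h1 : ∀ s, Z.val (conf A T B) (Z.cp x v s) (Z.cv x v s) (Z.cv x v s) = 0 := by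
    intro s
    have hq : 0 ≤ Q A lo (Z.cp x v s) (Z.cp x v s) :=
      Q_nonneg_of_RR D.nested D.lo_mem x v hxx hxv hvv h s
    have hne : Z.cp x v s ≠ 0 := by
      intro h0
      have h2 : Z.cp x v s ⬝ᵥ Z.cp x v s = 1 := by
        unfold Z.cp
        rw [add_dotProduct, smul_dotProduct, smul_dotProduct, dotProduct_add, dotProduct_add, dotProduct_smul,
          dotProduct_smul, dotProduct_smul, dotProduct_smul, hxx, hxv, hvv, dotProduct_comm v x, hxv]
        simp only [smul_eq_mul, mul_one, mul_zero, add_zero, zero_add]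
        have := Real.sin_sq_add_cos_sq s
        nlinarith
      rw [h0] at h2
      simp at h2
    rw [val_conf D.nested.symm]
    unfold b1
    rw [bb_eq_zero D _ hne (Or.inl hq)]
    ring
  unfold half
  simp only [h1]
  simp

private theorem AX_smooth (D : Dat A T B lo hi) (i : Fin (d + 1)) :
    ContDiffOn ℝ ∞ (fun p : V d × ℝ => AX A p.2 p.1 i) {p | p.1 ≠ 0 ∧ p.2 ∈ Set.Ioo 0 T} := by
  unfold AX
  apply ContDiffOn.sum
  intro j _
  have h1 : ContDiff ℝ ∞ (fun p : V d × ℝ => p.1 j) := (contDiff_apply ℝ ℝ j).comp contDiff_fst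
  exact ((A_smooth₂ D.nested i j).mono fun p hp => hp.2).mul h1.contDiffOn

theorem conf_smooth (D : Dat A T B lo hi) : ContDiffOn ℝ ∞ (conf A T B) {0}ᶜ := by
  rw [contDiffOn_pi]
  intro i
  rw [contDiffOn_pi]
  intro j
  have hcoord : ∀ k : Fin (d + 1), ContDiffOn ℝ ∞ (fun p : V d × ℝ => p.1 k)
      {p | p.1 ≠ 0 ∧ p.2 ∈ Set.Ioo 0 T} := by
    intro k
    have : ContDiff ℝ ∞ (fun p : V d × ℝ => p.1 k) := (contDiff_apply ℝ ℝ k).comp contDiff_fst
    exact this.contDiffOn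
  have hQd : ContDiffOn ℝ ∞ (fun p : V d × ℝ => Q (dot A) p.2 p.1 p.1)
      {p | p.1 ≠ 0 ∧ p.2 ∈ Set.Ioo 0 T} := by
    unfold Q
    apply ContDiffOn.sum
    intro k _
    apply ContDiffOn.sum
    intro l _
    exact ((dot_smooth₂ D.nested k l).mono fun p hp => hp.2).mul ((hcoord k).mul (hcoord l))
  have hΦ : ContDiffOn ℝ ∞ (fun p : V d × ℝ => 2 * (AX A p.2 p.1 i * AX A p.2 p.1 j /
      Q (dot A) p.2 p.1 p.1)) {p | p.1 ≠ 0 ∧ p.2 ∈ Set.Ioo 0 T} := by
    apply ContDiffOn.mul contDiffOn_const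
    apply ContDiffOn.div ((AX_smooth D i).mul (AX_smooth D j)) hQd
    intro p hp
    exact (D.nested.mono p.2 hp.2 p.1 hp.1).ne'
  refine (glue D _ hΦ).congr ?_
  intro x _
  unfold conf bb
  ring

end Pool.Agent.Work.MP_659252_gt.Y
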