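import Pool.Agent.Work.MP_659252_gt.Y.Sgn

/-!
# A passage through the upper half sphere, upper boundary of the ring.  Size: M.  (Similar to `Z/PathHi.lean`.)

`[a, b]` is a time interval with `x_0 > 0` and `Q A lo x x ≤ 0` (`= 0` at `a`, `b`).  Let `C s = Q A hi (x s) (x s)`: `C a > 0`, `C b > 0` (`Q_lt`).
Facts.  (1) At times with `C ≥ 0` the point is in the ring.
(2) At a time with `C = 0`: `lev = hi` (`lev_eq`), and `C` has derivative `2 Q A hi x v` (`bb = 0` there by `bb_eq_zero`, so `be = 0`, `x' = v`).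
(3) Where `C ≤ 0`: `bb = 0` (`bb_eq_zero`), on intervals the frame is constant (`W_const`).
PROOF.  If `C > 0` on `[a, b]` we are in the first case.  Otherwise let `a' = inf {s ∈ [a, b] | C s ≤ 0}`, `b' = sup {...}`: `a < a' ≤ b' < b`, `C a' = C b' = 0`, `C > 0` on `[a, a')` and
`(b', b]`; so the derivative of `C` at `a'` is `≤ 0`, `Q A hi (x a') (v a') ≤ 0`, and `Q A hi (x b') (v b') ≥ 0`.
Claim: `C ≤ 0` on `[a', b']`: if `C s* > 0` let `s' = sup {s ∈ [a', s*] | C s ≤ 0}`, `s'' = inf {s ∈ [s*, b'] | C s ≤ 0}`: `s' < s* < s''`, `C s' = C s'' = 0`, `C > 0` on `(s', s'')`, so `[s', s'']` are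
ring times, the derivative of `C` at `s'` is `≥ 0`, so `Q A hi (x s') (v s') ≥ 0`, and `lev (x s') = hi`: by `q_sign` `Q A hi (x s'') (v s'') > 0`, but the derivative of `C` at `s''` is `≤ 0`: contradiction.
So the frame is constant on `[a', b']` (`W_const`), and `Q A hi (x s) (v s) ^ 2 = RR A hi (x s) (v s) = RR A hi (W1 s) (W2 s)` (`RR_frame`) has the same value at `s = a'` and `s = b'`:
together with the signs, `Q A hi (x b') (v b') = -Q A hi (x a') (v a')`.
-/

namespace Pool.Agent.Work.MP_659252_gt.Y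

open Pool.Agent.Work.MP_659252_gt.Z (V W1 W2)

variable {d : ℕ} {A : Path d} {T : ℝ} {B : ℝ → ℝ} {lo hi : ℝ}

open Set Filter Topology in
private theorem deriv_nonneg_of_right {C : ℝ → ℝ} {c s t : ℝ} (hst : s < t) (h : HasDerivAt C c s) (h0 : C s = 0)
    (hp : ∀ r ∈ Set.Ioo s t, 0 < C r) : 0 ≤ c := by
  have h1 : Tendsto (slope C s) (𝓝[>] s) (𝓝 c) :=
    (hasDerivAt_iff_tendsto_slope.1 h).mono_left (nhdsWithin_mono _ fun r hr => ne_of_gt hr)
  refine ge_of_tendsto h1 ?_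
  filter_upwards [Ioo_mem_nhdsGT hst] with r hr
  rw [slope_def_field, h0, sub_zero]
  exact div_nonneg (hp r hr).le (sub_nonneg.2 hr.1.le)

open Set Filter Topology in
private theorem deriv_nonpos_of_left {C : ℝ → ℝ} {c s t : ℝ} (hst : t < s) (h : HasDerivAt C c s) (h0 : C s = 0)
    (hp : ∀ r ∈ Set.Ioo t s, 0 < C r) : c ≤ 0 := by
  have h1 : Tendsto (slope C s) (𝓝[<] s) (𝓝 c) :=
    (hasDerivAt_iff_tendsto_slope.1 h).mono_left (nhdsWithin_mono _ fun r hr => ne_of_lt hr)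
  refine le_of_tendsto h1 ?_
  filter_upwards [Ioo_mem_nhdsLT hst] with r hr
  rw [slope_def_field, h0, sub_zero]
  exact div_nonpos_of_nonneg_of_nonpos (hp r hr).le (sub_nonpos.2 hr.2.le)

private theorem ne0 {x v : ℝ → V d} (h : Sol A T B x v) (s : ℝ) : x s ≠ 0 := by
  intro h0
  have := h.xx s
  rw [h0] at this
  simp at this

private theorem cont_x {x v : ℝ → V d} (h : Sol A T B x v) : Continuous x :=
  continuous_iff_continuousAt.2 fun s => (h.dx s).continuousAt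

private theorem cont_Q {x : ℝ → V d} (hx : Continuous x) (m : ℝ) :
    Continuous fun s => Q A m (x s) (x s) := by
  unfold Q
  refine continuous_finsetSum _ fun i _ => continuous_finsetSum _ fun j _ => ?_
  exact continuous_const.mul (((continuous_apply i).comp hx).mul ((continuous_apply j).comp hx))

private theorem Q_self_deriv (hs : ∀ s i j, A s i j = A s j i) {x : ℝ → V d} {x' : V d} {s : ℝ}
    (m : ℝ) (h : HasDerivAt x x' s) :
    HasDerivAt (fun s => Q A m (x s) (x s)) (2 * Q A m (x s) x') s := by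
  have h1 : ∀ i, HasDerivAt (fun s => x s i) (x' i) s := fun i => (hasDerivAt_pi.1 h) i
  have h2 : HasDerivAt (fun s => ∑ i, ∑ j, A m i j * (x s i * x s j))
      (∑ i, ∑ j, A m i j * (x' i * x s j + x s i * x' j)) s :=
    HasDerivAt.fun_sum fun i _ => HasDerivAt.fun_sum fun j _ => ((h1 i).mul (h1 j)).const_mul _
  have h3 : ∑ i, ∑ j, A m i j * (x' i * x s j + x s i * x' j) = 2 * Q A m (x s) x' := by
    have h4 : ∑ i, ∑ j, A m i j * (x' i * x s j + x s i * x' j) =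
        Q A m x' (x s) + Q A m (x s) x' := by
      unfold Q
      simp only [mul_add, Finset.sum_add_distrib]
    rw [h4, Q_comm hs m x' (x s)]
    ring
  rw [← h3]
  exact h2

private theorem C_deriv (D : Dat A T B lo hi) {x v : ℝ → V d} (h : Sol A T B x v) (s : ℝ)
    (h0 : Q A hi (x s) (x s) = 0) :
    HasDerivAt (fun s => Q A hi (x s) (x s)) (2 * Q A hi (x s) (v s)) s := by
  have hbb : bb A T B (x s) = 0 := bb_eq_zero D (x s) (ne0 h s) (Or.inr h0.le)
  have hbe : be A T B (x s) = 0 := by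
    unfold be b1
    rw [hbb]
    simp
  have h1 := h.dx s
  rw [hbe, zero_smul, add_zero] at h1
  exact Q_self_deriv D.nested.symm hi h1

theorem path_hi (D : Dat A T B lo hi) (hB : Small A B lo hi) {x v : ℝ → V d} (h : Sol A T B x v)
    (a b : ℝ) (hab : a < b) (hpos : ∀ s ∈ Set.Icc a b, 0 < x s 0)
    (ha : Q A lo (x a) (x a) = 0) (hb : Q A lo (x b) (x b) = 0)
    (hin : ∀ s ∈ Set.Ioo a b, Q A lo (x s) (x s) < 0) :
    (∀ s ∈ Set.Icc a b, 0 < Q A hi (x s) (x s)) ∨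
    ∃ a' b' : ℝ, a < a' ∧ a' ≤ b' ∧ b' < b ∧
      (∀ s ∈ Set.Ico a a', 0 < Q A hi (x s) (x s)) ∧
      Q A hi (x a') (x a') = 0 ∧ Q A hi (x a') (v a') ≤ 0 ∧
      (W1 x v b' = W1 x v a' ∧ W2 x v b' = W2 x v a') ∧
      Q A hi (x b') (x b') = 0 ∧ Q A hi (x b') (v b') = -Q A hi (x a') (v a') ∧
      (∀ s ∈ Set.Ioc b' b, 0 < Q A hi (x s) (x s)) := by
  set C : ℝ → ℝ := fun s => Q A hi (x s) (x s) with hC
  have hCc : Continuous C := cont_Q (cont_x h) hi
  have hA : ∀ s ∈ Set.Icc a b, Q A lo (x s) (x s) ≤ 0 := by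
    intro s hs
    rcases hs.1.eq_or_lt with h1 | h1
    · rw [← h1]; exact ha.le
    rcases hs.2.eq_or_lt with h2 | h2
    · rw [h2]; exact hb.le
    exact (hin s ⟨h1, h2⟩).le
  have hCa : 0 < C a := by
    have := Q_lt D.nested D.lo_mem D.hi_mem D.lo_hi (x a) (ne0 h a)
    rw [ha] at this; exact this
  have hCb : 0 < C b := by
    have := Q_lt D.nested D.lo_mem D.hi_mem D.lo_hi (x b) (ne0 h b)
    rw [hb] at this; exact this
  by_cases hall : ∀ s ∈ Set.Icc a b, 0 < C s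
  · exact Or.inl hall
  right
  set S : Set ℝ := {s | s ∈ Set.Icc a b ∧ C s ≤ 0} with hS
  have hSc : IsCompact S := by
    have : S = Set.Icc a b ∩ C ⁻¹' Set.Iic 0 := rfl
    rw [this]
    exact isCompact_Icc.inter_right (isClosed_Iic.preimage hCc)
  have hSne : S.Nonempty := by
    by_contra hcon
    apply hall
    intro r hr
    by_contra hlt
    exact hcon ⟨r, hr, not_lt.1 hlt⟩
  obtain ⟨a', ha'S, hmin⟩ := hSc.exists_isLeast hSne
  obtain ⟨b', hb'S, hmax⟩ := hSc.exists_isGreatest hSne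
  have haa' : a < a' := by
    rcases ha'S.1.1.eq_or_lt with h1 | h1
    · exfalso; have := ha'S.2; rw [← h1] at this; linarith
    · exact h1
  have hbb' : b' < b := by
    rcases hb'S.1.2.eq_or_lt with h1 | h1
    · exfalso; have := hb'S.2; rw [h1] at this; linarith
    · exact h1
  have hab' : a' ≤ b' := hmin hb'S
  have hpa : ∀ s ∈ Set.Ico a a', 0 < C s := by
    intro s hs
    by_contra hcon
    have : s ∈ S := ⟨⟨hs.1, hs.2.le.trans ha'S.1.2⟩, not_lt.1 hcon⟩
    exact absurd (hmin this) (not_le.2 hs.2)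
  have hpb : ∀ s ∈ Set.Ioc b' b, 0 < C s := by
    intro s hs
    by_contra hcon
    have : s ∈ S := ⟨⟨hb'S.1.1.trans hs.1.le, hs.2⟩, not_lt.1 hcon⟩
    exact absurd (hmax this) (not_le.2 hs.1)
  have hCa' : C a' = 0 := by
    obtain ⟨r, hr, hr0⟩ := intermediate_value_Icc' haa'.le hCc.continuousOn ⟨ha'S.2, hCa.le⟩
    have hrS : r ∈ S := ⟨⟨hr.1, hr.2.trans ha'S.1.2⟩, le_of_eq hr0⟩
    have : r = a' := le_antisymm hr.2 (hmin hrS)
    rw [← this]; exact hr0
  have hCb' : C b' = 0 := by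
    obtain ⟨r, hr, hr0⟩ := intermediate_value_Icc hbb'.le hCc.continuousOn ⟨hb'S.2, hCb.le⟩
    have hrS : r ∈ S := ⟨⟨hb'S.1.1.trans hr.1, hr.2⟩, le_of_eq hr0⟩
    have : r = b' := le_antisymm (hmax hrS) hr.1
    rw [← this]; exact hr0
  have hqa' : Q A hi (x a') (v a') ≤ 0 := by
    have h1 := deriv_nonpos_of_left haa' (C_deriv D h a' hCa') hCa' fun r hr =>
      hpa r ⟨hr.1.le, hr.2⟩
    linarith
  have hqb' : 0 ≤ Q A hi (x b') (v b') := by
    have h1 := deriv_nonneg_of_right hbb' (C_deriv D h b' hCb') hCb' fun r hr =>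
      hpb r ⟨hr.1, hr.2.le⟩
    linarith
  have hmid : ∀ s ∈ Set.Icc a' b', C s ≤ 0 := by
    intro s hs
    by_contra hcon
    have hCs : 0 < C s := not_le.1 hcon
    set S1 : Set ℝ := Set.Icc a' s ∩ C ⁻¹' Set.Iic 0 with hS1
    set S2 : Set ℝ := Set.Icc s b' ∩ C ⁻¹' Set.Iic 0 with hS2
    have hS1c : IsCompact S1 := isCompact_Icc.inter_right (isClosed_Iic.preimage hCc)
    have hS2c : IsCompact S2 := isCompact_Icc.inter_right (isClosed_Iic.preimage hCc)
    obtain ⟨s1, hs1S, hs1⟩ := hS1c.exists_isGreatest ⟨a', ⟨le_rfl, hs.1⟩, hCa'.le⟩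
    obtain ⟨s2, hs2S, hs2⟩ := hS2c.exists_isLeast ⟨b', ⟨hs.2, le_rfl⟩, hCb'.le⟩
    have hs1lt : s1 < s := by
      rcases hs1S.1.2.eq_or_lt with h1 | h1
      · exfalso; have h3 : C s1 ≤ 0 := hs1S.2; rw [h1] at h3; linarith
      · exact h1
    have hs2gt : s < s2 := by
      rcases hs2S.1.1.eq_or_lt with h1 | h1
      · exfalso; have h3 : C s2 ≤ 0 := hs2S.2; rw [← h1] at h3; linarith
      · exact h1
    have hbetween : ∀ r ∈ Set.Ioo s1 s2, 0 < C r := by
      intro r hr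
      by_contra hcon
      have hr0 : C r ≤ 0 := not_lt.1 hcon
      rcases le_total r s with h1 | h1
      · exact absurd (hs1 ⟨⟨hs1S.1.1.trans hr.1.le, h1⟩, hr0⟩) (not_le.2 hr.1)
      · exact absurd (hs2 ⟨⟨h1, hr.2.le.trans hs2S.1.2⟩, hr0⟩) (not_le.2 hr.2)
    have hC1 : C s1 = 0 := by
      obtain ⟨r, hr, hr0⟩ := intermediate_value_Icc hs1lt.le hCc.continuousOn ⟨hs1S.2, hCs.le⟩
      have hrS : r ∈ S1 := ⟨⟨hs1S.1.1.trans hr.1, hr.2⟩, le_of_eq hr0⟩
      have : r = s1 := le_antisymm (hs1 hrS) hr.1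
      rw [← this]; exact hr0
    have hC2 : C s2 = 0 := by
      obtain ⟨r, hr, hr0⟩ := intermediate_value_Icc' hs2gt.le hCc.continuousOn ⟨hs2S.2, hCs.le⟩
      have hrS : r ∈ S2 := ⟨⟨hr.1, hr.2.trans hs2S.1.2⟩, le_of_eq hr0⟩
      have : r = s2 := le_antisymm hr.2 (hs2 hrS)
      rw [← this]; exact hr0
    have h12 : s1 < s2 := hs1lt.trans hs2gt
    have hsub : ∀ r ∈ Set.Icc s1 s2, r ∈ Set.Icc a b := fun r hr =>
      ⟨ha'S.1.1.trans (hs1S.1.1.trans hr.1), hr.2.trans (hs2S.1.2.trans hb'S.1.2)⟩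
    have hring : ∀ r ∈ Set.Icc s1 s2, 0 ≤ C r := by
      intro r hr
      rcases hr.1.eq_or_lt with h1 | h1
      · rw [← h1]; exact hC1.ge
      rcases hr.2.eq_or_lt with h2 | h2
      · rw [h2]; exact hC2.ge
      exact (hbetween r ⟨h1, h2⟩).le
    have hd1 := deriv_nonneg_of_right h12 (C_deriv D h s1 hC1) hC1 hbetween
    have hd2 := deriv_nonpos_of_left h12 (C_deriv D h s2 hC2) hC2 hbetween
    have hl1 : lev A T (x s1) = hi := lev_eq D.nested D.hi_mem (x s1) (ne0 h s1) hC1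
    have hl2 : lev A T (x s2) = hi := lev_eq D.nested D.hi_mem (x s2) (ne0 h s2) hC2
    have hq := q_sign D hB h s1 s2 h12
      (fun r hr => ⟨hpos r (hsub r hr), hA r (hsub r hr), hring r hr⟩)
      (by rw [hl1]; linarith)
    rw [hl2] at hq
    linarith
  have hW := W_const D.nested.symm h
    (fun s hs => bb_eq_zero D (x s) (ne0 h s) (Or.inr (hmid s hs))) b' ⟨hab', le_rfl⟩
  refine ⟨a', b', haa', hab', hbb', hpa, hCa', hqa', hW, hCb', ?_, hpb⟩
  have hR : RR A hi (x b') (v b') = RR A hi (x a') (v a') := by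
    rw [← RR_frame D.nested.symm hi x v b', ← RR_frame D.nested.symm hi x v a', hW.1, hW.2]
  have hCa2 : Q A hi (x a') (x a') = 0 := hCa'
  have hCb2 : Q A hi (x b') (x b') = 0 := hCb'
  unfold RR at hR
  rw [hCa2, hCb2, zero_mul, zero_mul, sub_zero, sub_zero] at hR
  rcases sq_eq_sq_iff_eq_or_eq_neg.1 hR with h1 | h1
  · have h2 : Q A hi (x a') (v a') = 0 := le_antisymm hqa' (h1 ▸ hqb')
    rw [h1, h2, neg_zero]
  · exact h1

end Pool.Agent.Work.MP_659252_gt.Y
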