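import Pool.Agent.Work.MP_659252_gt.Y.PathLo
import Pool.Agent.Work.MP_659252_gt.Y.PathHi
import Pool.Agent.Work.MP_659252_gt.Y.CmpA

/-!
# The two half passages give the same frame.  Size: M-L.  (Similar to `Z/Pass.lean`.)

`(x, v)` is a solution for `B`, `(x', v')` for `-B`, both pass through the upper half sphere during `[0, S]`, `[0, S']`, and
`x' 0 = -x 0`, `v' 0 = v 0`.  Claim: `W1' (S') = -W1 (S)`, `W2' (S') = W2 (S)`.
PROOF.  `RR A lo (x' 0) (v' 0) = RR A lo (x 0) (v 0) =: R` (`RR_neg_left`).  At time `0`: `W1 0 = x 0`, `W2 0 = v 0`.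
Case 0: `R ≤ 0`: `path_none` for both (`D.neg`, `hB.neg`).
Case 1: `R > 0`: `path_lo` for both gives `a, b`, `a', b'`.  States at the start: level `lo` (`lev_eq`); `Q A lo (x a) (v a) = -√R`: it is negative and its square is
`RR A lo (x a) (v a) = RR A lo (W1 a) (W2 a) = RR A lo (W1 0) (W2 0) = R` (`RR_frame`, `Q A lo (x a) (x a) = 0`); frame `W(0)`: `ZZ A T 1 x v a = (lo, -√R, x 0, v 0) = ZZ A T (-1) x' v' a'`.
Apply `path_hi` to both.
(AA) `Q A hi > 0` on `[a, b]` and on `[a', b']`: `ring_compare` on `[a, b]`, `[a', b']` with `e m = m - lo` (inside `Q A lo < 0`, so `lo < lev` by `lt_lev`; at the end `lev = lo`): the frames at the end agree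
(up to the sign of the first vector), and they are the frames at `S`, `S'`.
(BB) Let `a₁ ≤ b₁` and `a₁' ≤ b₁'` be the times of `path_hi`.  First piece `[a, a₁]`, `[a', a₁']` with `e m = m - hi` (inside `Q A hi > 0`, so `lev < hi` by `lev_lt`; at the end `lev = hi`): the states at `a₁`, `a₁'`
agree.  States at `b₁`, `b₁'`: level `hi`, `Q A hi (x b₁) (v b₁) = -Q A hi (x a₁) (v a₁)`, same frames as at `a₁`, `a₁'`: they agree too.  Second piece `[b₁, b]`, `[b₁', b']` with `e m = m - lo`.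
(AB), (BA) are impossible: for (AB) compare `[a, b]` and `[a', a₁']` with `e m = (m - lo) * (m - hi)`: inside both `lo < lev < hi`, at the ends `lev = lo`, resp. `lev = hi`; `ring_compare` gives equal
states, so `lo = hi`: contradiction to `D.lo_hi`.
Ring times: `x_0 > 0` (`0 < a`, `b < S`), `Q A lo ≤ 0` on `[a, b]`, `Q A hi ≥ 0` on the pieces.
-/

namespace Pool.Agent.Work.MP_659252_gt.Y

open Pool.Agent.Work.MP_659252_gt.Z (V W1 W2)

variable {d : ℕ} {A : Path d} {T : ℝ} {B : ℝ → ℝ} {lo hi : ℝ}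

private theorem sol_ne {x v : ℝ → V d} (h : Sol A T B x v) (s : ℝ) : x s ≠ 0 := by
  intro h0
  have h1 := h.xx s
  rw [h0, dotProduct_zero] at h1
  exact zero_ne_one h1

private theorem W1_zero (x v : ℝ → V d) : W1 x v 0 = x 0 := by
  unfold W1
  rw [Real.cos_zero, Real.sin_zero, one_smul, zero_smul, sub_zero]

private theorem W2_zero (x v : ℝ → V d) : W2 x v 0 = v 0 := by
  unfold W2
  rw [Real.cos_zero, Real.sin_zero, one_smul, zero_smul, zero_add]

private theorem lev_at (D : Dat A T B lo hi) {x v : ℝ → V d} {C : ℝ → ℝ} (h : Sol A T C x v) {l : ℝ}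
    (hl : l ∈ Set.Ioo 0 T) {s : ℝ} (hQ : Q A l (x s) (x s) = 0) : lev A T (x s) = l :=
  lev_eq D.nested hl (x s) (sol_ne h s) hQ

private theorem state_eq (D : Dat A T B lo hi) {x v : ℝ → V d} {C : ℝ → ℝ} (h : Sol A T C x v) {l : ℝ}
    (hl : l ∈ Set.Ioo 0 T) {s : ℝ} (hQ : Q A l (x s) (x s) = 0) (c : ℝ) :
    ZZ A T c x v s = (l, Q A l (x s) (v s), c • W1 x v s, W2 x v s) := by
  unfold ZZ
  rw [lev_at D h hl hQ]

private theorem q_start (D : Dat A T B lo hi) {x v : ℝ → V d} {s : ℝ}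
    (hQ : Q A lo (x s) (x s) = 0) (hq : Q A lo (x s) (v s) < 0)
    (hW1 : W1 x v s = W1 x v 0) (hW2 : W2 x v s = W2 x v 0) :
    Q A lo (x s) (v s) = -Real.sqrt (RR A lo (x 0) (v 0)) := by
  have h1 : RR A lo (x 0) (v 0) = Q A lo (x s) (v s) ^ 2 := by
    rw [← W1_zero x v, ← W2_zero x v, ← hW1, ← hW2, RR_frame D.nested.symm]
    unfold RR
    rw [hQ, zero_mul, sub_zero]
  rw [h1, Real.sqrt_sq_eq_abs, abs_of_neg hq, neg_neg]

private theorem frames {x v x' v' : ℝ → V d} {s s' : ℝ}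
    (h : ZZ A T 1 x v s = ZZ A T (-1) x' v' s') : W1 x' v' s' = -W1 x v s ∧ W2 x' v' s' = W2 x v s := by
  unfold ZZ at h
  have h1 := congrArg (fun z : ℝ × ℝ × V d × V d => z.2.2.1) h
  have h2 := congrArg (fun z : ℝ × ℝ × V d × V d => z.2.2.2) h
  simp only [one_smul, neg_smul] at h1 h2
  exact ⟨by rw [h1, neg_neg], h2.symm⟩

theorem pass (D : Dat A T B lo hi) (hB : Small A B lo hi) {x v x' v' : ℝ → V d}
    (h : Sol A T B x v) (h' : Sol A T (fun s => -B s) x' v')
    (S : ℝ) (hS : 0 < S) (h0 : x 0 0 = 0) (hpos : ∀ s ∈ Set.Ioo 0 S, 0 < x s 0) (hS0 : x S 0 = 0)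
    (S' : ℝ) (hS' : 0 < S') (h0' : x' 0 0 = 0) (hpos' : ∀ s ∈ Set.Ioo 0 S', 0 < x' s 0) (hS0' : x' S' 0 = 0)
    (hx : x' 0 = -x 0) (hv : v' 0 = v 0) :
    W1 x' v' S' = -W1 x v S ∧ W2 x' v' S' = W2 x v S := by
  have hRR : RR A lo (x' 0) (v' 0) = RR A lo (x 0) (v 0) := by
    rw [hx, hv, RR_neg_left]
  have hw1 : W1 x' v' 0 = -W1 x v 0 := by rw [W1_zero, W1_zero, hx]
  have hw2 : W2 x' v' 0 = W2 x v 0 := by rw [W2_zero, W2_zero, hv]
  by_cases hR : RR A lo (x 0) (v 0) ≤ 0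
  · obtain ⟨-, h1, h2⟩ := path_none D hB h hR S
    obtain ⟨-, h3, h4⟩ := path_none D.neg hB.neg h' (by rw [hRR]; exact hR) S'
    exact ⟨by rw [h3, h1, hw1], by rw [h4, h2, hw2]⟩
  rw [not_le] at hR
  obtain ⟨a, b, ha0, hab, hbS, ⟨hWa1, hWa2⟩, ⟨hWb1, hWb2⟩, hQa, hqa, hQb, hqb, hin⟩ :=
    path_lo D hB h S hS h0 hpos hS0 hR
  obtain ⟨a', b', ha0', hab', hbS', ⟨hWa1', hWa2'⟩, ⟨hWb1', hWb2'⟩, hQa', hqa', hQb', hqb', hin'⟩ :=
    path_lo D.neg hB.neg h' S' hS' h0' hpos' hS0' (by rw [hRR]; exact hR)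
  have hposI : ∀ s ∈ Set.Icc a b, 0 < x s 0 := fun s hs =>
    hpos s ⟨ha0.trans_le hs.1, hs.2.trans_lt hbS⟩
  have hposI' : ∀ s ∈ Set.Icc a' b', 0 < x' s 0 := fun s hs =>
    hpos' s ⟨ha0'.trans_le hs.1, hs.2.trans_lt hbS'⟩
  have hlo : ∀ s ∈ Set.Icc a b, Q A lo (x s) (x s) ≤ 0 := by
    intro s hs
    rcases hs.1.eq_or_lt with h1 | h1
    · rw [← h1]
      exact hQa.le
    rcases hs.2.eq_or_lt with h2 | h2
    · rw [h2]
      exact hQb.le
    exact (hin s ⟨h1, h2⟩).le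
  have hlo' : ∀ s ∈ Set.Icc a' b', Q A lo (x' s) (x' s) ≤ 0 := by
    intro s hs
    rcases hs.1.eq_or_lt with h1 | h1
    · rw [← h1]
      exact hQa'.le
    rcases hs.2.eq_or_lt with h2 | h2
    · rw [h2]
      exact hQb'.le
    exact (hin' s ⟨h1, h2⟩).le
  have hA := D.nested
  have llo : ∀ s ∈ Set.Ioo a b, lev A T (x s) ≠ lo := fun s hs =>
    (lt_lev hA D.lo_mem (x s) (sol_ne h s) (hin s hs)).ne'
  have llo' : ∀ s ∈ Set.Ioo a' b', lev A T (x' s) ≠ lo := fun s hs =>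
    (lt_lev hA D.lo_mem (x' s) (sol_ne h' s) (hin' s hs)).ne'
  have lhi : ∀ s, 0 < Q A hi (x s) (x s) → lev A T (x s) ≠ hi := fun s hs =>
    (lev_lt hA D.hi_mem (x s) (sol_ne h s) hs).ne
  have lhi' : ∀ s, 0 < Q A hi (x' s) (x' s) → lev A T (x' s) ≠ hi := fun s hs =>
    (lev_lt hA D.hi_mem (x' s) (sol_ne h' s) hs).ne
  have ebl : lev A T (x b) = lo := lev_at D h D.lo_mem hQb
  have ebl' : lev A T (x' b') = lo := lev_at D h' D.lo_mem hQb'
  -- the states at the start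
  have hstart : ZZ A T 1 x v a = ZZ A T (-1) x' v' a' := by
    rw [state_eq D h D.lo_mem hQa, state_eq D h' D.lo_mem hQa', q_start D hQa hqa hWa1 hWa2,
      q_start D hQa' hqa' hWa1' hWa2', hRR, hWa1, hWa2, hWa1', hWa2', hw1, hw2, one_smul, neg_smul,
      one_smul, neg_neg]
  have hfin : ZZ A T 1 x v b = ZZ A T (-1) x' v' b' := by
    rcases path_hi D hB h a b hab hposI hQa hQb hin with hC | ⟨a₁, b₁, haa, hab₁, hbb, hC1, hQa₁,
      hqa₁, ⟨hV1, hV2⟩, hQb₁, hqb₁, hC2⟩ <;>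
    rcases path_hi D.neg hB.neg h' a' b' hab' hposI' hQa' hQb' hin' with hC' | ⟨a₁', b₁', haa',
      hab₁', hbb', hC1', hQa₁', hqa₁', ⟨hV1', hV2'⟩, hQb₁', hqb₁', hC2'⟩
    · -- both stay below the upper boundary
      refine ring_compare D hB h h' hab hab' ?_ ?_ hstart (fun m => m - lo) ?_ ?_ ?_ ?_
      · intro s hs
        exact ⟨hposI s hs, hlo s hs, (hC s hs).le⟩
      · intro s hs
        exact ⟨hposI' s hs, hlo' s hs, (hC' s hs).le⟩
      · intro s hs
        exact sub_ne_zero.mpr (llo s hs)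
      · exact sub_eq_zero.mpr ebl
      · intro s hs
        exact sub_ne_zero.mpr (llo' s hs)
      · exact sub_eq_zero.mpr ebl'
    · exfalso
      have hc : ZZ A T 1 x v b = ZZ A T (-1) x' v' a₁' := by
        refine ring_compare D hB h h' hab haa' ?_ ?_ hstart (fun m => (m - lo) * (m - hi)) ?_ ?_ ?_ ?_
        · intro s hs
          exact ⟨hposI s hs, hlo s hs, (hC s hs).le⟩
        · intro s hs
          have hs' : s ∈ Set.Icc a' b' := ⟨hs.1, by linarith [hs.2]⟩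
          refine ⟨hposI' s hs', hlo' s hs', ?_⟩
          rcases hs.2.eq_or_lt with h2 | h2
          · rw [h2]
            exact hQa₁'.ge
          · exact (hC1' s ⟨hs.1, h2⟩).le
        · intro s hs
          exact mul_ne_zero (sub_ne_zero.mpr (llo s hs))
            (sub_ne_zero.mpr (lhi s (hC s ⟨hs.1.le, hs.2.le⟩)))
        · show (lev A T (x b) - lo) * (lev A T (x b) - hi) = 0
          rw [ebl, sub_self, zero_mul]
        · intro s hs
          exact mul_ne_zero (sub_ne_zero.mpr (llo' s ⟨hs.1, by linarith [hs.2]⟩))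
            (sub_ne_zero.mpr (lhi' s (hC1' s ⟨hs.1.le, hs.2⟩)))
        · show (lev A T (x' a₁') - lo) * (lev A T (x' a₁') - hi) = 0
          rw [lev_at D h' D.hi_mem hQa₁', sub_self, mul_zero]
      have h1 : lev A T (x b) = lev A T (x' a₁') := congrArg Prod.fst hc
      rw [ebl, lev_at D h' D.hi_mem hQa₁'] at h1
      exact D.lo_hi.ne h1
    · exfalso
      have hc : ZZ A T 1 x v a₁ = ZZ A T (-1) x' v' b' := by
        refine ring_compare D hB h h' haa hab' ?_ ?_ hstart (fun m => (m - lo) * (m - hi)) ?_ ?_ ?_ ?_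
        · intro s hs
          have hs' : s ∈ Set.Icc a b := ⟨hs.1, by linarith [hs.2]⟩
          refine ⟨hposI s hs', hlo s hs', ?_⟩
          rcases hs.2.eq_or_lt with h2 | h2
          · rw [h2]
            exact hQa₁.ge
          · exact (hC1 s ⟨hs.1, h2⟩).le
        · intro s hs
          exact ⟨hposI' s hs, hlo' s hs, (hC' s hs).le⟩
        · intro s hs
          exact mul_ne_zero (sub_ne_zero.mpr (llo s ⟨hs.1, by linarith [hs.2]⟩))
            (sub_ne_zero.mpr (lhi s (hC1 s ⟨hs.1.le, hs.2⟩)))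
        · show (lev A T (x a₁) - lo) * (lev A T (x a₁) - hi) = 0
          rw [lev_at D h D.hi_mem hQa₁, sub_self, mul_zero]
        · intro s hs
          exact mul_ne_zero (sub_ne_zero.mpr (llo' s hs))
            (sub_ne_zero.mpr (lhi' s (hC' s ⟨hs.1.le, hs.2.le⟩)))
        · show (lev A T (x' b') - lo) * (lev A T (x' b') - hi) = 0
          rw [ebl', sub_self, zero_mul]
      have h1 : lev A T (x a₁) = lev A T (x' b') := congrArg Prod.fst hc
      rw [ebl', lev_at D h D.hi_mem hQa₁] at h1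
      exact D.lo_hi.ne' h1
    · -- first piece
      have h1 : ZZ A T 1 x v a₁ = ZZ A T (-1) x' v' a₁' := by
        refine ring_compare D hB h h' haa haa' ?_ ?_ hstart (fun m => m - hi) ?_ ?_ ?_ ?_
        · intro s hs
          have hs' : s ∈ Set.Icc a b := ⟨hs.1, by linarith [hs.2]⟩
          refine ⟨hposI s hs', hlo s hs', ?_⟩
          rcases hs.2.eq_or_lt with h2 | h2
          · rw [h2]
            exact hQa₁.ge
          · exact (hC1 s ⟨hs.1, h2⟩).le
        · intro s hs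
          have hs' : s ∈ Set.Icc a' b' := ⟨hs.1, by linarith [hs.2]⟩
          refine ⟨hposI' s hs', hlo' s hs', ?_⟩
          rcases hs.2.eq_or_lt with h2 | h2
          · rw [h2]
            exact hQa₁'.ge
          · exact (hC1' s ⟨hs.1, h2⟩).le
        · intro s hs
          exact sub_ne_zero.mpr (lhi s (hC1 s ⟨hs.1.le, hs.2⟩))
        · exact sub_eq_zero.mpr (lev_at D h D.hi_mem hQa₁)
        · intro s hs
          exact sub_ne_zero.mpr (lhi' s (hC1' s ⟨hs.1.le, hs.2⟩))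
        · exact sub_eq_zero.mpr (lev_at D h' D.hi_mem hQa₁')
      obtain ⟨hf1, hf2⟩ := frames h1
      have hq : Q A hi (x a₁) (v a₁) = Q A hi (x' a₁') (v' a₁') := by
        rw [state_eq D h D.hi_mem hQa₁, state_eq D h' D.hi_mem hQa₁'] at h1
        exact congrArg (fun z : ℝ × ℝ × V d × V d => z.2.1) h1
      have hmid : ZZ A T 1 x v b₁ = ZZ A T (-1) x' v' b₁' := by
        rw [state_eq D h D.hi_mem hQb₁, state_eq D h' D.hi_mem hQb₁', hqb₁, hqb₁', hq,
          hV1, hV2, hV1', hV2', hf1, hf2, one_smul, neg_smul, one_smul, neg_neg]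
      refine ring_compare D hB h h' hbb hbb' ?_ ?_ hmid (fun m => m - lo) ?_ ?_ ?_ ?_
      · intro s hs
        have hs' : s ∈ Set.Icc a b := ⟨by linarith [hs.1], hs.2⟩
        refine ⟨hposI s hs', hlo s hs', ?_⟩
        rcases hs.1.eq_or_lt with h2 | h2
        · rw [← h2]
          exact hQb₁.ge
        · exact (hC2 s ⟨h2, hs.2⟩).le
      · intro s hs
        have hs' : s ∈ Set.Icc a' b' := ⟨by linarith [hs.1], hs.2⟩
        refine ⟨hposI' s hs', hlo' s hs', ?_⟩
        rcases hs.1.eq_or_lt with h2 | h2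
        · rw [← h2]
          exact hQb₁'.ge
        · exact (hC2' s ⟨h2, hs.2⟩).le
      · intro s hs
        exact sub_ne_zero.mpr (llo s ⟨by linarith [hs.1], hs.2⟩)
      · exact sub_eq_zero.mpr ebl
      · intro s hs
        exact sub_ne_zero.mpr (llo' s ⟨by linarith [hs.1], hs.2⟩)
      · exact sub_eq_zero.mpr ebl'
  obtain ⟨hf1, hf2⟩ := frames hfin
  exact ⟨by rw [← hWb1', hf1, hWb1], by rw [← hWb2', hf2, hWb2]⟩

end Pool.Agent.Work.MP_659252_gt.Y
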