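import Pool.Agent.Work.MP_659252_gt.Y.Lev
import Pool.Agent.Work.MP_659252_gt.Z.Refl

/-!
# Time reversal and antipody exchange `B` and `-B`.  Size: S-M.  (Adapt the proofs of `Z/Refl.lean`.)

Let `x' s = -x (-s)`, `v' s = v (-s)`.
PROOF.  `bb A T (-B) (-x) = sign(-x_0) (-B (lev (-x))) = bb A T B x` (`lev_neg`, `Real.sign_neg`), and `M`, `N` do not change under `x ↦ -x` (`AX_neg`), so
`be A T (-B) (-x) = be A T B x`.  `X1 A s (-x) v = X1 A s x v`, `X2 A s (-x) v = -X2 A s x v` (`Q_neg`, `Q_neg_right`, `AX_neg`).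
`x'' = (d/ds)(-x (-s)) = x'(-s) = v (-s) + be X1 x v = v' + be' X1 (x') v'`.  `(v')' = -(v'(-s)) = x (-s) - be X2 x v = -x' + be' X2 x' v'`.
Orthonormality is clear.  (The frames: `Z.W_reflect`.)  `shift` is immediate.
-/

namespace Pool.Agent.Work.MP_659252_gt.Y

open Pool.Agent.Work.MP_659252_gt.Z (V)

variable {d : ℕ} {A : Path d} {T : ℝ} {B : ℝ → ℝ}

private theorem refl_bb (x : V d) : bb A T (fun s => -B s) (-x) = bb A T B x := by
  unfold bb
  rw [lev_neg, Pi.neg_apply, Real.sign_neg]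
  ring

private theorem refl_M (A' : Path d) (s : ℝ) (x : V d) : Q A' s (-x) (-x) = Q A' s x x := by
  rw [Q_neg, Q_neg_right, neg_neg]

private theorem refl_N (s : ℝ) (x : V d) : NN A s (-x) = NN A s x := by
  unfold NN
  rw [AX_neg, neg_dotProduct, dotProduct_neg, neg_neg]

private theorem refl_b1 (x : V d) : b1 A T (fun s => -B s) (-x) = b1 A T B x := by
  unfold b1
  rw [refl_bb, lev_neg, refl_M]

private theorem refl_bN (x : V d) : bN A T (fun s => -B s) (-x) = bN A T B x := by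
  unfold bN
  rw [refl_b1, lev_neg, refl_N]

private theorem refl_be (x : V d) : be A T (fun s => -B s) (-x) = be A T B x := by
  unfold be
  rw [refl_b1, refl_bN]

private theorem refl_X1 (s : ℝ) (x v : V d) : X1 A s (-x) v = X1 A s x v := by
  unfold X1
  rw [refl_M, Q_neg, AX_neg, smul_neg, mul_neg, neg_smul, neg_neg]

private theorem refl_X2 (s : ℝ) (x v : V d) : X2 A s (-x) v = -X2 A s x v := by
  unfold X2
  rw [Q_neg, AX_neg, smul_neg, mul_neg, neg_smul]
  abel

private theorem refl_comp {y : ℝ → V d} {D : V d} {s : ℝ} (h : HasDerivAt y D (-s)) :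
    HasDerivAt (fun s => y (-s)) (-D) s := by
  have h1 := HasDerivAt.scomp s h (hasDerivAt_neg s)
  rw [neg_one_smul] at h1
  exact h1

theorem Sol.reflect {x v : ℝ → V d} (h : Sol A T B x v) :
    Sol A T (fun s => -B s) (fun s => -x (-s)) (fun s => v (-s)) := by
  refine ⟨fun s => ?_, fun s => ?_, fun s => h.vv (-s), fun s => ?_, fun s => ?_⟩
  · change (-x (-s)) ⬝ᵥ (-x (-s)) = 1
    rw [neg_dotProduct, dotProduct_neg, neg_neg]
    exact h.xx (-s)
  · change (-x (-s)) ⬝ᵥ v (-s) = 0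
    rw [neg_dotProduct, h.xv (-s), neg_zero]
  · have h1 := (refl_comp (h.dx (-s))).neg
    change HasDerivAt (fun s => -x (-s)) (v (-s) + be A T (fun s => -B s) (-x (-s)) •
      X1 A (lev A T (-x (-s))) (-x (-s)) (v (-s))) s
    rw [refl_be, lev_neg, refl_X1]
    rw [neg_neg] at h1
    exact h1
  · have h1 := refl_comp (h.dv (-s))
    change HasDerivAt (fun s => v (-s)) (-(-x (-s)) + be A T (fun s => -B s) (-x (-s)) •
      X2 A (lev A T (-x (-s))) (-x (-s)) (v (-s))) s
    rw [refl_be, lev_neg, refl_X2, smul_neg, ← neg_add]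
    exact h1

theorem Sol.shift {x v : ℝ → V d} (h : Sol A T B x v) (c : ℝ) :
    Sol A T B (fun s => x (s + c)) (fun s => v (s + c)) := by
  refine ⟨fun s => h.xx (s + c), fun s => h.xv (s + c), fun s => h.vv (s + c), fun s => ?_, fun s => ?_⟩
  · exact (h.dx (s + c)).comp_add_const s c
  · exact (h.dv (s + c)).comp_add_const s c

end Pool.Agent.Work.MP_659252_gt.Y
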