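import Pool.Agent.Work.MP_659252_gt.Y.LevD

/-!
# The level and `Q(x, v)` along a solution.  Size: M.  (Adapt the proofs of `Z/RingD.lean`.)

Let `(x, v)` be a solution, `m = lev A T (x u) ∈ (0, T)` with `Q A m x x = 0`, `M = Q (dot A) m x x > 0`, `N = NN A m x`, `β₁ = b1`, `b = bN = β₁ N`,
`2 be = β₁/(1 + b)`, `q = Q A m x v`, `gg = 1/((1 + b) M)`.  As `Q x x = 0`: `X1 = -2 q A x`, `X2 = 2 (q A v - Q(v,v) A x)`.
PROOF.  `lev_D`: chain rule with `lev_contDiffAt`, `lev_fderiv`: derivative `-2 Q(x, x')/M`, `Q(x, x') = q - 2 be q N = q (1 - b/(1+b)) = q/(1+b)`.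
`q_D`: `(m, y, z) ↦ Q A m y z` has derivative `m' Q (dot A) x v + Q(x', v) + Q(x, v')` (`A_deriv` and the product rule); `Q(x', v) = Q(v,v) - 2 be q (A x ⬝ A v)`,
`Q(x, v') = -0 + 2 be (q (A x ⬝ A v) - Q(v,v) N)`, sum `Q(v,v) (1 - 2 be N) = Q(v,v)/(1+b)`, and `m' = -2q/((1+b)M)`:
total `(M Q(v,v) - 2 q Q (dot A) x v)/((1+b)M) = -RR' A m x v · gg` (the last term of `RR'` vanishes as `Q x x = 0`).
-/

namespace Pool.Agent.Work.MP_659252_gt.Y

open Pool.Agent.Work.MP_659252_gt.Z (V)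

variable {d : ℕ} {A : Path d} {T : ℝ} {B : ℝ → ℝ}

private theorem Q_X1 (hs : ∀ s i j, A s i j = A s j i) {m : ℝ} {x v : V d} (h : Q A m x x = 0) (y : V d) :
    Q A m y (X1 A m x v) = -2 * Q A m x v * (AX A m y ⬝ᵥ AX A m x) := by
  have h1 : X1 A m x v = (-(2 * Q A m x v)) • AX A m x := by
    unfold X1
    rw [h, mul_zero, zero_smul, zero_sub, neg_smul]
  rw [h1, Q_smul_right, Q_eq_dot' hs m y (AX A m x)]
  ring

private theorem Q_X2 (hs : ∀ s i j, A s i j = A s j i) {m : ℝ} {x v : V d} (y : V d) :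
    Q A m y (X2 A m x v) =
      2 * (Q A m x v * (AX A m y ⬝ᵥ AX A m v) - Q A m v v * (AX A m y ⬝ᵥ AX A m x)) := by
  have h1 : X2 A m x v = (2 * Q A m x v) • AX A m v + (-(2 * Q A m v v)) • AX A m x := by
    unfold X2
    rw [neg_smul, sub_eq_add_neg]
  rw [h1, Q_add_right, Q_smul_right, Q_smul_right, Q_eq_dot' hs m y (AX A m x),
    Q_eq_dot' hs m y (AX A m v)]
  ring

private theorem Q_has (hA : Nested A T) {L : ℝ → ℝ} {x v : ℝ → V d} {L' : ℝ} {x' v' : V d} {s : ℝ}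
    (hL : HasDerivAt L L' s) (hx : HasDerivAt x x' s) (hv : HasDerivAt v v' s)
    (hm : L s ∈ Set.Ioo 0 T) :
    HasDerivAt (fun s => Q A (L s) (x s) (v s))
      (Q A (L s) x' (v s) + Q A (L s) (x s) v' + L' * Q (dot A) (L s) (x s) (v s)) s := by
  unfold Q
  rw [Finset.mul_sum, ← Finset.sum_add_distrib, ← Finset.sum_add_distrib]
  apply HasDerivAt.fun_sum
  intro i _
  rw [Finset.mul_sum, ← Finset.sum_add_distrib, ← Finset.sum_add_distrib]
  apply HasDerivAt.fun_sum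
  intro j _
  have h1 := hasDerivAt_pi.1 hx i
  have h2 := hasDerivAt_pi.1 hv j
  have h0 : HasDerivAt (fun u => A (L u) i j) (dot A (L s) i j * L') s :=
    (A_deriv hA hm i j).comp s hL
  have h3 := h0.mul (h1.mul h2)
  refine h3.congr_deriv ?_
  simp only [Pi.mul_apply]
  ring

theorem lev_D (hA : Nested A T) {x v : ℝ → V d} (h : Sol A T B x v) (u : ℝ) (hb : 1 + bN A T B (x u) ≠ 0)
    (hm : lev A T (x u) ∈ Set.Ioo 0 T) (hr : Q A (lev A T (x u)) (x u) (x u) = 0) :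
    HasDerivAt (fun u => lev A T (x u)) (gg A T B (x u) * (-2 * Q A (lev A T (x u)) (x u) (v u))) u := by
  have hx0 : x u ≠ 0 := by
    intro hx
    have := h.xx u
    rw [hx, zero_dotProduct] at this
    exact zero_ne_one this
  have hd : DifferentiableAt ℝ (lev A T) (x u) :=
    (lev_contDiffAt hA hm (x u) hx0 hr).differentiableAt (by simp)
  have h1 := hd.hasFDerivAt.comp_hasDerivAt u (h.dx u)
  refine h1.congr_deriv ?_
  rw [lev_fderiv hA hm (x u) hx0 hr]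
  have hM : 0 < Q (dot A) (lev A T (x u)) (x u) (x u) := hA.mono _ hm (x u) hx0
  unfold gg be
  rw [Q_add_right, Q_smul_right, Q_X1 hA.symm hr]
  have hNN : AX A (lev A T (x u)) (x u) ⬝ᵥ AX A (lev A T (x u)) (x u) =
    NN A (lev A T (x u)) (x u) := rfl
  rw [hNN]
  have hbN : bN A T B (x u) = b1 A T B (x u) * NN A (lev A T (x u)) (x u) := rfl
  rw [hbN] at hb ⊢
  generalize Q (dot A) (lev A T (x u)) (x u) (x u) = M at hM ⊢
  generalize NN A (lev A T (x u)) (x u) = N at hb ⊢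
  generalize b1 A T B (x u) = β at hb ⊢
  have hM' := hM.ne'
  field_simp
  ring

theorem q_D (hA : Nested A T) {x v : ℝ → V d} (h : Sol A T B x v) (u : ℝ) (hb : 1 + bN A T B (x u) ≠ 0)
    (hm : lev A T (x u) ∈ Set.Ioo 0 T) (hr : Q A (lev A T (x u)) (x u) (x u) = 0) :
    HasDerivAt (fun u => Q A (lev A T (x u)) (x u) (v u))
      (gg A T B (x u) * (-RR' A (lev A T (x u)) (x u) (v u))) u := by
  have hx0 : x u ≠ 0 := by
    intro hx
    have := h.xx u
    rw [hx, zero_dotProduct] at this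
    exact zero_ne_one this
  have h1 := Q_has hA (lev_D hA h u hb hm hr) (h.dx u) (h.dv u) hm
  refine h1.congr_deriv ?_
  have hM : 0 < Q (dot A) (lev A T (x u)) (x u) (x u) := hA.mono _ hm (x u) hx0
  unfold gg be RR'
  rw [Q_add, Q_smul, Q_comm hA.symm _ (X1 A _ (x u) (v u)) (v u), Q_X1 hA.symm hr,
    Q_add_right, Q_neg_right, hr, Q_smul_right, Q_X2 hA.symm]
  have hNN : AX A (lev A T (x u)) (x u) ⬝ᵥ AX A (lev A T (x u)) (x u) =
    NN A (lev A T (x u)) (x u) := rfl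
  rw [hNN, dotProduct_comm (AX A (lev A T (x u)) (v u)) (AX A (lev A T (x u)) (x u))]
  have hbN : bN A T B (x u) = b1 A T B (x u) * NN A (lev A T (x u)) (x u) := rfl
  rw [hbN] at hb ⊢
  generalize Q (dot A) (lev A T (x u)) (x u) (x u) = M at hM ⊢
  generalize NN A (lev A T (x u)) (x u) = N at hb ⊢
  generalize b1 A T B (x u) = β at hb ⊢
  have hM' := hM.ne'
  field_simp
  ring

end Pool.Agent.Work.MP_659252_gt.Y
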