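import Pool.Agent.Work.MP_659252_gt.Y.Zpm
import Pool.Agent.Work.MP_659252_gt.Y.RFact

/-!
# In the ring `Q(x, v)` changes its sign only from minus to plus.  Size: S-M.

Let `p s = Q A (lev (x s)) (x s) (v s)` on the interval `[a, b]` of ring times.
PROOF.  `p` has the derivative `gg * (-RR')` (`q_D`, `ring_mem`, `one_add_pos`), so it is continuous on `[a, b]`.  If `p u = 0` at `u ∈ [a, b]` then with `m = lev (x u)`:
`Q A m x x = 0 = Q A m x v`, so `-RR' = Q (dot A) m x x * Q A m v v > 0` (`hA.mono`, `vv_pos`; `x 0 > 0`), and `gg > 0` (`gg_pos`): the derivative of `p` at `u` is positive.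
If `p a = 0` then `p > 0` immediately after `a`, so we may replace `a` by a later time and assume `p a > 0` (if the new time can be chosen `≥ b`, choose it `< b`).
Suppose `p b ≤ 0`.  Let `u = inf {s ∈ [a, b] | p s ≤ 0}`: `p u = 0`, `u > a`, `p > 0` on `[a, u)`, so the derivative at `u` is `≤ 0`: contradiction.
-/

namespace Pool.Agent.Work.MP_659252_gt.Y

open Pool.Agent.Work.MP_659252_gt.Z (V)

variable {d : ℕ} {A : Path d} {T : ℝ} {B : ℝ → ℝ} {lo hi : ℝ}

private theorem sgn_right {p : ℝ → ℝ} {u c : ℝ} (hd : HasDerivAt p c u) (hc : 0 < c) (hu : p u = 0) :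
    ∀ᶠ s in nhdsWithin u (Set.Ioi u), 0 < p s := by
  have h1 := (hasDerivAt_iff_tendsto_slope.1 hd).eventually (lt_mem_nhds hc)
  have h2 : nhdsWithin u (Set.Ioi u) ≤ nhdsWithin u {u}ᶜ :=
    nhdsWithin_mono u fun s hs => ne_of_gt hs
  filter_upwards [h2 h1, self_mem_nhdsWithin] with s hs hsu
  have hsu' : 0 < s - u := sub_pos.2 hsu
  rw [slope_def_field, hu, sub_zero] at hs
  have := (div_pos_iff_of_pos_right hsu').1 hs
  exact this

private theorem sgn_left {p : ℝ → ℝ} {u c : ℝ} (hd : HasDerivAt p c u) (hc : 0 < c) (hu : p u = 0) :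
    ∀ᶠ s in nhdsWithin u (Set.Iio u), p s < 0 := by
  have h1 := (hasDerivAt_iff_tendsto_slope.1 hd).eventually (lt_mem_nhds hc)
  have h2 : nhdsWithin u (Set.Iio u) ≤ nhdsWithin u {u}ᶜ :=
    nhdsWithin_mono u fun s hs => ne_of_lt hs
  filter_upwards [h2 h1, self_mem_nhdsWithin] with s hs hsu
  have hsu' : s - u < 0 := sub_neg.2 hsu
  rw [slope_def_field, hu, sub_zero] at hs
  rcases div_pos_iff.1 hs with h | h
  · exact absurd h.2 (not_lt.2 hsu'.le)
  · exact h.1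

private theorem sgn_aux {p p' : ℝ → ℝ} {a b : ℝ} (hab : a < b)
    (hd : ∀ s ∈ Set.Icc a b, HasDerivAt p (p' s) s)
    (hz : ∀ s ∈ Set.Icc a b, p s = 0 → 0 < p' s) (ha : 0 ≤ p a) : 0 < p b := by
  by_contra hb
  rw [not_lt] at hb
  have h1 : ∃ a', a ≤ a' ∧ a' < b ∧ 0 < p a' := by
    rcases ha.lt_or_eq with h | h
    · exact ⟨a, le_refl a, hab, h⟩
    · have hA : a ∈ Set.Icc a b := ⟨le_refl a, hab.le⟩
      have h2 := sgn_right (hd a hA) (hz a hA h.symm) h.symm
      have h3 : ∀ᶠ s in nhdsWithin a (Set.Ioi a), s ∈ Set.Ioo a b := Ioo_mem_nhdsGT hab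
      obtain ⟨s, hs1, hs2⟩ := (h2.and h3).exists
      exact ⟨s, hs2.1.le, hs2.2, hs1⟩
  obtain ⟨a', haa', ha'b, hpa'⟩ := h1
  have hcont : ContinuousOn p (Set.Icc a' b) := fun s hs =>
    (hd s ⟨haa'.trans hs.1, hs.2⟩).continuousAt.continuousWithinAt
  have hcl : IsClosed (Set.Icc a' b ∩ p ⁻¹' Set.Iic 0) :=
    hcont.preimage_isClosed_of_isClosed isClosed_Icc isClosed_Iic
  have hcp : IsCompact (Set.Icc a' b ∩ p ⁻¹' Set.Iic 0) :=
    isCompact_Icc.of_isClosed_subset hcl Set.inter_subset_left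
  obtain ⟨u, hu, hul⟩ := hcp.exists_isLeast ⟨b, ⟨ha'b.le, le_refl b⟩, hb⟩
  have hpu : p u ≤ 0 := hu.2
  have hau : a' < u := by
    rcases hu.1.1.lt_or_eq with h | h
    · exact h
    · exact absurd (h ▸ hpa' : 0 < p u) (not_lt.2 hpu)
  have huI : u ∈ Set.Icc a b := ⟨haa'.trans hu.1.1, hu.1.2⟩
  have hlt : ∀ᶠ s in nhdsWithin u (Set.Iio u), p s < 0 := by
    rcases hpu.lt_or_eq with h | h
    · exact nhdsWithin_le_nhds ((hd u huI).continuousAt.eventually (gt_mem_nhds h))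
    · exact sgn_left (hd u huI) (hz u huI h) h
  have h3 : ∀ᶠ s in nhdsWithin u (Set.Iio u), s ∈ Set.Ioo a' u := Ioo_mem_nhdsLT hau
  obtain ⟨s, hs1, hs2⟩ := (hlt.and h3).exists
  have h4 : u ≤ s := hul ⟨⟨hs2.1.le, hs2.2.le.trans hu.1.2⟩, hs1.le⟩
  exact absurd hs2.2 (not_lt.2 h4)

theorem q_sign (D : Dat A T B lo hi) (hB : Small A B lo hi) {x v : ℝ → V d} (h : Sol A T B x v) (a b : ℝ)
    (hab : a < b) (hr : ∀ s ∈ Set.Icc a b, InRing A lo hi (x s))
    (ha : 0 ≤ Q A (lev A T (x a)) (x a) (v a)) : 0 < Q A (lev A T (x b)) (x b) (v b) := by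
  refine sgn_aux (p := fun s => Q A (lev A T (x s)) (x s) (v s))
    (p' := fun s => gg A T B (x s) * (-RR' A (lev A T (x s)) (x s) (v s))) hab ?_ ?_ ha
  · intro s hs
    obtain ⟨_, _, h3, h4⟩ := ring_mem D (x s) (hr s hs)
    have hx : x s ≠ 0 := by
      intro h0
      have := (hr s hs).1
      rw [h0] at this
      exact absurd this (lt_irrefl _)
    exact q_D D.nested h s (one_add_pos D hB (x s) hx).ne' h3 h4
  · intro s hs hp
    obtain ⟨_, _, h3, h4⟩ := ring_mem D (x s) (hr s hs)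
    have hx : x s ≠ 0 := by
      intro h0
      have := (hr s hs).1
      rw [h0] at this
      exact absurd this (lt_irrefl _)
    have hp' : Q A (lev A T (x s)) (x s) (v s) = 0 := hp
    have h5 := vv_pos D.nested h3 (x s) (v s) (h.xx s) (h.xv s) (h.vv s) (hr s hs).1.ne' h4 hp'
    have h6 := D.nested.mono _ h3 (x s) hx
    have h7 := gg_pos D hB (x s) (hr s hs)
    refine mul_pos h7 ?_
    unfold RR'
    rw [hp', h4]
    have := mul_pos h6 h5
    linarith

end Pool.Agent.Work.MP_659252_gt.Y
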