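import Pool.Agent.Work.MP_659252_gt.Y.MetA

/-!
# Uniqueness for the first order system.  Size: M.  (Adapt the proofs of `Z/Uniq.lean`.)

PROOF.  The right side is `Fld (x, v) = (v + E1 (x, v), -x + E2 (x, v))`, `E1 (x,v)_i = be x * X1 A (lev x) x v i`.  Expanding `X1`, `X2` in the coordinates of `v`, every
component of `E1`, `E2` is a finite sum of terms `bb x * Φ (x, lev x) / (1 + bN x) * (monomial in v)`, `Φ` smooth on `x ≠ 0`, `s ∈ (0, T)` (products of `1/Q (dot A) s x x`, entries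
`A s i j` and coordinates of `x`; `be = b1/(2 (1 + bN))`, `b1 = bb/M`, `bN = bb * (N/M)`).  By `glue` (and `one_add_pos`) `Fld` is smooth on `{(x, v) | x ≠ 0}`.  So it is locally
Lipschitz, and two solutions on `ℝ` with values in that open set which agree at one time agree everywhere (the set of agreement is closed, and open by local uniqueness), as in
`Z/Uniq.lean`.
-/

namespace Pool.Agent.Work.MP_659252_gt.Y

open scoped ContDiff
open Pool.Agent.Work.MP_659252_gt.Z (V)

variable {d : ℕ} {A : Path d} {T : ℝ} {B : ℝ → ℝ} {lo hi : ℝ}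

private theorem uqA (D : Dat A T B lo hi) (i j : Fin (d + 1)) :
    ContDiffOn ℝ ∞ (fun p : V d × ℝ => A p.2 i j) {p | p.1 ≠ 0 ∧ p.2 ∈ Set.Ioo 0 T} :=
  (A_smooth₂ D.nested i j).mono fun _ hp => hp.2

private theorem uqC (T : ℝ) (k : Fin (d + 1)) :
    ContDiffOn ℝ ∞ (fun p : V d × ℝ => p.1 k) {p | p.1 ≠ 0 ∧ p.2 ∈ Set.Ioo 0 T} :=
  ((contDiff_apply ℝ ℝ k).comp contDiff_fst).contDiffOn

private theorem uqM (D : Dat A T B lo hi) :
    ContDiffOn ℝ ∞ (fun p : V d × ℝ => (Q (dot A) p.2 p.1 p.1)⁻¹) {p | p.1 ≠ 0 ∧ p.2 ∈ Set.Ioo 0 T} := by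
  refine ContDiffOn.inv ?_ fun p hp => (D.nested.mono p.2 hp.2 p.1 hp.1).ne'
  unfold Q
  refine ContDiffOn.sum fun i _ => ContDiffOn.sum fun j _ => ?_
  exact ((dot_smooth₂ D.nested i j).mono fun _ hp => hp.2).mul ((uqC T i).mul (uqC T j))

private theorem uqPhi (D : Dat A T B lo hi) (p q i j : Fin (d + 1)) :
    ContDiffOn ℝ ∞ (fun z : V d × ℝ => A z.2 p q * A z.2 i j * (Q (dot A) z.2 z.1 z.1)⁻¹)
      {p | p.1 ≠ 0 ∧ p.2 ∈ Set.Ioo 0 T} :=
  ((uqA D p q).mul (uqA D i j)).mul (uqM D)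

private theorem uqPsi (D : Dat A T B lo hi) :
    ContDiffOn ℝ ∞ (fun z : V d × ℝ => NN A z.2 z.1 * (Q (dot A) z.2 z.1 z.1)⁻¹)
      {p | p.1 ≠ 0 ∧ p.2 ∈ Set.Ioo 0 T} := by
  refine ContDiffOn.mul ?_ (uqM D)
  unfold NN dotProduct AX
  refine ContDiffOn.sum fun i _ => ?_
  have h : ContDiffOn ℝ ∞ (fun z : V d × ℝ => ∑ j, A z.2 i j * z.1 j)
      {p | p.1 ≠ 0 ∧ p.2 ∈ Set.Ioo 0 T} :=
    ContDiffOn.sum fun j _ => (uqA D i j).mul (uqC T j)
  exact h.mul h

/-- the coefficient functions -/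
private noncomputable def uqg (A : Path d) (T : ℝ) (B : ℝ → ℝ) (p q i j : Fin (d + 1)) (x : V d) : ℝ :=
  bb A T B x * (A (lev A T x) p q * A (lev A T x) i j * (Q (dot A) (lev A T x) x x)⁻¹)

private theorem uqg_smooth (D : Dat A T B lo hi) (p q i j : Fin (d + 1)) {x : V d} (hx : x ≠ 0) :
    ContDiffAt ℝ ∞ (uqg A T B p q i j) x :=
  (glue D _ (uqPhi D p q i j)).contDiffAt (isOpen_compl_singleton.mem_nhds hx)

private theorem uqbN_smooth (D : Dat A T B lo hi) {x : V d} (hx : x ≠ 0) :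
    ContDiffAt ℝ ∞ (bN A T B) x := by
  have h := (glue D _ (uqPsi D)).contDiffAt (isOpen_compl_singleton.mem_nhds hx)
  have e : bN A T B = fun x => bb A T B x *
      (NN A (lev A T x) x * (Q (dot A) (lev A T x) x x)⁻¹) := by
    funext y
    unfold bN b1
    rw [div_eq_mul_inv]
    ring
  rw [e]
  exact h

private theorem uqQA (A : Path d) (s : ℝ) (x y z : V d) (i : Fin (d + 1)) :
    Q A s x y * AX A s z i = ∑ p, ∑ q, ∑ j, A s p q * A s i j * (x p * y q * z j) := by
  unfold Q AX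
  rw [Finset.sum_mul]
  refine Finset.sum_congr rfl fun p _ => ?_
  rw [Finset.sum_mul]
  refine Finset.sum_congr rfl fun q _ => ?_
  rw [Finset.mul_sum]
  refine Finset.sum_congr rfl fun j _ => ?_
  ring

private theorem uqX1 (A : Path d) (T : ℝ) (B : ℝ → ℝ) (x v : V d) (i : Fin (d + 1)) :
    be A T B x * X1 A (lev A T x) x v i =
      (1 + bN A T B x)⁻¹ * ∑ p, ∑ q, ∑ j, uqg A T B p q i j x *
        (x p * x q * v j - x p * v q * x j) := by
  have e1 : ∑ p, ∑ q, ∑ j, uqg A T B p q i j x * (x p * x q * v j - x p * v q * x j) =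
      bb A T B x * (Q (dot A) (lev A T x) x x)⁻¹ *
        (Q A (lev A T x) x x * AX A (lev A T x) v i - Q A (lev A T x) x v * AX A (lev A T x) x i) := by
    rw [uqQA, uqQA]
    simp only [Finset.mul_sum, ← Finset.sum_sub_distrib]
    refine Finset.sum_congr rfl fun p _ => Finset.sum_congr rfl fun q _ =>
      Finset.sum_congr rfl fun j _ => ?_
    unfold uqg
    ring
  rw [e1]
  unfold be b1 X1
  simp only [Pi.sub_apply, Pi.smul_apply, smul_eq_mul, div_eq_mul_inv, mul_inv]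
  ring

private theorem uqX2 (A : Path d) (T : ℝ) (B : ℝ → ℝ) (x v : V d) (i : Fin (d + 1)) :
    be A T B x * X2 A (lev A T x) x v i =
      (1 + bN A T B x)⁻¹ * ∑ p, ∑ q, ∑ j, uqg A T B p q i j x *
        (x p * v q * v j - v p * v q * x j) := by
  have e1 : ∑ p, ∑ q, ∑ j, uqg A T B p q i j x * (x p * v q * v j - v p * v q * x j) =
      bb A T B x * (Q (dot A) (lev A T x) x x)⁻¹ *
        (Q A (lev A T x) x v * AX A (lev A T x) v i - Q A (lev A T x) v v * AX A (lev A T x) x i) := by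
    rw [uqQA, uqQA]
    simp only [Finset.mul_sum, ← Finset.sum_sub_distrib]
    refine Finset.sum_congr rfl fun p _ => Finset.sum_congr rfl fun q _ =>
      Finset.sum_congr rfl fun j _ => ?_
    unfold uqg
    ring
  rw [e1]
  unfold be b1 X2
  simp only [Pi.sub_apply, Pi.smul_apply, smul_eq_mul, div_eq_mul_inv, mul_inv]
  ring

/-- the right side of the system -/
private noncomputable def uqF (A : Path d) (T : ℝ) (B : ℝ → ℝ) (p : V d × V d) : V d × V d :=
  (p.2 + be A T B p.1 • X1 A (lev A T p.1) p.1 p.2, -p.1 + be A T B p.1 • X2 A (lev A T p.1) p.1 p.2)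

private theorem uqF_smooth (D : Dat A T B lo hi) (hB : Small A B lo hi) (p : V d × V d)
    (hp : p.1 ≠ 0) : ContDiffAt ℝ 1 (uqF A T B) p := by
  have hx : ∀ k, ContDiffAt ℝ 1 (fun p : V d × V d => p.1 k) p :=
    fun k => ((contDiff_apply ℝ ℝ k).comp contDiff_fst).contDiffAt
  have hv : ∀ k, ContDiffAt ℝ 1 (fun p : V d × V d => p.2 k) p :=
    fun k => ((contDiff_apply ℝ ℝ k).comp contDiff_snd).contDiffAt
  have hg : ∀ i j k l, ContDiffAt ℝ 1 (fun p : V d × V d => uqg A T B i j k l p.1) p :=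
    fun i j k l => ContDiffAt.comp p (((uqg_smooth D i j k l hp)).of_le (by simp)) contDiffAt_fst
  have hb : ContDiffAt ℝ 1 (fun p : V d × V d => bN A T B p.1) p :=
    ContDiffAt.comp p ((uqbN_smooth D hp).of_le (by simp)) contDiffAt_fst
  have hbi : ContDiffAt ℝ 1 (fun p : V d × V d => (1 + bN A T B p.1)⁻¹) p :=
    (contDiffAt_const.add hb).inv (one_add_pos D hB p.1 hp).ne'
  unfold uqF
  refine ContDiffAt.prodMk ?_ ?_
  · refine contDiffAt_pi.mpr fun i => ?_
    simp only [Pi.add_apply, Pi.smul_apply, smul_eq_mul, uqX1]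
    exact (hv i).add (hbi.mul (ContDiffAt.sum fun k _ => ContDiffAt.sum fun l _ =>
      ContDiffAt.sum fun j _ => (hg k l i j).mul
        ((((hx k).mul (hx l)).mul (hv j)).sub (((hx k).mul (hv l)).mul (hx j)))))
  · refine contDiffAt_pi.mpr fun i => ?_
    simp only [Pi.add_apply, Pi.neg_apply, Pi.smul_apply, smul_eq_mul, uqX2]
    exact (hx i).neg.add (hbi.mul (ContDiffAt.sum fun k _ => ContDiffAt.sum fun l _ =>
      ContDiffAt.sum fun j _ => (hg k l i j).mul
        ((((hx k).mul (hv l)).mul (hv j)).sub (((hv k).mul (hv l)).mul (hx j)))))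

theorem Sol.unique (D : Dat A T B lo hi) (hB : Small A B lo hi) {x v x' v' : ℝ → V d}
    (h : Sol A T B x v) (h' : Sol A T B x' v') (s₀ : ℝ) (hx : x s₀ = x' s₀) (hv : v s₀ = v' s₀) (s : ℝ) :
    x s = x' s ∧ v s = v' s := by
  have key : ∀ {x v : ℝ → V d}, Sol A T B x v →
      ∀ t, HasDerivAt (fun t => (x t, v t)) (uqF A T B (x t, v t)) t := by
    intro x v h t
    exact (h.dx t).prodMk (h.dv t)
  have hne : ∀ {x v : ℝ → V d}, Sol A T B x v → ∀ t, x t ≠ 0 := by
    intro x v h t h0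
    have h1 := h.xx t
    rw [h0, zero_dotProduct] at h1
    exact zero_ne_one h1
  have hcont : ∀ {x v : ℝ → V d}, Sol A T B x v → Continuous (fun t => (x t, v t)) := by
    intro x v h
    exact continuous_iff_continuousAt.mpr fun t => (key h t).continuousAt
  have hclopen : IsClopen {t | (x t, v t) = (x' t, v' t)} := by
    refine ⟨isClosed_eq (hcont h) (hcont h'), ?_⟩
    rw [isOpen_iff_mem_nhds]
    intro t ht
    obtain ⟨K, u, hu, hK⟩ := (uqF_smooth D hB (x t, v t) (hne h t)).exists_lipschitzOnWith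
    have hu' : u ∈ nhds (x' t, v' t) := by
      have ht' : (x t, v t) = (x' t, v' t) := ht
      rw [← ht']; exact hu
    refine ODE_solution_unique_of_eventually (v := fun _ => uqF A T B) (s := fun _ => u) (K := K)
      (Filter.Eventually.of_forall fun _ => hK) ?_ ?_ ht
    · filter_upwards [(hcont h).continuousAt.preimage_mem_nhds hu] with τ hτ
      exact ⟨key h τ, hτ⟩
    · filter_upwards [(hcont h').continuousAt.preimage_mem_nhds hu'] with τ hτ
      exact ⟨key h' τ, hτ⟩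
  have huniv := hclopen.eq_univ ⟨s₀, (by rw [hx, hv] : (x s₀, v s₀) = (x' s₀, v' s₀))⟩
  have hs : s ∈ {t | (x t, v t) = (x' t, v' t)} := by rw [huniv]; exact Set.mem_univ s
  exact Prod.mk.inj hs

end Pool.Agent.Work.MP_659252_gt.Y
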