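import Pool.Agent.Work.MP_659252_gt.Y.RingD
import Pool.Agent.Work.MP_659252_gt.Y.Wd
import Pool.Agent.Work.MP_659252_gt.Y.MetA

/-!
# The autonomous system.  Size: M.  (Adapt the proofs of `Z/Zpm.lean`.)

PROOF.  `ring_mem`: `lev_root` and `Dat.mem` (`x ≠ 0` as `x 0 > 0`).  `gg_pos`: `1 + b > 0` (`one_add_pos`), `M > 0` (`hA.mono`).  `gg_cont`: near a ring point `lev` is smooth
(`lev_contDiffAt`), `bb` is continuous on `{0}ᶜ` (`bb_contDiffOn`), the entries `A (lev y) i j`, `dot A (lev y) i j` are continuous, the denominators are not `0`.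
`Z_plus` (`c = 1`, solution for `B`): components: `lev_D`, `q_D` with `RR' A m (x s) (v s) = RR' A m (W1 s) (W2 s)` (`RR'_rot`, with `c = cos s`, `s = sin s`),
`W1_deriv`, `W2_deriv` and `be = bb/2 * gg` (`be_eq`), `bb = sign(x_0) B(m) = B(m)`.
`Z_minus` (`c = -1`, solution for `-B`): now `bb = -B(m)`; `RR'` does not change if the first vector changes sign, and
`X1 A m (-w₁) w₂ = X1 A m w₁ w₂`, `X2 A m (-w₁) w₂ = -X2 A m w₁ w₂`: so `(-W1)' = -gg (-B/2) X1(W1, W2) = gg (B/2) X1(-W1, W2)`,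
`W2' = gg (-B/2) X2(W1, W2) = gg (B/2) X2(-W1, W2)`.
-/

namespace Pool.Agent.Work.MP_659252_gt.Y

open Pool.Agent.Work.MP_659252_gt.Z (V W1 W2)

variable {d : ℕ} {A : Path d} {T : ℝ} {B : ℝ → ℝ} {lo hi : ℝ}

theorem ring_mem (D : Dat A T B lo hi) (x : V d) (hx : InRing A lo hi x) :
    lo ≤ lev A T x ∧ lev A T x ≤ hi ∧ lev A T x ∈ Set.Ioo 0 T ∧ Q A (lev A T x) x x = 0 := by
  have hx0 : x ≠ 0 := by
    intro h
    have := hx.1
    rw [h, Pi.zero_apply] at this
    exact lt_irrefl _ this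
  obtain ⟨h1, h2, h3⟩ := lev_root D.nested D.lo_mem D.hi_mem D.lo_hi.le x hx0 hx.2.1 hx.2.2
  exact ⟨h1, h2, D.mem h1 h2, h3⟩

private theorem zpm_ne {x : V d} (hx : InRing A lo hi x) : x ≠ 0 := by
  intro h
  have := hx.1
  rw [h, Pi.zero_apply] at this
  exact lt_irrefl _ this

private theorem zpm_bb (B : ℝ → ℝ) {x : V d} (hx : 0 < x 0) : bb A T B x = B (lev A T x) := by
  unfold bb
  rw [Real.sign_of_pos hx, one_mul]

theorem gg_pos (D : Dat A T B lo hi) (hB : Small A B lo hi) (x : V d) (hx : InRing A lo hi x) :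
    0 < gg A T B x := by
  obtain ⟨-, -, hm, -⟩ := ring_mem D x hx
  have h1 := one_add_pos D hB x (zpm_ne hx)
  have h2 := D.nested.mono _ hm x (zpm_ne hx)
  unfold gg
  positivity

theorem gg_cont (D : Dat A T B lo hi) (hB : Small A B lo hi) (x : V d) (hx : InRing A lo hi x) :
    ContinuousAt (gg A T B) x := by
  obtain ⟨-, -, hm, hr⟩ := ring_mem D x hx
  have hx0 := zpm_ne hx
  have hA := D.nested
  have h1 := one_add_pos D hB x hx0
  have h2 := hA.mono _ hm x hx0
  have hlev : ContinuousAt (lev A T) x := (lev_contDiffAt hA hm x hx0 hr).continuousAt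
  have hbb : ContinuousAt (bb A T B) x :=
    (bb_contDiffOn D).continuousOn.continuousAt (isOpen_compl_singleton.mem_nhds hx0)
  have hAc : ∀ i j, ContinuousAt (fun y : V d => A (lev A T y) i j) x := fun i j =>
    ContinuousAt.comp (g := fun m => A m i j) (A_deriv hA hm i j).continuousAt hlev
  have hdc : ∀ i j, ContinuousAt (fun y : V d => dot A (lev A T y) i j) x := fun i j =>
    ContinuousAt.comp (g := fun m => dot A m i j) (dot_deriv hA hm i j).continuousAt hlev
  have hi : ∀ i : Fin (d + 1), ContinuousAt (fun y : V d => y i) x := fun i =>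
    (continuous_apply i).continuousAt
  have hQc : ContinuousAt (fun y : V d => Q (dot A) (lev A T y) y y) x := by
    unfold Q
    apply tendsto_finsetSum
    intro i _
    apply tendsto_finsetSum
    intro j _
    exact (hdc i j).mul ((hi i).mul (hi j))
  have hAX : ∀ i, ContinuousAt (fun y : V d => AX A (lev A T y) y i) x := by
    intro i
    unfold AX
    apply tendsto_finsetSum
    intro j _
    exact (hAc i j).mul (hi j)
  have hNN : ContinuousAt (fun y : V d => NN A (lev A T y) y) x := by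
    unfold NN dotProduct
    apply tendsto_finsetSum
    intro i _
    exact (hAX i).mul (hAX i)
  have hbN : ContinuousAt (bN A T B) x := by
    unfold bN b1
    exact (hbb.div hQc h2.ne').mul hNN
  unfold gg
  exact continuousAt_const.div ((continuousAt_const.add hbN).mul hQc) (mul_pos h1 h2).ne'

private theorem zpm_Q {c : ℝ} (hc : c * c = 1) (A : Path d) (m : ℝ) (w : V d) :
    Q A m (c • w) (c • w) = Q A m w w := by
  rw [Q_smul, Q_smul_right, ← mul_assoc, hc, one_mul]

private theorem zpm_RR' {c : ℝ} (hc : c * c = 1) (m : ℝ) (w₁ w₂ : V d) :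
    RR' A m (c • w₁) w₂ = RR' A m w₁ w₂ := by
  unfold RR'
  rw [zpm_Q hc, zpm_Q hc, Q_smul, Q_smul]
  have e3 : 2 * (c * Q A m w₁ w₂) * (c * Q (dot A) m w₁ w₂) =
      (c * c) * (2 * Q A m w₁ w₂ * Q (dot A) m w₁ w₂) := by ring
  rw [e3, hc, one_mul]

private theorem zpm_X1 {c : ℝ} (hc : c * c = 1) (m : ℝ) (w₁ w₂ : V d) :
    X1 A m (c • w₁) w₂ = X1 A m w₁ w₂ := by
  unfold X1
  rw [zpm_Q hc, Q_smul, AX_smul, smul_smul]
  congr 2
  have e3 : 2 * (c * Q A m w₁ w₂) * c = (c * c) * (2 * Q A m w₁ w₂) := by ring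
  rw [e3, hc, one_mul]

private theorem zpm_X2 {c : ℝ} (m : ℝ) (w₁ w₂ : V d) :
    X2 A m (c • w₁) w₂ = c • X2 A m w₁ w₂ := by
  unfold X2
  rw [Q_smul, AX_smul, smul_sub, smul_smul, smul_smul, smul_smul]
  congr 2 <;> ring

private theorem Z_gen (D : Dat A T B lo hi) {B' : ℝ → ℝ} (D' : Dat A T B' lo hi)
    (hB' : Small A B' lo hi) {c : ℝ} (hc : c * c = 1) {x v : ℝ → V d} (h : Sol A T B' x v) (s : ℝ)
    (hs : InRing A lo hi (x s)) (hb : B' (lev A T (x s)) = c * B (lev A T (x s))) :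
    HasDerivAt (ZZ A T c x v) (gg A T B' (x s) • FF A B (ZZ A T c x v s)) s := by
  obtain ⟨-, -, hm, hr⟩ := ring_mem D (x s) hs
  have hx0 := zpm_ne hs
  have hA := D.nested
  have h1 := (one_add_pos D' hB' (x s) hx0).ne'
  have hbb : bb A T B' (x s) = c * B (lev A T (x s)) := by rw [zpm_bb B' hs.1, hb]
  have hbe : be A T B' (x s) = gg A T B' (x s) * (c * B (lev A T (x s)) / 2) := by
    rw [be_eq, hbb]
    ring
  have d1 := lev_D hA h s h1 hm hr
  have d2 := q_D hA h s h1 hm hr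
  have d3 : HasDerivAt (fun s => c • W1 x v s)
      (c • (be A T B' (x s) • X1 A (lev A T (x s)) (W1 x v s) (W2 x v s))) s :=
    (W1_deriv hA.symm h s).const_smul c
  have d4 := W2_deriv hA.symm h s
  have hrot : RR' A (lev A T (x s)) (x s) (v s) =
      RR' A (lev A T (x s)) (W1 x v s) (W2 x v s) := by
    have := RR'_rot hA.symm (lev A T (x s)) (Real.cos s) (Real.sin s) (Real.cos_sq_add_sin_sq s)
      (x s) (v s)
    rw [← this]
    rfl
  have hall := d1.prodMk (d2.prodMk (d3.prodMk d4))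
  have hval : gg A T B' (x s) • FF A B (ZZ A T c x v s) =
      (gg A T B' (x s) * (-2 * Q A (lev A T (x s)) (x s) (v s)),
        gg A T B' (x s) * (-RR' A (lev A T (x s)) (x s) (v s)),
        c • (be A T B' (x s) • X1 A (lev A T (x s)) (W1 x v s) (W2 x v s)),
        be A T B' (x s) • X2 A (lev A T (x s)) (W1 x v s) (W2 x v s)) := by
    unfold FF ZZ
    simp only [Prod.smul_mk, smul_eq_mul]
    rw [zpm_RR' hc, zpm_X1 hc, zpm_X2, hrot, hbe]
    refine Prod.ext rfl (Prod.ext rfl (Prod.ext ?_ ?_))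
    · show gg A T B' (x s) • (B (lev A T (x s)) / 2) • X1 A (lev A T (x s)) (W1 x v s) (W2 x v s) =
        c • (gg A T B' (x s) * (c * B (lev A T (x s)) / 2)) • X1 A (lev A T (x s)) (W1 x v s) (W2 x v s)
      rw [smul_smul, smul_smul]
      congr 1
      have : c * (gg A T B' (x s) * (c * B (lev A T (x s)) / 2)) =
          (c * c) * (gg A T B' (x s) * (B (lev A T (x s)) / 2)) := by ring
      rw [this, hc, one_mul]
    · show gg A T B' (x s) • (B (lev A T (x s)) / 2) • c • X2 A (lev A T (x s)) (W1 x v s) (W2 x v s) =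
        (gg A T B' (x s) * (c * B (lev A T (x s)) / 2)) • X2 A (lev A T (x s)) (W1 x v s) (W2 x v s)
      rw [smul_smul, smul_smul]
      congr 1
      ring
  rw [hval]
  exact hall

theorem Z_plus (D : Dat A T B lo hi) (hB : Small A B lo hi) {x v : ℝ → V d} (h : Sol A T B x v)
    (s : ℝ) (hs : InRing A lo hi (x s)) :
    HasDerivAt (ZZ A T 1 x v) (gg A T B (x s) • FF A B (ZZ A T 1 x v s)) s :=
  Z_gen D D hB (by norm_num) h s hs (by rw [one_mul])

theorem Z_minus (D : Dat A T B lo hi) (hB : Small A B lo hi) {x v : ℝ → V d}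
    (h : Sol A T (fun s => -B s) x v) (s : ℝ) (hs : InRing A lo hi (x s)) :
    HasDerivAt (ZZ A T (-1) x v) (gg A T (fun s => -B s) (x s) • FF A B (ZZ A T (-1) x v s)) s :=
  Z_gen D D.neg hB.neg (by norm_num) h s hs (by ring)

end Pool.Agent.Work.MP_659252_gt.Y
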